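import Mathlib

/-!
Fourier coefficients of continuous functions on the circle `ℝ/ℤ`: Parseval, shifts, dyadic blocks
(Bernstein's argument), exponentials of one-sided series.
-/

set_option autoImplicit false

noncomputable section

open MeasureTheory AddCircle Set Filter Topology Metric
open scoped ComplexConjugate

namespace Pool.Agent.Y283.TO

abbrev CT := C(UnitAddCircle, ℂ)

lemma integrable_CT (f : CT) : Integrable (fun t => f t) (haarAddCircle (T := (1 : ℝ))) :=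
  f.continuous.integrable_of_hasCompactSupport (HasCompactSupport.of_compactSpace _)

/-- The mean over the circle. -/
def mean : CT →L[ℂ] ℂ :=
  LinearMap.mkContinuous
    { toFun := fun h => ∫ t, h t ∂haarAddCircle
      map_add' := fun g h => by
        simp only [ContinuousMap.add_apply]
        exact integral_add (integrable_CT g) (integrable_CT h)
      map_smul' := fun c h => by
        simp only [ContinuousMap.smul_apply, RingHom.id_apply]
        exact integral_smul c _ } 1 (fun h => by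
      rw [one_mul]
      have := norm_integral_le_of_norm_le_const (μ := haarAddCircle) (f := fun t => h t)
        (C := ‖h‖) (Filter.Eventually.of_forall fun t => h.norm_coe_le_norm t)
      simpa using this)

lemma mean_apply (h : CT) : mean h = ∫ t, h t ∂haarAddCircle := rfl

lemma norm_mean_le (h : CT) : ‖mean h‖ ≤ ‖h‖ := by
  have := mean.le_opNorm h
  have h2 : ‖mean‖ ≤ 1 := LinearMap.mkContinuous_norm_le _ zero_le_one _
  nlinarith [norm_nonneg h]

lemma fourier_add_eq (m n : ℤ) : (fourier (m + n) : CT) = fourier m * fourier n := by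
  ext t
  exact fourier_add

lemma fourier_zero_eq : (fourier 0 : CT) = 1 := by
  ext t
  exact fourier_zero

lemma mean_fourier (n : ℤ) : mean (fourier n) = if n = 0 then 1 else 0 := by
  have h := congrFun (fourierCoeff_fourier (T := (1 : ℝ)) n) 0
  have h2 : fourierCoeff (T := (1 : ℝ)) (fun t => (fourier n : CT) t) 0 = mean (fourier n) := by
    rw [fourierCoeff, mean_apply]
    simp
  rw [← h2]
  rw [h, Pi.single_apply]
  congr 1
  exact propext eq_comm

/-- The `n`-th Fourier coefficient. -/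
def ft (n : ℤ) : CT →L[ℂ] ℂ := mean.comp (ContinuousLinearMap.mul ℂ CT (fourier (-n)))

lemma ft_apply (n : ℤ) (f : CT) : ft n f = mean (fourier (-n) * f) := rfl

lemma ft_eq (n : ℤ) (f : CT) : ft n f = fourierCoeff (T := (1 : ℝ)) (fun t => f t) n := rfl

lemma ft_fourier_mul (m n : ℤ) (f : CT) : ft n (fourier m * f) = ft (n - m) f := by
  rw [ft_apply, ft_apply, ← mul_assoc, ← fourier_add_eq]
  congr 3
  ring

lemma ft_fourier (m n : ℤ) : ft n (fourier m : CT) = if n = m then 1 else 0 := by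
  rw [ft_apply, ← fourier_add_eq, mean_fourier]
  congr 1
  apply propext
  constructor <;> intro h <;> omega

lemma ft_one (n : ℤ) : ft n (1 : CT) = if n = 0 then 1 else 0 := by
  rw [← fourier_zero_eq, ft_fourier]

lemma norm_fourier_apply (n : ℤ) (t : UnitAddCircle) : ‖(fourier n : CT) t‖ = 1 := by
  rw [fourier_apply]
  exact Circle.norm_coe _

lemma norm_ft_le (n : ℤ) (f : CT) : ‖ft n f‖ ≤ ‖f‖ := by
  rw [ft_apply]
  refine (norm_mean_le _).trans ?_
  refine (ContinuousMap.norm_le _ (norm_nonneg _)).mpr fun t => ?_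
  rw [ContinuousMap.mul_apply, norm_mul, norm_fourier_apply, one_mul]
  exact f.norm_coe_le_norm t

/-- Parseval. -/
lemma parseval (f : CT) :
    HasSum (fun n : ℤ => ‖ft n f‖ ^ 2) (∫ t, ‖f t‖ ^ 2 ∂haarAddCircle) := by
  have h := hasSum_sq_fourierCoeff (T := (1 : ℝ))
    (ContinuousMap.toLp (E := ℂ) 2 haarAddCircle ℂ f)
  have h1 : ∀ n, fourierCoeff (T := (1 : ℝ)) (ContinuousMap.toLp (E := ℂ) 2 haarAddCircle ℂ f) n
      = ft n f := fun n => fourierCoeff_toLp f n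
  simp only [h1] at h
  have h2 : ∫ t, ‖(ContinuousMap.toLp (E := ℂ) 2 (haarAddCircle (T := (1 : ℝ))) ℂ f) t‖ ^ 2
      ∂haarAddCircle = ∫ t, ‖f t‖ ^ 2 ∂haarAddCircle := by
    refine integral_congr_ae ?_
    filter_upwards [ContinuousMap.coeFn_toLp (E := ℂ) (p := 2) (𝕜 := ℂ) haarAddCircle f] with t ht
    rw [ht]
  rw [h2] at h
  exact h

/-- The shift `t ↦ f (t + h)`. -/
def sh (h : UnitAddCircle) (f : CT) : CT := ⟨fun t => f (t + h), by fun_prop⟩

lemma sh_apply (h : UnitAddCircle) (f : CT) (t : UnitAddCircle) : sh h f t = f (t + h) := rfl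

lemma fourier_add_apply (n : ℤ) (s t : UnitAddCircle) :
    (fourier n : CT) (s + t) = fourier n s * fourier n t := by
  rw [fourier_apply, fourier_apply, fourier_apply, smul_add, toCircle_add, Circle.coe_mul]

lemma fourier_neg_mul (n : ℤ) (t : UnitAddCircle) :
    (fourier (-n) : CT) t * fourier n t = 1 := by
  rw [← ContinuousMap.mul_apply, ← fourier_add_eq, neg_add_cancel, fourier_zero_eq,
    ContinuousMap.one_apply]

lemma ft_sh (n : ℤ) (h : UnitAddCircle) (f : CT) :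
    ft n (sh h f) = (fourier n : CT) h * ft n f := by
  rw [ft_apply, ft_apply, mean_apply, mean_apply]
  have h1 := integral_add_right_eq_self (μ := haarAddCircle (T := (1 : ℝ)))
    (fun t => (fourier n : CT) h * ((fourier (-n) : CT) t * f t)) h
  have h2 : ∀ t, (fourier n : CT) h * ((fourier (-n) : CT) (t + h) * f (t + h))
      = (fourier (-n) * sh h f : CT) t := by
    intro t
    rw [fourier_add_apply, ContinuousMap.mul_apply, sh_apply]
    have := fourier_neg_mul n h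
    calc (fourier n : CT) h * ((fourier (-n) : CT) t * (fourier (-n) : CT) h * f (t + h))
        = ((fourier (-n) : CT) h * fourier n h) * ((fourier (-n) : CT) t * f (t + h)) := by ring
      _ = _ := by rw [this, one_mul]
  simp only [h2] at h1
  rw [h1, integral_const_mul]
  rfl

/-- Bernstein's argument on one dyadic block. -/
lemma fourier_sub_one_ge (j : ℕ) (n : ℤ) (h1 : 2 ^ j ≤ n) (h2 : n < 2 ^ (j + 1)) :
    1 ≤ ‖(fourier n : CT) (((1 / (3 * 2 ^ j) : ℝ) : UnitAddCircle)) - 1‖ := by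
  rw [fourier_coe_apply]
  set x : ℝ := n * (1 / (3 * 2 ^ j)) with hx
  have hx1 : 1 / 3 ≤ x := by
    rw [hx, mul_one_div, le_div_iff₀ (by positivity)]
    have : (2 : ℝ) ^ j ≤ n := by exact_mod_cast h1
    linarith
  have hx2 : x ≤ 2 / 3 := by
    rw [hx, mul_one_div, div_le_iff₀ (by positivity)]
    have : (n : ℝ) ≤ 2 ^ (j + 1) := by exact_mod_cast h2.le
    rw [pow_succ] at this
    linarith
  have e : Complex.exp (2 * Real.pi * Complex.I * n * ((1 / (3 * 2 ^ j) : ℝ) : ℂ) / (1 : ℝ))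
      = Complex.exp (((2 * Real.pi * x : ℝ) : ℂ) * Complex.I) := by
    congr 1
    rw [hx]
    push_cast
    ring
  rw [e, Complex.exp_mul_I, ← Complex.ofReal_cos, ← Complex.ofReal_sin]
  have hcos : Real.cos (2 * Real.pi * x) ≤ -1 / 2 := by
    have h3 : Real.cos (2 * Real.pi * x) = - Real.cos (2 * Real.pi * x - Real.pi) := by
      rw [Real.cos_sub_pi, neg_neg]
    have h4 : Real.cos (Real.pi / 3) ≤ Real.cos |2 * Real.pi * x - Real.pi| := by
      apply Real.cos_le_cos_of_nonneg_of_le_pi (abs_nonneg _)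
      · linarith [Real.pi_pos]
      · rw [abs_le]
        constructor <;> nlinarith [Real.pi_pos]
    rw [Real.cos_abs, Real.cos_pi_div_three] at h4
    rw [h3]
    linarith
  have h5 : (((Real.cos (2 * Real.pi * x) : ℝ) : ℂ) + ((Real.sin (2 * Real.pi * x) : ℝ) : ℂ) *
      Complex.I - 1).re = Real.cos (2 * Real.pi * x) - 1 := by
    simp only [Complex.add_re, Complex.sub_re, Complex.mul_re, Complex.I_re, Complex.I_im,
      Complex.ofReal_re, Complex.ofReal_im, Complex.one_re]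
    ring
  have h6 := Complex.abs_re_le_norm (((Real.cos (2 * Real.pi * x) : ℝ) : ℂ) +
    ((Real.sin (2 * Real.pi * x) : ℝ) : ℂ) * Complex.I - 1)
  rw [h5] at h6
  refine le_trans ?_ h6
  rw [abs_of_neg (by linarith)]
  linarith

/-- The step `1 / (3 * 2 ^ j)`. -/
def hj (j : ℕ) : UnitAddCircle := ((1 / (3 * 2 ^ j) : ℝ) : UnitAddCircle)

lemma fourier_neg_sub_one (n : ℤ) (h : UnitAddCircle) :
    ‖(fourier (-n) : CT) h - 1‖ = ‖(fourier n : CT) h - 1‖ := by
  rw [fourier_neg, ← RCLike.norm_conj ((fourier n : CT) h - 1), map_sub, map_one]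

lemma sg_ge (e : ℤ) (he : e = 1 ∨ e = -1) (j n : ℕ) (hn : n ∈ Finset.Ico (2 ^ j) (2 ^ (j + 1))) :
    1 ≤ ‖(fourier (e * n) : CT) (hj j) - 1‖ := by
  rw [Finset.mem_Ico] at hn
  have h := fourier_sub_one_ge j n (by exact_mod_cast hn.1) (by exact_mod_cast hn.2)
  rcases he with rfl | rfl
  · rw [one_mul]
    exact h
  · rw [neg_one_mul, fourier_neg_sub_one]
    exact h

lemma block_sq (e : ℤ) (he : e = 1 ∨ e = -1) (f : CT) (j : ℕ) :
    ∑ n ∈ Finset.Ico (2 ^ j) (2 ^ (j + 1)), ‖ft (e * (n : ℕ)) f‖ ^ 2 ≤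
      ∫ t, ‖(sh (hj j) f - f : CT) t‖ ^ 2 ∂haarAddCircle := by
  have hP := parseval (sh (hj j) f - f)
  have hinj : Function.Injective (fun n : ℕ => e * (n : ℤ)) := by
    intro a b hab
    have he0 : e ≠ 0 := by rcases he with rfl | rfl <;> norm_num
    have := mul_left_cancel₀ he0 hab
    exact_mod_cast this
  have h1 : ∑ n ∈ Finset.Ico (2 ^ j) (2 ^ (j + 1)), ‖ft (e * (n : ℕ)) f‖ ^ 2 ≤
      ∑ n ∈ Finset.Ico (2 ^ j) (2 ^ (j + 1)), ‖ft (e * (n : ℕ)) (sh (hj j) f - f)‖ ^ 2 := by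
    refine Finset.sum_le_sum fun n hn => ?_
    have h2 := sg_ge e he j n hn
    have h3 : ft (e * (n : ℕ)) (sh (hj j) f - f) =
        ((fourier (e * (n : ℕ)) : CT) (hj j) - 1) * ft (e * (n : ℕ)) f := by
      rw [map_sub, ft_sh]
      ring
    rw [h3, norm_mul, mul_pow]
    have h4 : (1 : ℝ) ≤ ‖(fourier (e * (n : ℕ)) : CT) (hj j) - 1‖ ^ 2 := by nlinarith
    nlinarith [sq_nonneg ‖ft (e * (n : ℕ)) f‖]
  refine h1.trans ?_
  have h5 : ∑ n ∈ Finset.Ico (2 ^ j) (2 ^ (j + 1)),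
      ‖ft (e * (n : ℕ)) (sh (hj j) f - f)‖ ^ 2 =
      ∑ m ∈ (Finset.Ico (2 ^ j) (2 ^ (j + 1))).image (fun n : ℕ => e * (n : ℤ)),
        ‖ft m (sh (hj j) f - f)‖ ^ 2 := by
    rw [Finset.sum_image (fun a _ b _ h => hinj h)]
  rw [h5, ← hP.tsum_eq]
  exact hP.summable.sum_le_tsum _ (fun _ _ => by positivity)

lemma block_le (e : ℤ) (he : e = 1 ∨ e = -1) (f : CT) (j : ℕ) (D : ℝ) (hD : 0 ≤ D)
    (h : ∫ t, ‖(sh (hj j) f - f : CT) t‖ ^ 2 ∂haarAddCircle ≤ D ^ 2) :
    ∑ n ∈ Finset.Ico (2 ^ j) (2 ^ (j + 1)), ‖ft (e * (n : ℕ)) f‖ ≤ Real.sqrt 2 ^ j * D := by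
  have h1 := sq_sum_le_card_mul_sum_sq (s := Finset.Ico (2 ^ j) (2 ^ (j + 1)))
    (f := fun n : ℕ => ‖ft (e * (n : ℕ)) f‖)
  have h2 : ((Finset.Ico (2 ^ j) (2 ^ (j + 1))).card : ℝ) = 2 ^ j := by
    rw [Nat.card_Ico]
    have : 2 ^ (j + 1) - 2 ^ j = 2 ^ j := by rw [pow_succ]; omega
    rw [this]
    push_cast
    rfl
  rw [h2] at h1
  have h3 := block_sq e he f j
  have h4 : (Real.sqrt 2 ^ j * D) ^ 2 = 2 ^ j * D ^ 2 := by
    rw [mul_pow, ← pow_mul, mul_comm j 2, pow_mul, Real.sq_sqrt (by norm_num)]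
  refine abs_le_of_sq_le_sq' ?_ (by positivity) |>.2
  rw [h4]
  refine h1.trans (mul_le_mul_of_nonneg_left (h3.trans h) (by positivity))

/-- Sums of dyadic blocks. -/
lemma sum_tail (e : ℤ) (he : e = 1 ∨ e = -1) (f : CT) (j₀ : ℕ) (A q : ℝ) (hA : 0 ≤ A)
    (hq : 0 ≤ q) (hs : Real.sqrt 2 * q < 1)
    (h : ∀ j, j₀ ≤ j → ∫ t, ‖(sh (hj j) f - f : CT) t‖ ^ 2 ∂haarAddCircle ≤ (A * q ^ j) ^ 2)
    (N : ℕ) :
    ∑ n ∈ Finset.Ico (2 ^ j₀) N, ‖ft (e * (n : ℕ)) f‖ ≤
      A * (Real.sqrt 2 * q) ^ j₀ / (1 - Real.sqrt 2 * q) := by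
  set s := Real.sqrt 2 * q with hsdef
  have hs0 : 0 ≤ s := by positivity
  have key : ∀ k : ℕ, ∑ n ∈ Finset.Ico (2 ^ j₀) (2 ^ (j₀ + k)), ‖ft (e * (n : ℕ)) f‖ ≤
      ∑ i ∈ Finset.range k, A * s ^ (j₀ + i) := by
    intro k
    induction k with
    | zero => simp
    | succ k ih =>
      have hc := Finset.sum_Ico_consecutive (fun n : ℕ => ‖ft (e * (n : ℕ)) f‖)
        (Nat.pow_le_pow_right (n := 2) (by norm_num) (Nat.le_add_right j₀ k))
        (Nat.pow_le_pow_right (n := 2) (by norm_num) (Nat.le_succ (j₀ + k)))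
      rw [Finset.sum_range_succ, ← Nat.add_assoc, ← Nat.succ_eq_add_one, ← hc]
      refine add_le_add ih ?_
      have := block_le e he f (j₀ + k) (A * q ^ (j₀ + k)) (by positivity)
        (h _ (Nat.le_add_right _ _))
      refine this.trans (le_of_eq ?_)
      rw [hsdef, mul_pow]
      ring
  obtain ⟨k, hk⟩ : ∃ k : ℕ, N ≤ 2 ^ (j₀ + k) := by
    refine ⟨N, ?_⟩
    calc N ≤ 2 ^ N := Nat.lt_two_pow_self.le
      _ ≤ 2 ^ (j₀ + N) := Nat.pow_le_pow_right (by norm_num) (Nat.le_add_left _ _)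
  have h1 : ∑ n ∈ Finset.Ico (2 ^ j₀) N, ‖ft (e * (n : ℕ)) f‖ ≤
      ∑ n ∈ Finset.Ico (2 ^ j₀) (2 ^ (j₀ + k)), ‖ft (e * (n : ℕ)) f‖ :=
    Finset.sum_le_sum_of_subset_of_nonneg (Finset.Ico_subset_Ico_right hk)
      (fun _ _ _ => norm_nonneg _)
  refine (h1.trans (key k)).trans ?_
  have h2 : ∑ i ∈ Finset.range k, A * s ^ (j₀ + i) =
      A * s ^ j₀ * ∑ i ∈ Finset.range k, s ^ i := by
    rw [Finset.mul_sum]
    refine Finset.sum_congr rfl fun i _ => ?_
    rw [pow_add]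
    ring
  rw [h2, div_eq_mul_inv]
  refine mul_le_mul_of_nonneg_left ?_ (by positivity)
  rw [← tsum_geometric_of_lt_one hs0 hs]
  exact (summable_geometric_of_lt_one hs0 hs).sum_le_tsum _ (fun _ _ => by positivity)

lemma summable_ft (e : ℤ) (he : e = 1 ∨ e = -1) (f : CT) (j₀ : ℕ) (A q : ℝ) (hA : 0 ≤ A)
    (hq : 0 ≤ q) (hs : Real.sqrt 2 * q < 1)
    (h : ∀ j, j₀ ≤ j → ∫ t, ‖(sh (hj j) f - f : CT) t‖ ^ 2 ∂haarAddCircle ≤ (A * q ^ j) ^ 2) :
    Summable (fun n : ℕ => ‖ft (e * (n : ℕ)) f‖) ∧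
    ∑' n : ℕ, ‖ft (e * ((n + 2 ^ j₀ : ℕ) : ℤ)) f‖ ≤
      A * (Real.sqrt 2 * q) ^ j₀ / (1 - Real.sqrt 2 * q) := by
  have h1 := sum_tail e he f j₀ A q hA hq hs h
  have h2 : ∀ N, ∑ n ∈ Finset.range N, ‖ft (e * ((n + 2 ^ j₀ : ℕ) : ℤ)) f‖ ≤
      A * (Real.sqrt 2 * q) ^ j₀ / (1 - Real.sqrt 2 * q) := by
    intro N
    refine le_trans (le_of_eq ?_) (h1 (N + 2 ^ j₀))
    rw [Finset.sum_Ico_eq_sum_range, Nat.add_sub_cancel]
    refine Finset.sum_congr rfl fun i _ => ?_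
    rw [add_comm]
  have h3 : Summable (fun n : ℕ => ‖ft (e * ((n + 2 ^ j₀ : ℕ) : ℤ)) f‖) :=
    summable_of_sum_range_le (fun _ => norm_nonneg _) h2
  exact ⟨(summable_nat_add_iff (f := fun n : ℕ => ‖ft (e * (n : ℕ)) f‖) (2 ^ j₀)).mp h3,
    Real.tsum_le_of_sum_range_le (fun _ => norm_nonneg _) h2⟩

end Pool.Agent.Y283.TO
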