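import Mathlib
import Pool.Agent.Y283.TO.Four

/-!
Exponentials of one-sided Fourier series.
-/

set_option autoImplicit false

noncomputable section

open MeasureTheory AddCircle Set Filter Topology Metric
open scoped ComplexConjugate

namespace Pool.Agent.Y283.TO

/-- Mean value property on the circle. -/
lemma mean_entire (F : ℂ → ℂ) (hF : Differentiable ℂ F) (f : CT)
    (hf : ∀ t, f t = F ((fourier 1 : CT) t)) : mean f = F 0 := by
  have h1 : Real.circleAverage F 0 1 = F 0 := DiffContOnCl.circleAverage hF.diffContOnCl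
  rw [← h1, Real.circleAverage_def, mean_apply, integral_haarAddCircle]
  have h2 := AddCircle.intervalIntegral_preimage (1 : ℝ) 0 (fun t : AddCircle (1 : ℝ) => f t)
  rw [← h2, inv_one, one_smul, zero_add]
  have h3 : ∀ x : ℝ, f (x : UnitAddCircle) = F (circleMap 0 1 (2 * Real.pi * x)) := by
    intro x
    rw [hf, fourier_coe_apply]
    congr 1
    simp only [circleMap, Complex.ofReal_one, one_mul, zero_add, div_one, Int.cast_one, mul_one]
    congr 1
    push_cast
    ring
  simp only [h3]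
  rw [intervalIntegral.integral_comp_mul_left (fun x => F (circleMap 0 1 x))
    (by positivity : (2 * Real.pi : ℝ) ≠ 0)]
  simp

/-- The pointwise exponential. -/
def cexp (f : CT) : CT := (⟨Complex.exp, Complex.continuous_exp⟩ : C(ℂ, ℂ)).comp f

lemma cexp_apply (f : CT) (t : UnitAddCircle) : cexp f t = Complex.exp (f t) := rfl

lemma continuous_cexp : Continuous cexp :=
  ContinuousMap.continuous_postcomp _

/-- One-sided series. -/
def ps (c : ℕ → ℂ) : CT := ∑' n : ℕ, c n • (fourier (n : ℤ) : CT)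

lemma summable_ps (c : ℕ → ℂ) (hc : Summable fun n => ‖c n‖) :
    Summable fun n : ℕ => c n • (fourier (n : ℤ) : CT) := by
  refine Summable.of_norm (hc.congr fun n => ?_)
  rw [norm_smul, fourier_norm, mul_one]

lemma hasSum_ps (c : ℕ → ℂ) (hc : Summable fun n => ‖c n‖) :
    HasSum (fun n : ℕ => c n • (fourier (n : ℤ) : CT)) (ps c) := (summable_ps c hc).hasSum

lemma ps_apply (c : ℕ → ℂ) (hc : Summable fun n => ‖c n‖) (t : UnitAddCircle) :
    HasSum (fun n : ℕ => c n * (fourier (n : ℤ) : CT) t) (ps c t) := by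
  have h := (ContinuousMap.evalCLM ℂ t : CT →L[ℂ] ℂ).hasSum (hasSum_ps c hc)
  exact h

lemma fourier_nat_apply (n : ℕ) (t : UnitAddCircle) :
    (fourier (n : ℤ) : CT) t = (fourier 1 : CT) t ^ n := by
  induction n with
  | zero => simp
  | succ n ih =>
    rw [pow_succ, ← ih, ← ContinuousMap.mul_apply, ← fourier_add_eq]
    norm_cast

lemma ft_neg_cexp_ps (c : ℕ → ℂ) (hc : Summable fun n => ‖c n‖) (m : ℕ) :
    ft (-(m : ℤ)) (cexp (ps c)) = if m = 0 then Complex.exp (c 0) else 0 := by
  have h1 : Tendsto (fun N => ft (-(m : ℤ)) (cexp (∑ n ∈ Finset.range N,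
      c n • (fourier (n : ℤ) : CT)))) atTop (𝓝 (ft (-(m : ℤ)) (cexp (ps c)))) :=
    ((ft (-(m : ℤ))).continuous.comp continuous_cexp).continuousAt.tendsto.comp
      (hasSum_ps c hc).tendsto_sum_nat
  have h2 : ∀ N, 1 ≤ N → ft (-(m : ℤ)) (cexp (∑ n ∈ Finset.range N,
      c n • (fourier (n : ℤ) : CT))) = if m = 0 then Complex.exp (c 0) else 0 := by
    intro N hN
    rw [ft_apply, neg_neg]
    rw [mean_entire (fun w => w ^ m * Complex.exp (∑ n ∈ Finset.range N, c n * w ^ n))
      (by fun_prop) _ (fun t => ?_)]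
    · have h3 : ∑ n ∈ Finset.range N, c n * (0 : ℂ) ^ n = c 0 := by
        rw [Finset.sum_eq_single_of_mem 0 (Finset.mem_range.mpr (by omega))]
        · simp
        · intro b _ hb
          rw [zero_pow hb, mul_zero]
      simp only [h3]
      split_ifs with hm
      · rw [hm, pow_zero, one_mul]
      · rw [zero_pow hm, zero_mul]
    · rw [ContinuousMap.mul_apply, cexp_apply, fourier_nat_apply]
      congr 2
      rw [ContinuousMap.sum_apply]
      refine Finset.sum_congr rfl fun n _ => ?_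
      rw [ContinuousMap.smul_apply, fourier_nat_apply, smul_eq_mul]
  have h3 : Tendsto (fun N => ft (-(m : ℤ)) (cexp (∑ n ∈ Finset.range N,
      c n • (fourier (n : ℤ) : CT)))) atTop
      (𝓝 (if m = 0 then Complex.exp (c 0) else 0)) := by
    refine tendsto_const_nhds.congr' ?_
    filter_upwards [eventually_ge_atTop 1] with N hN
    exact (h2 N hN).symm
  exact tendsto_nhds_unique h1 h3

/-- Reflection `t ↦ f (-t)`. -/
def rf (f : CT) : CT := ⟨fun t => f (-t), by fun_prop⟩

lemma rf_apply (f : CT) (t : UnitAddCircle) : rf f t = f (-t) := rfl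

lemma rf_rf (f : CT) : rf (rf f) = f := by
  ext t
  rw [rf_apply, rf_apply, neg_neg]

lemma fourier_neg_arg (n : ℤ) (t : UnitAddCircle) : (fourier n : CT) (-t) = fourier (-n) t := by
  rw [fourier_apply, fourier_apply, smul_neg, neg_smul]

lemma ft_rf (n : ℤ) (f : CT) : ft n (rf f) = ft (-n) f := by
  rw [ft_apply, ft_apply, mean_apply, mean_apply]
  have h1 := integral_neg_eq_self (μ := haarAddCircle (T := (1 : ℝ)))
    (fun t => (fourier (- -n) * f : CT) t)
  rw [← h1]
  refine integral_congr_ae (Eventually.of_forall fun t => ?_)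
  simp only [ContinuousMap.mul_apply, rf_apply]
  rw [fourier_neg_arg, neg_neg]

lemma cexp_rf (f : CT) : cexp (rf f) = rf (cexp f) := rfl

lemma norm_rf (f : CT) : ‖rf f‖ = ‖f‖ := by
  apply le_antisymm
  · exact (ContinuousMap.norm_le _ (norm_nonneg _)).mpr fun t => f.norm_coe_le_norm _
  · exact (ContinuousMap.norm_le _ (norm_nonneg _)).mpr fun t => by
      have := (rf f).norm_coe_le_norm (-t)
      rwa [rf_apply, neg_neg] at this

/-- One-sided series with nonpositive frequencies. -/
def psm (c : ℕ → ℂ) : CT := rf (ps c)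

lemma psm_apply (c : ℕ → ℂ) (hc : Summable fun n => ‖c n‖) (t : UnitAddCircle) :
    HasSum (fun n : ℕ => c n * (fourier (-(n : ℤ)) : CT) t) (psm c t) := by
  have := ps_apply c hc (-t)
  simp only [fourier_neg_arg] at this
  exact this

lemma ft_cexp_psm (c : ℕ → ℂ) (hc : Summable fun n => ‖c n‖) (m : ℕ) :
    ft (m : ℤ) (cexp (psm c)) = if m = 0 then Complex.exp (c 0) else 0 := by
  rw [psm, cexp_rf, ft_rf, ft_neg_cexp_ps c hc]

lemma ps_neg (c : ℕ → ℂ) (hc : Summable fun n => ‖c n‖) : -ps c = ps (fun n => -c n) := by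
  ext t
  have h1 := (ps_apply c hc t).neg
  have h2 := ps_apply (fun n => -c n) (by simpa using hc) t
  simp only [neg_mul] at h2
  exact h1.unique h2

lemma summable_mul_fourier (c : ℕ → ℂ) (hc : Summable fun n => ‖c n‖) (h : UnitAddCircle) :
    Summable fun n : ℕ => ‖c n * (fourier (n : ℤ) : CT) h‖ := by
  refine hc.congr fun n => ?_
  rw [norm_mul, norm_fourier_apply, mul_one]

lemma sh_ps (c : ℕ → ℂ) (hc : Summable fun n => ‖c n‖) (h : UnitAddCircle) :
    sh h (ps c) = ps (fun n => c n * (fourier (n : ℤ) : CT) h) := by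
  ext t
  have h1 := ps_apply c hc (t + h)
  have h2 := ps_apply _ (summable_mul_fourier c hc h) t
  have h3 : (fun n : ℕ => c n * (fourier (n : ℤ) : CT) (t + h)) =
      fun n : ℕ => c n * (fourier (n : ℤ) : CT) h * (fourier (n : ℤ) : CT) t := by
    funext n
    rw [fourier_add_apply]
    ring
  rw [h3] at h1
  exact h1.unique h2

lemma ps_sub (c d : ℕ → ℂ) (hc : Summable fun n => ‖c n‖) (hd : Summable fun n => ‖d n‖) :
    ps c - ps d = ps (fun n => c n - d n) := by
  ext t
  have h1 := (ps_apply c hc t).sub (ps_apply d hd t)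
  have h2 := ps_apply (fun n => c n - d n)
    (Summable.of_nonneg_of_le (fun _ => norm_nonneg _) (fun n => norm_sub_le (c n) (d n))
      (hc.add hd)) t
  simp only [← sub_mul] at h1
  exact h1.unique h2

/-- Orthogonality of analytic and coanalytic functions. -/
lemma split_le (u w s : CT) (hu : ∀ n : ℤ, n < 0 → ft n u = 0) (hw : ∀ n : ℤ, 0 ≤ n → ft n w = 0)
    (e : u = w + s) (B : ℝ) (hB : ∀ t, ‖s t‖ ≤ B) :
    ∫ t, ‖u t‖ ^ 2 ∂haarAddCircle ≤ B ^ 2 := by
  have h1 : ∫ t, ‖u t‖ ^ 2 ∂haarAddCircle ≤ ∫ t, ‖s t‖ ^ 2 ∂haarAddCircle := by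
    refine hasSum_le (fun n => ?_) (parseval u) (parseval s)
    rcases lt_or_ge n 0 with hn | hn
    · rw [hu n hn, norm_zero, zero_pow two_ne_zero]
      positivity
    · rw [e, map_add, hw n hn, zero_add]
  refine h1.trans ?_
  have hB0 : 0 ≤ B := (norm_nonneg _).trans (hB 0)
  have h2 : ∀ t, ‖‖s t‖ ^ 2‖ ≤ B ^ 2 := fun t => by
    rw [norm_pow, norm_norm]
    exact pow_le_pow_left₀ (norm_nonneg _) (hB t) 2
  have h3 := norm_integral_le_of_norm_le_const (μ := haarAddCircle (T := (1 : ℝ)))
    (f := fun t => ‖s t‖ ^ 2) (C := B ^ 2) (Eventually.of_forall h2)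
  rw [probReal_univ, mul_one] at h3
  exact (le_abs_self _).trans h3

end Pool.Agent.Y283.TO
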