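import Mathlib
import Pool.Agent.Y283.TO.Expo

/-!
Wiener-Hopf factorisation of `exp g` and the absolutely summable local resolvent.
-/

set_option autoImplicit false

noncomputable section

open MeasureTheory AddCircle Set Filter Topology Metric
open scoped ComplexConjugate

namespace Pool.Agent.Y283.TO

/-- nonnegative frequencies -/
def cp (g : CT) (n : ℕ) : ℂ := ft (n : ℤ) g

/-- negative frequencies -/
def cm (g : CT) (n : ℕ) : ℂ := if n = 0 then 0 else ft (-(n : ℤ)) g

lemma summable_cm (g : CT) (hm : Summable fun n : ℕ => ‖ft (-(n : ℤ)) g‖) :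
    Summable fun n => ‖cm g n‖ := by
  refine Summable.of_nonneg_of_le (fun _ => norm_nonneg _) (fun n => ?_) hm
  unfold cm
  split_ifs
  · rw [norm_zero]; exact norm_nonneg _
  · exact le_rfl

lemma decomp (g : CT) (hp : Summable fun n : ℕ => ‖ft (n : ℤ) g‖)
    (hm : Summable fun n : ℕ => ‖ft (-(n : ℤ)) g‖) : g = ps (cp g) + psm (cm g) := by
  have hsum : Summable (fourierCoeff (T := (1 : ℝ)) (fun t => g t)) := by
    refine Summable.of_norm ?_
    exact Summable.of_nat_of_neg hp hm
  have h1 := has_pointwise_sum_fourier_series_of_summable (T := (1 : ℝ)) (f := g) hsum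
  ext t
  have h2 := h1 t
  have h3 : HasSum (fun n : ℕ => ft (n : ℤ) g * (fourier (n : ℤ) : CT) t) (ps (cp g) t) :=
    ps_apply (cp g) hp t
  have h4 := psm_apply (cm g) (summable_cm g hm) t
  have h5 : HasSum (fun n : ℕ => ft (-((n : ℤ) + 1)) g * (fourier (-((n : ℤ) + 1)) : CT) t)
      (psm (cm g) t) := by
    have h6 := (hasSum_nat_add_iff' 1).mpr h4
    simp only [Finset.sum_range_one, cm, if_true, zero_mul, sub_zero] at h6
    have e : (fun n : ℕ => ft (-((n : ℤ) + 1)) g * (fourier (-((n : ℤ) + 1)) : CT) t) =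
        fun n : ℕ => (if n + 1 = 0 then 0 else ft (-((n + 1 : ℕ) : ℤ)) g) *
          (fourier (-((n + 1 : ℕ) : ℤ)) : CT) t := by
      funext n
      rw [if_neg (Nat.succ_ne_zero n)]
      push_cast
      rfl
    rw [e]
    exact h6
  have h7 := HasSum.of_nat_of_neg_add_one (f := fun n : ℤ => ft n g * (fourier n : CT) t) h3 h5
  have h8 : HasSum (fun n : ℤ => ft n g * (fourier n : CT) t) (g t) := h2
  rw [ContinuousMap.add_apply]
  exact h8.unique h7

lemma sh_psm (c : ℕ → ℂ) (hc : Summable fun n => ‖c n‖) (h : UnitAddCircle) :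
    sh h (psm c) = psm (fun n => c n * (fourier (n : ℤ) : CT) (-h)) := by
  rw [psm, psm, ← sh_ps c hc (-h)]
  ext t
  rw [sh_apply, rf_apply, rf_apply, sh_apply]
  congr 1
  abel

lemma psm_sub (c d : ℕ → ℂ) (hc : Summable fun n => ‖c n‖) (hd : Summable fun n => ‖d n‖) :
    psm c - psm d = psm (fun n => c n - d n) := by
  rw [psm, psm, psm, ← ps_sub c d hc hd]
  rfl

lemma summable_sub' (c d : ℕ → ℂ) (hc : Summable fun n => ‖c n‖) (hd : Summable fun n => ‖d n‖) :
    Summable fun n => ‖c n - d n‖ :=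
  Summable.of_nonneg_of_le (fun _ => norm_nonneg _) (fun n => norm_sub_le (c n) (d n)) (hc.add hd)

lemma norm_exp_le (z : ℂ) (S : ℝ) (h : ‖z‖ ≤ S) : ‖Complex.exp z‖ ≤ Real.exp S := by
  rw [Complex.norm_exp]
  exact Real.exp_le_exp.mpr ((Complex.re_le_norm z).trans h)

/-- Modulus of continuity in `L²` of the analytic factor. -/
lemma modulus (g : CT) (hp : Summable fun n : ℕ => ‖ft (n : ℤ) g‖)
    (hm : Summable fun n : ℕ => ‖ft (-(n : ℤ)) g‖) (S S' : ℝ)
    (hS : ∀ t, ‖ps (cp g) t‖ ≤ S) (hS' : ∀ t, ‖psm (cm g) t‖ ≤ S') (h : UnitAddCircle) (D : ℝ)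
    (hD : ∀ t, ‖(sh h (cexp g) - cexp g : CT) t‖ ≤ D) :
    ∫ t, ‖(sh h (cexp (-ps (cp g))) - cexp (-ps (cp g)) : CT) t‖ ^ 2 ∂haarAddCircle ≤
      (D * Real.exp (2 * S + S')) ^ 2 := by
  have hdec := decomp g hp hm
  set a : CT := ps (cp g) with ha
  set b : CT := psm (cm g) with hb
  have hD0 : 0 ≤ D := (norm_nonneg _).trans (hD 0)
  set u : CT := cexp (a - sh h a) - 1 with hu
  set w : CT := cexp (sh h b - b) - 1 with hw
  set s : CT := -((sh h (cexp g) - cexp g) * (sh h (cexp (-a)) * cexp (-b))) with hs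
  have hcm := summable_cm g hm
  have hp' : Summable fun n => ‖cp g n‖ := hp
  have e1 : u = w + s := by
    ext t
    have hg1 : g t = a t + b t := by rw [hdec]; rfl
    have hg2 : g (t + h) = a (t + h) + b (t + h) := by rw [hdec]; rfl
    simp only [hu, hw, hs, ContinuousMap.sub_apply, ContinuousMap.add_apply,
      ContinuousMap.neg_apply, ContinuousMap.mul_apply, ContinuousMap.one_apply, cexp_apply,
      sh_apply, hg1, hg2]
    have k1 : Complex.exp (a t - a (t + h)) = Complex.exp (a t + b t) *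
        (Complex.exp (-a (t + h)) * Complex.exp (-b t)) := by
      rw [← Complex.exp_add, ← Complex.exp_add]
      congr 1
      ring
    have k2 : Complex.exp (b (t + h) - b t) = Complex.exp (a (t + h) + b (t + h)) *
        (Complex.exp (-a (t + h)) * Complex.exp (-b t)) := by
      rw [← Complex.exp_add, ← Complex.exp_add]
      congr 1
      ring
    rw [k1, k2]
    ring
  have hu0 : ∀ n : ℤ, n < 0 → ft n u = 0 := by
    intro n hn
    obtain ⟨m, rfl⟩ : ∃ m : ℕ, n = -(m : ℤ) := ⟨n.natAbs, by omega⟩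
    have hm0 : m ≠ 0 := by omega
    rw [hu, map_sub, ft_one, if_neg (by omega), sub_zero, ha,
      sh_ps (cp g) hp' h, ps_sub _ _ hp' (summable_mul_fourier (cp g) hp' h),
      ft_neg_cexp_ps _ (summable_sub' _ _ hp' (summable_mul_fourier (cp g) hp' h)), if_neg hm0]
  have hw0 : ∀ n : ℤ, 0 ≤ n → ft n w = 0 := by
    intro n hn
    obtain ⟨m, rfl⟩ : ∃ m : ℕ, n = (m : ℤ) := ⟨n.natAbs, by omega⟩
    have hsm := summable_mul_fourier (cm g) hcm (-h)
    rw [hw, map_sub, ft_one, hb, sh_psm (cm g) hcm h, psm_sub _ _ hsm hcm,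
      ft_cexp_psm _ (summable_sub' _ _ hsm hcm)]
    simp only [Nat.cast_eq_zero]
    split_ifs with h0
    · simp [cm]
    · simp
  have hea : ∀ t, ‖cexp (-a) t‖ ≤ Real.exp S := fun t =>
    norm_exp_le _ _ (by rw [ContinuousMap.neg_apply, norm_neg]; exact hS t)
  have heb : ∀ t, ‖cexp (-b) t‖ ≤ Real.exp S' := fun t =>
    norm_exp_le _ _ (by rw [ContinuousMap.neg_apply, norm_neg]; exact hS' t)
  have hsB : ∀ t, ‖s t‖ ≤ D * (Real.exp S * Real.exp S') := by
    intro t
    rw [hs, ContinuousMap.neg_apply, norm_neg, ContinuousMap.mul_apply, norm_mul,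
      ContinuousMap.mul_apply, norm_mul]
    refine mul_le_mul (hD t) ?_ (by positivity) hD0
    exact mul_le_mul (hea _) (heb _) (norm_nonneg _) (Real.exp_pos _).le
  have h1 := split_le u w s hu0 hw0 e1 _ hsB
  have h2 : ∀ t, ‖(sh h (cexp (-a)) - cexp (-a) : CT) t‖ ^ 2 ≤ Real.exp S ^ 2 * ‖u t‖ ^ 2 := by
    intro t
    have k : (sh h (cexp (-a)) - cexp (-a) : CT) t = cexp (-a) t * u t := by
      simp only [hu, ContinuousMap.sub_apply, ContinuousMap.one_apply, cexp_apply, sh_apply,
        ContinuousMap.neg_apply]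
      have : Complex.exp (-a (t + h)) = Complex.exp (-a t) * Complex.exp (a t - a (t + h)) := by
        rw [← Complex.exp_add]
        congr 1
        ring
      rw [this]
      ring
    rw [k, norm_mul, mul_pow]
    exact mul_le_mul_of_nonneg_right (pow_le_pow_left₀ (norm_nonneg _) (hea t) 2) (by positivity)
  have h3 : ∫ t, ‖(sh h (cexp (-a)) - cexp (-a) : CT) t‖ ^ 2 ∂haarAddCircle ≤
      ∫ t, Real.exp S ^ 2 * ‖u t‖ ^ 2 ∂haarAddCircle := by
    refine integral_mono ?_ ?_ h2
    · exact (by fun_prop : Continuous fun t =>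
        ‖(sh h (cexp (-a)) - cexp (-a) : CT) t‖ ^ 2).integrable_of_hasCompactSupport
        (HasCompactSupport.of_compactSpace _)
    · exact (by fun_prop : Continuous fun t =>
        Real.exp S ^ 2 * ‖u t‖ ^ 2).integrable_of_hasCompactSupport
        (HasCompactSupport.of_compactSpace _)
  rw [integral_const_mul] at h3
  refine h3.trans ?_
  refine (mul_le_mul_of_nonneg_left h1 (by positivity)).trans (le_of_eq ?_)
  have : Real.exp (2 * S + S') = Real.exp S * (Real.exp S * Real.exp S') := by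
    rw [← Real.exp_add, ← Real.exp_add]
    congr 1
    ring
  rw [this]
  ring

lemma sqrt2_mul_nonneg {q : ℝ} (hq : 0 ≤ q) : 0 ≤ Real.sqrt 2 * q := by positivity

/-- The absolutely summable solution of the Toeplitz system with symbol `exp g` and right hand
side `e₀`. -/
theorem fac (g : CT) (q K : ℝ) (hq : 0 ≤ q) (hs : Real.sqrt 2 * q < 1) (hK : 0 ≤ K)
    (hψ : ∀ j t, ‖(sh (hj j) (cexp g) - cexp g : CT) t‖ ≤ K * q ^ j)
    (hp : Summable fun n : ℕ => ‖ft (n : ℤ) g‖)
    (hm : Summable fun n : ℕ => ‖ft (-(n : ℤ)) g‖) (S S' : ℝ)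
    (hS : ∀ t, ‖ps (cp g) t‖ ≤ S) (hS' : ∀ t, ‖psm (cm g) t‖ ≤ S') :
    ∃ E : ℕ → ℂ, (Summable fun n => ‖E n‖) ∧
      ∑' n, ‖E n‖ ≤ Real.exp S + K * Real.exp (2 * S + S') / (1 - Real.sqrt 2 * q) ∧
      E 0 = Complex.exp (-(ft 0 g)) ∧
      ∀ i : ℕ, HasSum (fun j : ℕ => E j * ft ((i : ℤ) - j) (cexp g)) (if i = 0 then 1 else 0) := by
  have hp' : Summable fun n => ‖cp g n‖ := hp
  have hcm := summable_cm g hm
  set EE : CT := cexp (-ps (cp g)) with hEE
  have hnp : Summable fun n => ‖-cp g n‖ := by simpa using hp'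
  have hneg : ∀ m : ℕ, ft (-(m : ℤ)) EE = if m = 0 then Complex.exp (-cp g 0) else 0 := by
    intro m
    rw [hEE, ps_neg _ hp', ft_neg_cexp_ps _ hnp]
  have hea : ∀ t, ‖EE t‖ ≤ Real.exp S := fun t =>
    norm_exp_le _ _ (by rw [ContinuousMap.neg_apply, norm_neg]; exact hS t)
  have h1 := summable_ft 1 (Or.inl rfl) EE 0 (K * Real.exp (2 * S + S')) q (by positivity) hq hs
    (fun j _ => by
      have := modulus g hp hm S S' hS hS' (hj j) (K * q ^ j) (hψ j)
      refine this.trans (le_of_eq ?_)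
      ring)
  simp only [one_mul, pow_zero, mul_one] at h1
  obtain ⟨h2, h3⟩ := h1
  refine ⟨fun n => ft (n : ℤ) EE, h2, ?_, ?_, ?_⟩
  · rw [h2.tsum_eq_zero_add]
    refine add_le_add ?_ h3
    refine (norm_ft_le _ _).trans ?_
    exact (ContinuousMap.norm_le _ (Real.exp_pos _).le).mpr hea
  · have := hneg 0
    simpa [cp] using this
  · intro i
    have hd : EE = ps (cp EE) + psm (cm EE) := by
      refine decomp EE h2 ?_
      refine summable_of_ne_finset_zero (s := {0}) fun n hn => ?_
      rw [hneg, if_neg (by simpa using hn), norm_zero]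
    have hz : psm (cm EE) = 0 := by
      have hcz : cm EE = fun _ => 0 := by
        funext n
        unfold cm
        split_ifs with h0
        · rfl
        · rw [hneg, if_neg h0]
      rw [hcz]
      ext t
      have h5 := psm_apply (fun _ => (0 : ℂ)) (by simp) t
      simp only [zero_mul] at h5
      exact h5.unique hasSum_zero
    rw [hz, add_zero] at hd
    have h6 := hasSum_ps (cp EE) h2
    rw [← hd] at h6
    have h7 := ((ft (i : ℤ)).comp (ContinuousLinearMap.mul ℂ CT (cexp g))).hasSum h6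
    have h8 : ((ft (i : ℤ)).comp (ContinuousLinearMap.mul ℂ CT (cexp g))) EE =
        if i = 0 then 1 else 0 := by
      have h9 : cexp g * EE = cexp (psm (cm g)) := by
        ext t
        have hg : g t = ps (cp g) t + psm (cm g) t := by
          have hdec := decomp g hp hm
          have := congrArg (fun f : CT => f t) hdec
          exact this
        rw [ContinuousMap.mul_apply, hEE, cexp_apply, cexp_apply, cexp_apply, ← Complex.exp_add,
          hg, ContinuousMap.neg_apply]
        congr 1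
        ring
      have h10 : ((ft (i : ℤ)).comp (ContinuousLinearMap.mul ℂ CT (cexp g))) EE =
        ft (i : ℤ) (cexp g * EE) := rfl
      rw [h10, h9, ft_cexp_psm _ hcm]
      simp [cm]
    rw [h8] at h7
    have h11 : (fun j : ℕ => ((ft (i : ℤ)).comp (ContinuousLinearMap.mul ℂ CT (cexp g)))
        (cp EE j • (fourier (j : ℤ) : CT))) =
        fun j : ℕ => ft (j : ℤ) EE * ft ((i : ℤ) - j) (cexp g) := by
      funext j
      rw [map_smul, smul_eq_mul]
      congr 1
      have h12 : ((ft (i : ℤ)).comp (ContinuousLinearMap.mul ℂ CT (cexp g)))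
          (fourier (j : ℤ) : CT) = ft (i : ℤ) (cexp g * fourier (j : ℤ)) := rfl
      rw [h12, mul_comm, ft_fourier_mul]
    rw [h11] at h7
    exact h7

end Pool.Agent.Y283.TO
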