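import Mathlib
import Pool.Agent.Y283.TO.Fac

/-!
Sup norm of the analytic part: Dirichlet kernel.
-/

set_option autoImplicit false

noncomputable section

open MeasureTheory AddCircle Set Filter Topology Metric
open scoped ComplexConjugate

namespace Pool.Agent.Y283.TO

/-- One-sided Dirichlet kernel. -/
def DK (N : ℕ) : CT := ∑ n ∈ Finset.range N, (fourier (n : ℤ) : CT)

lemma DK_apply (N : ℕ) (t : UnitAddCircle) :
    DK N t = ∑ n ∈ Finset.range N, (fourier (n : ℤ) : CT) t := by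
  rw [DK, ContinuousMap.sum_apply]

lemma norm_DK_le (N : ℕ) (t : UnitAddCircle) : ‖DK N t‖ ≤ N := by
  rw [DK_apply]
  refine (norm_sum_le _ _).trans ?_
  rw [Finset.sum_congr rfl (fun n _ => norm_fourier_apply _ _), Finset.sum_const,
    Finset.card_range, nsmul_eq_mul, mul_one]

lemma fourier_one_sub_ge (x : ℝ) (hx : |x| ≤ 1 / 2) :
    4 * |x| ≤ ‖(fourier 1 : CT) (x : UnitAddCircle) - 1‖ := by
  rw [fourier_coe_apply]
  have e : Complex.exp (2 * Real.pi * Complex.I * (1 : ℤ) * x / (1 : ℝ))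
      = Complex.exp (Complex.I * ((2 * Real.pi * x : ℝ) : ℂ)) := by
    congr 1
    push_cast
    ring
  rw [e, Complex.norm_exp_I_mul_ofReal_sub_one]
  have h1 : 2 * Real.pi * x / 2 = Real.pi * x := by ring
  rw [h1, norm_mul, Real.norm_eq_abs, Real.norm_eq_abs, abs_of_pos (by norm_num : (0:ℝ) < 2)]
  have h2 : 2 / Real.pi * |Real.pi * x| ≤ |Real.sin (Real.pi * x)| := by
    apply Real.mul_abs_le_abs_sin
    rw [abs_mul, abs_of_pos Real.pi_pos]
    nlinarith [Real.pi_pos]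
  rw [abs_mul, abs_of_pos Real.pi_pos] at h2
  have h3 : 2 / Real.pi * (Real.pi * |x|) = 2 * |x| := by
    field_simp
  rw [h3] at h2
  linarith

lemma norm_DK_le' (N : ℕ) (x : ℝ) (hx : |x| ≤ 1 / 2) (hx0 : x ≠ 0) :
    ‖DK N (x : UnitAddCircle)‖ ≤ 1 / 2 * |x|⁻¹ := by
  have h1 := fourier_one_sub_ge x hx
  have hx1 : 0 < |x| := abs_pos.mpr hx0
  set w := (fourier 1 : CT) (x : UnitAddCircle) with hw
  have hw1 : w ≠ 1 := by
    intro h
    rw [h, sub_self, norm_zero] at h1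
    linarith
  have h2 : DK N (x : UnitAddCircle) = (w ^ N - 1) / (w - 1) := by
    rw [DK_apply, ← geom_sum_eq hw1]
    refine Finset.sum_congr rfl fun n _ => ?_
    rw [fourier_nat_apply]
  rw [h2, norm_div]
  have h3 : ‖w ^ N - 1‖ ≤ 2 := by
    refine (norm_sub_le _ _).trans ?_
    rw [norm_pow, norm_fourier_apply, one_pow, norm_one]
    norm_num
  rw [div_le_iff₀ (by linarith)]
  have h4 : 1 / 2 * |x|⁻¹ * (4 * |x|) = 2 := by
    field_simp
    norm_num
  calc ‖w ^ N - 1‖ ≤ 2 := h3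
    _ = 1 / 2 * |x|⁻¹ * (4 * |x|) := h4.symm
    _ ≤ 1 / 2 * |x|⁻¹ * ‖w - 1‖ := mul_le_mul_of_nonneg_left h1 (by positivity)

lemma integral_norm_DK (N : ℕ) (hN : 1 ≤ N) :
    ∫ t, ‖DK N t‖ ∂haarAddCircle ≤ 1 + Real.log N := by
  rw [integral_haarAddCircle, inv_one, one_smul]
  have h2 := AddCircle.intervalIntegral_preimage (1 : ℝ) (-(1 / 2))
    (fun t : AddCircle (1 : ℝ) => ‖DK N t‖)
  rw [← h2]
  have hN' : (1 : ℝ) ≤ N := by exact_mod_cast hN
  set δ : ℝ := 1 / (2 * N) with hδ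
  have hδ0 : 0 < δ := by positivity
  have hδ1 : δ ≤ 1 / 2 := by
    rw [hδ]
    apply one_div_le_one_div_of_le (by norm_num)
    linarith
  have hc : Continuous fun x : ℝ => ‖DK N (x : UnitAddCircle)‖ :=
    ((DK N).continuous.comp (AddCircle.continuous_mk' 1)).norm
  have hii : ∀ a b : ℝ, IntervalIntegrable (fun x : ℝ => ‖DK N (x : UnitAddCircle)‖) volume a b :=
    fun a b => hc.intervalIntegrable a b
  have e1 : (-(1 / 2) + 1 : ℝ) = 1 / 2 := by norm_num
  rw [e1]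
  have hsplit : ∫ x in (-(1 / 2) : ℝ)..(1 / 2), ‖DK N (x : UnitAddCircle)‖ =
      (∫ x in (-(1 / 2) : ℝ)..(-δ), ‖DK N (x : UnitAddCircle)‖) +
      (∫ x in (-δ)..δ, ‖DK N (x : UnitAddCircle)‖) +
      ∫ x in δ..(1 / 2), ‖DK N (x : UnitAddCircle)‖ := by
    rw [intervalIntegral.integral_add_adjacent_intervals (hii _ _) (hii _ _),
      intervalIntegral.integral_add_adjacent_intervals (hii _ _) (hii _ _)]
  rw [hsplit]
  have hlog : ∫ x in δ..(1 / 2), (1 / 2 * x⁻¹ : ℝ) = 1 / 2 * Real.log N := by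
    rw [intervalIntegral.integral_const_mul, integral_inv_of_pos hδ0 (by norm_num)]
    congr 2
    rw [hδ]
    field_simp
  have hI : ∫ x in δ..(1 / 2), ‖DK N (x : UnitAddCircle)‖ ≤ 1 / 2 * Real.log N := by
    rw [← hlog]
    refine intervalIntegral.integral_mono_on hδ1 (hii _ _) ?_ fun x hx => ?_
    · refine (ContinuousOn.intervalIntegrable ?_)
      rw [uIcc_of_le hδ1]
      exact (continuousOn_const.mul (continuousOn_id.inv₀ fun x hx => (hδ0.trans_le hx.1).ne'))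
    · have hx0 : 0 < x := hδ0.trans_le hx.1
      have := norm_DK_le' N x (by rw [abs_of_pos hx0]; exact hx.2) hx0.ne'
      rwa [abs_of_pos hx0] at this
  have hI2 : ∫ x in (-(1 / 2) : ℝ)..(-δ), ‖DK N (x : UnitAddCircle)‖ ≤ 1 / 2 * Real.log N := by
    have h3 := intervalIntegral.integral_comp_neg (a := δ) (b := 1 / 2)
      (fun x : ℝ => ‖DK N (x : UnitAddCircle)‖)
    rw [← h3, ← hlog]
    refine intervalIntegral.integral_mono_on hδ1 ?_ ?_ fun x hx => ?_
    · exact (hc.comp continuous_neg).intervalIntegrable _ _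
    · refine (ContinuousOn.intervalIntegrable ?_)
      rw [uIcc_of_le hδ1]
      exact (continuousOn_const.mul (continuousOn_id.inv₀ fun x hx => (hδ0.trans_le hx.1).ne'))
    · have hx0 : 0 < x := hδ0.trans_le hx.1
      have := norm_DK_le' N (-x) (by rw [abs_neg, abs_of_pos hx0]; exact hx.2) (neg_ne_zero.mpr hx0.ne')
      rwa [abs_neg, abs_of_pos hx0] at this
  have hI3 : ∫ x in (-δ)..δ, ‖DK N (x : UnitAddCircle)‖ ≤ 1 := by
    have h4 : ∫ x in (-δ)..δ, ‖DK N (x : UnitAddCircle)‖ ≤ ∫ _x in (-δ)..δ, (N : ℝ) :=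
      intervalIntegral.integral_mono_on (by linarith) (hii _ _) (by simp)
        fun x _ => norm_DK_le N _
    refine h4.trans (le_of_eq ?_)
    rw [intervalIntegral.integral_const, smul_eq_mul, hδ]
    field_simp
    norm_num
  linarith

/-- Sup norm of the partial sums over nonnegative frequencies. -/
lemma norm_partial_le (g : CT) (M : ℝ) (hM : ∀ t, ‖g t‖ ≤ M) (N : ℕ) (hN : 1 ≤ N)
    (t : UnitAddCircle) :
    ‖∑ n ∈ Finset.range N, ft (n : ℤ) g * (fourier (n : ℤ) : CT) t‖ ≤ M * (1 + Real.log N) := by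
  have hM0 : 0 ≤ M := (norm_nonneg _).trans (hM 0)
  have h1 : ∑ n ∈ Finset.range N, ft (n : ℤ) g * (fourier (n : ℤ) : CT) t =
      ∫ s, g s * DK N (t - s) ∂haarAddCircle := by
    have h2 : ∀ s, g s * DK N (t - s) = ∑ n ∈ Finset.range N,
        (fourier (-(n : ℤ)) * g : CT) s * (fourier (n : ℤ) : CT) t := by
      intro s
      rw [DK_apply, Finset.mul_sum]
      refine Finset.sum_congr rfl fun n _ => ?_
      rw [sub_eq_add_neg, fourier_add_apply, fourier_neg_arg, ContinuousMap.mul_apply]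
      ring
    simp only [h2]
    rw [integral_finsetSum _ (fun n _ => (integrable_CT _).mul_const _)]
    refine Finset.sum_congr rfl fun n _ => ?_
    rw [integral_mul_const]
    rfl
  rw [h1]
  have h3 : ∫ s, ‖DK N (t - s)‖ ∂haarAddCircle = ∫ s, ‖DK N s‖ ∂haarAddCircle :=
    integral_sub_left_eq_self (μ := haarAddCircle (T := (1 : ℝ))) (fun s => ‖DK N s‖) t
  have hcc : Continuous fun s => M * ‖DK N (t - s)‖ := by fun_prop
  calc ‖∫ s, g s * DK N (t - s) ∂haarAddCircle‖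
      ≤ ∫ s, M * ‖DK N (t - s)‖ ∂haarAddCircle := by
        refine norm_integral_le_of_norm_le ?_ (Eventually.of_forall fun s => ?_)
        · exact hcc.integrable_of_hasCompactSupport (HasCompactSupport.of_compactSpace _)
        · rw [norm_mul]
          exact mul_le_mul_of_nonneg_right (hM s) (norm_nonneg _)
    _ = M * ∫ s, ‖DK N s‖ ∂haarAddCircle := by rw [integral_const_mul, h3]
    _ ≤ M * (1 + Real.log N) := mul_le_mul_of_nonneg_left (integral_norm_DK N hN) hM0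

/-- Sup norm of the analytic part. -/
lemma norm_ps_le (g : CT) (M : ℝ) (hM : ∀ t, ‖g t‖ ≤ M) (j₀ : ℕ) (A q : ℝ) (hA : 0 ≤ A)
    (hq : 0 ≤ q) (hs : Real.sqrt 2 * q < 1)
    (h : ∀ j, j₀ ≤ j → ∀ t, ‖(sh (hj j) g - g : CT) t‖ ≤ A * q ^ j) :
    (Summable fun n : ℕ => ‖ft (n : ℤ) g‖) ∧ (Summable fun n : ℕ => ‖ft (-(n : ℤ)) g‖) ∧
    ∀ t, ‖ps (cp g) t‖ ≤ M * (1 + j₀) + A * (Real.sqrt 2 * q) ^ j₀ / (1 - Real.sqrt 2 * q) := by
  have hM0 : 0 ≤ M := (norm_nonneg _).trans (hM 0)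
  have h' : ∀ j, j₀ ≤ j → ∫ t, ‖(sh (hj j) g - g : CT) t‖ ^ 2 ∂haarAddCircle ≤ (A * q ^ j) ^ 2 := by
    intro j hj0
    have h2 : ∀ t, ‖‖(sh (hj j) g - g : CT) t‖ ^ 2‖ ≤ (A * q ^ j) ^ 2 := fun t => by
      rw [norm_pow, norm_norm]
      exact pow_le_pow_left₀ (norm_nonneg _) (h j hj0 t) 2
    have h3 := norm_integral_le_of_norm_le_const (μ := haarAddCircle (T := (1 : ℝ)))
      (f := fun t => ‖(sh (hj j) g - g : CT) t‖ ^ 2) (Eventually.of_forall h2)
    rw [probReal_univ, mul_one] at h3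
    exact (le_abs_self _).trans h3
  obtain ⟨h1, h2⟩ := summable_ft 1 (Or.inl rfl) g j₀ A q hA hq hs h'
  obtain ⟨h3, -⟩ := summable_ft (-1) (Or.inr rfl) g j₀ A q hA hq hs h'
  simp only [one_mul] at h1 h2
  simp only [neg_one_mul] at h3
  refine ⟨h1, h3, fun t => ?_⟩
  have h4 := ps_apply (cp g) h1 t
  have h5 : ps (cp g) t = ∑ n ∈ Finset.range (2 ^ j₀), ft (n : ℤ) g * (fourier (n : ℤ) : CT) t +
      ∑' n : ℕ, ft ((n + 2 ^ j₀ : ℕ) : ℤ) g * (fourier ((n + 2 ^ j₀ : ℕ) : ℤ) : CT) t := by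
    rw [← h4.tsum_eq]
    exact (h4.summable.sum_add_tsum_nat_add (2 ^ j₀)).symm
  rw [h5]
  refine (norm_add_le _ _).trans (add_le_add ?_ ?_)
  · refine (norm_partial_le g M hM (2 ^ j₀) Nat.one_le_two_pow t).trans ?_
    refine mul_le_mul_of_nonneg_left ?_ hM0
    have : Real.log ((2 ^ j₀ : ℕ) : ℝ) ≤ j₀ := by
      rw [Nat.cast_pow, Nat.cast_ofNat, Real.log_pow]
      have h6 : Real.log 2 ≤ 1 := by
        have := Real.log_two_lt_d9
        linarith
      nlinarith [(Nat.cast_nonneg j₀ : (0 : ℝ) ≤ j₀)]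
    linarith
  · have h7 : Summable fun n : ℕ => ‖ft ((n + 2 ^ j₀ : ℕ) : ℤ) g‖ :=
      (summable_nat_add_iff (f := fun n : ℕ => ‖ft (n : ℤ) g‖) (2 ^ j₀)).mpr h1
    refine (tsum_of_norm_bounded h7.hasSum fun n => ?_).trans h2
    rw [norm_mul, norm_fourier_apply, mul_one]

end Pool.Agent.Y283.TO
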