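import Mathlib

/-!
Continuous logarithms along a Hölder curve: dyadic count of the winding.
-/

set_option autoImplicit false

noncomputable section

open MeasureTheory Set Filter Topology Metric

namespace Pool.Agent.Y283.TO

/-- An integer valued continuous function on a preconnected set is constant. -/
lemma int_const {S : Set ℝ} (hS : IsPreconnected S) (r : ℝ → ℝ) (hr : ContinuousOn r S)
    (hi : ∀ t ∈ S, ∃ n : ℤ, r t = n) {x y : ℝ} (hx : x ∈ S) (hy : y ∈ S) : r x = r y := by
  classical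
  let n : ℝ → ℤ := fun t => if h : t ∈ S then (hi t h).choose else 0
  have hn : ∀ t ∈ S, r t = n t := by
    intro t ht
    simp only [n, dif_pos ht]
    exact (hi t ht).choose_spec
  have hc : ContinuousOn n S := by
    rw [Int.isClosedEmbedding_coe_real.isInducing.continuousOn_iff]
    exact hr.congr fun t ht => (hn t ht).symm
  have := hS.constant hc hx hy
  rw [hn x hx, hn y hy, this]

lemma exp_eq_one_im {d : ℂ} (h : Complex.exp d = 1) : d.re = 0 ∧ ∃ n : ℤ, d.im / (2 * Real.pi) = n := by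
  obtain ⟨n, hn⟩ := Complex.exp_eq_one_iff.mp h
  refine ⟨?_, n, ?_⟩
  · rw [hn]
    simp
  · rw [hn]
    have : ((n : ℂ) * (2 * Real.pi * Complex.I)).im = n * (2 * Real.pi) := by simp
    rw [this]
    field_simp

/-- Two continuous logarithms of the same function differ by a constant. -/
lemma log_unique {S : Set ℝ} (hS : IsPreconnected S) (f g : ℝ → ℂ) (hf : ContinuousOn f S)
    (hg : ContinuousOn g S) (h : ∀ t ∈ S, Complex.exp (f t) = Complex.exp (g t)) {x y : ℝ}
    (hx : x ∈ S) (hy : y ∈ S) : f x - g x = f y - g y := by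
  have h1 : ∀ t ∈ S, Complex.exp (f t - g t) = 1 := fun t ht => by
    rw [Complex.exp_sub, h t ht, div_self (Complex.exp_ne_zero _)]
  have h2 := int_const hS (fun t => (f t - g t).im / (2 * Real.pi))
    ((Complex.continuous_im.comp_continuousOn (hf.sub hg)).div_const _)
    (fun t ht => (exp_eq_one_im (h1 t ht)).2) hx hy
  apply Complex.ext
  · rw [(exp_eq_one_im (h1 x hx)).1, (exp_eq_one_im (h1 y hy)).1]
  · have hpi : (2 * Real.pi) ≠ 0 := by positivity
    exact (div_left_inj' hpi).mp h2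

lemma half_slit {a b : ℂ} (ha : a ≠ 0) (h : ‖b - a‖ ≤ ‖a‖ / 2) : ‖b / a - 1‖ ≤ 1 / 2 := by
  have : b / a - 1 = (b - a) / a := by field_simp
  rw [this, norm_div, div_le_iff₀ (norm_pos_iff.mpr ha)]
  linarith

lemma re_half {x : ℂ} (h : ‖x - 1‖ ≤ 1 / 2) : 1 / 2 ≤ x.re := by
  have := (Complex.abs_re_le_norm (x - 1)).trans h
  rw [Complex.sub_re, Complex.one_re, abs_le] at this
  linarith [this.1]

/-- Increment of a continuous logarithm over a short interval. -/
lemma log_inc (w lam : ℝ → ℂ) (hl : Continuous lam) (he : ∀ t, Complex.exp (lam t) = w t)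
    {a b : ℝ} (hab : a ≤ b) (h : ∀ t ∈ Icc a b, ‖w t - w a‖ ≤ ‖w a‖ / 2) :
    lam b - lam a = Complex.log (w b / w a) := by
  have hw : Continuous w := by
    have : w = fun t => Complex.exp (lam t) := by funext t; rw [he]
    rw [this]
    exact Complex.continuous_exp.comp hl
  have hw0 : ∀ t, w t ≠ 0 := fun t => by rw [← he]; exact Complex.exp_ne_zero _
  have hslit : ∀ t ∈ Icc a b, w t / w a ∈ Complex.slitPlane := fun t ht => by
    left
    have := re_half (half_slit (hw0 a) (h t ht))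
    linarith
  have h1 := log_unique (S := Icc a b) isPreconnected_Icc lam
    (fun t => lam a + Complex.log (w t / w a)) hl.continuousOn
    (continuousOn_const.add (fun t ht => ((hw.div_const _).continuousAt.clog
      (hslit t ht)).continuousWithinAt))
    (fun t ht => by
      rw [Complex.exp_add, Complex.exp_log (div_ne_zero (hw0 t) (hw0 a)), he, he]
      field_simp [hw0 a]) (right_mem_Icc.mpr hab) (left_mem_Icc.mpr hab)
  simp only [div_self (hw0 a), Complex.log_one, add_zero, sub_self] at h1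
  linear_combination h1

lemma norm_log_le {x : ℂ} (h : ‖x - 1‖ ≤ 1 / 2) : ‖Complex.log x‖ ≤ 2 * ‖x - 1‖ := by
  have h1 := Complex.norm_log_one_add_half_le_self h
  have e : 1 + (x - 1) = x := by ring
  rw [e] at h1
  linarith [norm_nonneg (x - 1)]

/-- Additivity of the argument of quotients of nearby points. -/
lemma arg_add_good {w0 w1 w2 : ℂ} (h0 : w0 ≠ 0) (h1 : ‖w1 - w0‖ ≤ ‖w0‖ / 2)
    (h2 : ‖w2 - w0‖ ≤ ‖w0‖ / 2) :
    (w1 / w0).arg + (w2 / w1).arg = (w2 / w0).arg := by
  have k1 := re_half (half_slit h0 h1)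
  have k2 := re_half (half_slit h0 h2)
  have a1 : |(w1 / w0).arg| < Real.pi / 2 := by
    rw [Complex.abs_arg_lt_pi_div_two_iff]
    left
    linarith
  have a2 : |(w2 / w0).arg| < Real.pi / 2 := by
    rw [Complex.abs_arg_lt_pi_div_two_iff]
    left
    linarith
  have n1 : w1 / w0 ≠ 0 := fun h => by rw [h, Complex.zero_re] at k1; linarith
  have n2 : w2 / w0 ≠ 0 := fun h => by rw [h, Complex.zero_re] at k2; linarith
  have w1ne : w1 ≠ 0 := fun h => n1 (by rw [h, zero_div])
  have e : w2 / w1 = (w2 / w0) * (w1 / w0)⁻¹ := by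
    field_simp
  rw [abs_lt] at a1 a2
  have a3 : ((w1 / w0)⁻¹).arg = -(w1 / w0).arg := by
    rw [Complex.arg_inv, if_neg]
    linarith [a1.2, Real.pi_pos]
  have h3 : ((w2 / w0) * (w1 / w0)⁻¹).arg = (w2 / w0).arg + ((w1 / w0)⁻¹).arg := by
    rw [Complex.arg_mul_eq_add_arg_iff n2 (inv_ne_zero n1), a3]
    constructor <;> linarith [a1.1, a1.2, a2.1, a2.2]
  rw [e, h3, a3]
  ring

lemma arg_add_bad (x y z : ℂ) : |x.arg + y.arg - z.arg| ≤ 3 * Real.pi := by
  have hx := Complex.abs_arg_le_pi x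
  have hy := Complex.abs_arg_le_pi y
  have hz := Complex.abs_arg_le_pi z
  rw [abs_le] at *
  constructor <;> linarith [hx.1, hx.2, hy.1, hy.2, hz.1, hz.2]

/-- the dyadic point -/
def dp (n : ℕ) (k : ℕ) : ℝ := k / 2 ^ n

lemma dp_succ_even (n k : ℕ) : dp (n + 1) (2 * k) = dp n k := by
  unfold dp
  push_cast
  rw [pow_succ]
  field_simp

lemma dp_dist (n k : ℕ) : dp n (k + 1) = dp n k + (1 / 2) ^ n := by
  unfold dp
  push_cast
  rw [one_div, inv_pow]
  field_simp

/-- sum of the principal arguments of the increments -/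
def SA (w : ℝ → ℂ) (n k : ℕ) : ℝ :=
  ∑ j ∈ Finset.range k, (w (dp n (j + 1)) / w (dp n j)).arg

/-- number of dyadic points at which the curve comes close to `0` -/
def bad (w : ℝ → ℂ) (r : ℝ) (n : ℕ) : ℕ :=
  ((Finset.range (2 ^ n)).filter fun k => ‖w (dp n k)‖ ≤ 2 * r).card

lemma SA_step (w : ℝ → ℂ) (r : ℝ) (n : ℕ) (hr : ∀ s t : ℝ, |s - t| ≤ (1 / 2) ^ n → ‖w s - w t‖ ≤ r)
    (k : ℕ) (hk : k ≤ 2 ^ n) :
    |SA w (n + 1) (2 * k) - SA w n k| ≤ 3 * Real.pi * bad w r n := by
  have hr0 : 0 ≤ r := (norm_nonneg _).trans (hr 0 0 (by simp))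
  have h1 : ∀ k : ℕ, SA w (n + 1) (2 * k) - SA w n k = ∑ j ∈ Finset.range k,
      ((w (dp (n + 1) (2 * j + 1)) / w (dp n j)).arg +
        (w (dp n (j + 1)) / w (dp (n + 1) (2 * j + 1))).arg -
        (w (dp n (j + 1)) / w (dp n j)).arg) := by
    intro k
    induction k with
    | zero => simp [SA]
    | succ k ih =>
      rw [Finset.sum_range_succ, ← ih]
      have e1 : 2 * (k + 1) = 2 * k + 1 + 1 := by ring
      have e2 : dp (n + 1) (2 * k + 1 + 1) = dp n (k + 1) := by
        rw [← dp_succ_even n (k + 1), e1]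
      rw [SA, SA, SA, SA, e1, Finset.sum_range_succ, Finset.sum_range_succ, Finset.sum_range_succ,
        e2, dp_succ_even]
      ring
  rw [h1 k]
  refine (Finset.abs_sum_le_sum_abs _ _).trans ?_
  have h2 : ∀ j ∈ Finset.range k, |(w (dp (n + 1) (2 * j + 1)) / w (dp n j)).arg +
        (w (dp n (j + 1)) / w (dp (n + 1) (2 * j + 1))).arg -
        (w (dp n (j + 1)) / w (dp n j)).arg| ≤
      if ‖w (dp n j)‖ ≤ 2 * r then 3 * Real.pi else 0 := by
    intro j _
    split_ifs with hb
    · exact arg_add_bad _ _ _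
    · push Not at hb
      have hw0 : w (dp n j) ≠ 0 := by
        intro h
        rw [h, norm_zero] at hb
        linarith
      have d1 : |dp (n + 1) (2 * j + 1) - dp n j| ≤ (1 / 2) ^ n := by
        rw [dp_dist, dp_succ_even, add_sub_cancel_left, abs_of_nonneg (by positivity)]
        exact pow_le_pow_of_le_one (by norm_num) (by norm_num) (Nat.le_succ n)
      have d2 : |dp n (j + 1) - dp n j| ≤ (1 / 2) ^ n := by
        rw [dp_dist, add_sub_cancel_left, abs_of_nonneg (by positivity)]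
      have g1 := hr _ _ d1
      have g2 := hr _ _ d2
      rw [arg_add_good hw0 (by linarith) (by linarith), sub_self, abs_zero]
  refine (Finset.sum_le_sum h2).trans ?_
  rw [← Finset.sum_filter, Finset.sum_const, nsmul_eq_mul, mul_comm]
  refine mul_le_mul_of_nonneg_left ?_ (by positivity)
  have : ((Finset.range k).filter fun k => ‖w (dp n k)‖ ≤ 2 * r).card ≤ bad w r n :=
    Finset.card_le_card (Finset.filter_subset_filter _ (Finset.range_subset_range.mpr hk))
  exact_mod_cast this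

lemma SA_bound (w : ℝ → ℂ) (r : ℕ → ℝ) (hw1 : w 1 = w 0) (hw0 : w 0 ≠ 0)
    (hr : ∀ n, ∀ s t : ℝ, |s - t| ≤ (1 / 2) ^ n → ‖w s - w t‖ ≤ r n) (n : ℕ) :
    ∀ k, k ≤ 2 ^ n → |SA w n k| ≤ 3 * Real.pi * ∑ m ∈ Finset.range n, (bad w (r m) m : ℝ) +
      Real.pi * n := by
  induction n with
  | zero =>
    intro k hk
    rw [pow_zero] at hk
    interval_cases k
    · simp [SA]
    · simp [SA, dp, hw1, div_self hw0]
  | succ n ih =>
    intro k hk
    rw [Finset.sum_range_succ, mul_add]
    push_cast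
    obtain ⟨m, hm | hm⟩ := Nat.even_or_odd' k
    · have hm2 : m ≤ 2 ^ n := by rw [pow_succ] at hk; omega
      have h1 := SA_step w (r n) n (hr n) m hm2
      have h2 := ih m hm2
      rw [hm]
      have h3 : |SA w (n + 1) (2 * m)| ≤ |SA w (n + 1) (2 * m) - SA w n m| + |SA w n m| := by
        have := abs_add_le (SA w (n + 1) (2 * m) - SA w n m) (SA w n m)
        rwa [sub_add_cancel] at this
      nlinarith [Real.pi_pos]
    · have hm2 : m ≤ 2 ^ n := by rw [pow_succ] at hk; omega
      have h1 := SA_step w (r n) n (hr n) m hm2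
      have h2 := ih m hm2
      rw [hm]
      have h3 : |SA w (n + 1) (2 * m)| ≤ |SA w (n + 1) (2 * m) - SA w n m| + |SA w n m| := by
        have := abs_add_le (SA w (n + 1) (2 * m) - SA w n m) (SA w n m)
        rwa [sub_add_cancel] at this
      have h4 : |SA w (n + 1) (2 * m + 1)| ≤ |SA w (n + 1) (2 * m)| + Real.pi := by
        have : SA w (n + 1) (2 * m + 1) = SA w (n + 1) (2 * m) +
          (w (dp (n + 1) (2 * m + 1)) / w (dp (n + 1) (2 * m))).arg := by
          rw [SA, Finset.sum_range_succ]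
          rfl
        rw [this]
        exact (abs_add_le _ _).trans (add_le_add le_rfl (Complex.abs_arg_le_pi _))
      nlinarith [Real.pi_pos]

/-- the level `n` is clean -/
def Clean (w : ℝ → ℂ) (r : ℝ) (n : ℕ) : Prop := ∀ k < 2 ^ n, 2 * r < ‖w (dp n k)‖

lemma clean_iff (w : ℝ → ℂ) (r : ℝ) (n : ℕ) : Clean w r n ↔ bad w r n = 0 := by
  unfold Clean bad
  rw [Finset.card_eq_zero, Finset.filter_eq_empty_iff]
  simp only [Finset.mem_range, not_le]

lemma floor_dp (n : ℕ) (t : ℝ) (h0 : 0 ≤ t) :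
    dp n ⌊t * 2 ^ n⌋₊ ≤ t ∧ t ≤ dp n ⌊t * 2 ^ n⌋₊ + (1 / 2) ^ n := by
  have h1 : (0 : ℝ) < 2 ^ n := by positivity
  have h2 := Nat.floor_le (mul_nonneg h0 h1.le)
  have h3 := Nat.lt_floor_add_one (t * 2 ^ n)
  constructor
  · unfold dp
    rw [div_le_iff₀ h1]
    exact h2
  · rw [← dp_dist]
    unfold dp
    rw [le_div_iff₀ h1]
    push_cast
    exact h3.le

lemma clean_lower (w : ℝ → ℂ) (r : ℝ) (n : ℕ) (hp : Function.Periodic w 1)
    (hr : ∀ s t : ℝ, |s - t| ≤ (1 / 2) ^ n → ‖w s - w t‖ ≤ r) (hc : Clean w r n) (t : ℝ) :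
    r < ‖w t‖ := by
  have e : w t = w (Int.fract t) := by
    have := hp.sub_zsmul_eq ⌊t⌋ (x := t)
    rw [zsmul_eq_mul, mul_one] at this
    exact this.symm
  rw [e]
  set u := Int.fract t with hu
  have hu0 : 0 ≤ u := Int.fract_nonneg t
  have hu1 : u < 1 := Int.fract_lt_one t
  obtain ⟨h1, h2⟩ := floor_dp n u hu0
  set k := ⌊u * 2 ^ n⌋₊ with hk
  have hk2 : k < 2 ^ n := by
    rw [hk, Nat.floor_lt (by positivity)]
    push_cast
    have : (0 : ℝ) < 2 ^ n := by positivity
    nlinarith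
  have h3 := hc k hk2
  have h4 := hr (dp n k) u (by rw [abs_le]; constructor <;> linarith)
  have h5 : ‖w (dp n k)‖ ≤ ‖w (dp n k) - w u‖ + ‖w u‖ := by
    have := norm_add_le (w (dp n k) - w u) (w u)
    rwa [sub_add_cancel] at this
  linarith

section lam

variable (w lam : ℝ → ℂ) (hl : Continuous lam) (he : ∀ t, Complex.exp (lam t) = w t) (L q : ℝ)
  (hL : 0 < L) (hq : 0 < q) (hq2 : 2 * q ^ 2 < 1) (hp : Function.Periodic w 1)
  (hr : ∀ n : ℕ, ∀ s t : ℝ, |s - t| ≤ (1 / 2) ^ n → ‖w s - w t‖ ≤ L * q ^ n) (n : ℕ)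
  (hc : Clean w (L * q ^ n) n)

include hL hq hq2 in
lemma q_lt_one : q < 1 := by nlinarith

include hl he hL hq hq2 hp hr hc in
lemma lam_mod_aux (j : ℕ) (hj : n + 2 ≤ j) (s t : ℝ) (hst : s ≤ t) (h : t - s ≤ (1 / 2) ^ j) :
    ‖lam t - lam s‖ ≤ 2 * (q ^ j / q ^ n) := by
  have hq1 : q < 1 := q_lt_one L q hL hq hq2
  have hlow := clean_lower w (L * q ^ n) n hp (hr n) hc s
  have hqn : 0 < q ^ n := by positivity
  have hjn : q ^ j ≤ q ^ n / 2 := by
    calc q ^ j ≤ q ^ (n + 2) := pow_le_pow_of_le_one hq.le hq1.le hj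
      _ = q ^ n * q ^ 2 := pow_add _ _ _
      _ ≤ q ^ n / 2 := by nlinarith
  have hw0 : w s ≠ 0 := by rw [← he]; exact Complex.exp_ne_zero _
  have hLq : 0 < L * q ^ n := by positivity
  have h1 : ∀ u ∈ Icc s t, ‖w u - w s‖ ≤ ‖w s‖ / 2 := by
    intro u hu
    have h2 := hr j u s (by
      rw [abs_of_nonneg (by linarith [hu.1])]
      linarith [hu.2])
    have h3 : L * q ^ j ≤ L * (q ^ n / 2) := mul_le_mul_of_nonneg_left hjn hL.le
    linarith
  rw [log_inc w lam hl he hst h1]
  have h4 := half_slit hw0 (h1 t (right_mem_Icc.mpr hst))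
  refine (norm_log_le h4).trans ?_
  refine mul_le_mul_of_nonneg_left ?_ (by norm_num)
  have h5 : w t / w s - 1 = (w t - w s) / w s := by field_simp
  rw [h5, norm_div]
  have h6 := hr j t s (by rw [abs_of_nonneg (by linarith)]; exact h)
  calc ‖w t - w s‖ / ‖w s‖ ≤ (L * q ^ j) / (L * q ^ n) := by
        apply div_le_div₀ (by positivity) h6 hLq hlow.le
    _ = q ^ j / q ^ n := by field_simp

include hl he hL hq hq2 hp hr hc in
lemma lam_mod (j : ℕ) (hj : n + 2 ≤ j) (s t : ℝ) (h : |t - s| ≤ (1 / 2) ^ j) :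
    ‖lam t - lam s‖ ≤ 2 * (q ^ j / q ^ n) := by
  rcases le_total s t with hst | hst
  · exact lam_mod_aux w lam hl he L q hL hq hq2 hp hr n hc j hj s t hst
      (by rwa [abs_of_nonneg (by linarith)] at h)
  · rw [norm_sub_rev]
    exact lam_mod_aux w lam hl he L q hL hq hq2 hp hr n hc j hj t s hst
      (by rw [abs_of_nonpos (by linarith)] at h; linarith)

include hl he hL hq hp hr hc in
lemma lam_dp (k : ℕ) : (lam (dp n k) - lam 0).im = SA w n k := by
  have hLq : 0 < L * q ^ n := by positivity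
  induction k with
  | zero => simp [dp, SA]
  | succ k ih =>
    have hper : ∀ k : ℕ, 2 * (L * q ^ n) < ‖w (dp n k)‖ := by
      intro k
      have h2 : (0 : ℝ) < 2 ^ n := by positivity
      have e1 : dp n k = dp n (k % 2 ^ n) + ((k / 2 ^ n : ℕ) : ℝ) := by
        unfold dp
        have := Nat.mod_add_div k (2 ^ n)
        have h3 : (k : ℝ) = (k % 2 ^ n : ℕ) + 2 ^ n * ((k / 2 ^ n : ℕ) : ℝ) := by
          exact_mod_cast this.symm
        rw [h3]
        have h5 : (((k % 2 ^ n : ℕ) : ℝ) + 2 ^ n * ((k / 2 ^ n : ℕ) : ℝ)) / 2 ^ n =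
          ((k % 2 ^ n : ℕ) : ℝ) / 2 ^ n + ((k / 2 ^ n : ℕ) : ℝ) := by
          field_simp
        rw [h5]
      have e2 : w (dp n k) = w (dp n (k % 2 ^ n)) := by
        rw [e1]
        have := hp.nat_mul (k / 2 ^ n) (dp n (k % 2 ^ n))
        rwa [mul_one] at this
      rw [e2]
      exact hc _ (Nat.mod_lt _ (by positivity))
    have h1 : lam (dp n (k + 1)) - lam (dp n k) = Complex.log (w (dp n (k + 1)) / w (dp n k)) := by
      apply log_inc w lam hl he
      · rw [dp_dist]
        have : (0 : ℝ) < (1 / 2) ^ n := by positivity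
        linarith
      · intro t ht
        have h2 := hr n t (dp n k) (by
          rw [abs_of_nonneg (by linarith [ht.1])]
          have := ht.2
          rw [dp_dist] at this
          linarith)
        have := hper k
        linarith
    have e : lam (dp n (k + 1)) - lam 0 = (lam (dp n (k + 1)) - lam (dp n k)) +
      (lam (dp n k) - lam 0) := by ring
    rw [e, Complex.add_im, ih, h1, Complex.log_im, SA, SA, Finset.sum_range_succ]
    ring

include hl he hL hq hp hr hc in
/-- Bound of the continuous argument. -/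
lemma lam_im_bound (t : ℝ) (ht : t ∈ Icc (0 : ℝ) 1) :
    |(lam t - lam 0).im| ≤ 3 * Real.pi * ∑ m ∈ Finset.range n, (bad w (L * q ^ m) m : ℝ) +
      Real.pi * n + 1 := by
  have hLq : 0 < L * q ^ n := by positivity
  obtain ⟨h1, h2⟩ := floor_dp n t ht.1
  set k := ⌊t * 2 ^ n⌋₊ with hk
  have hk2 : k ≤ 2 ^ n := by
    rw [hk]
    apply Nat.floor_le_of_le
    push_cast
    have : (0 : ℝ) < 2 ^ n := by positivity
    nlinarith [ht.2]
  have hw0 : w 0 ≠ 0 := by rw [← he]; exact Complex.exp_ne_zero _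
  have hwk : w (dp n k) ≠ 0 := by rw [← he]; exact Complex.exp_ne_zero _
  have hw1 : w 1 = w 0 := by
    have := hp 0
    rwa [zero_add] at this
  have h3 := SA_bound w (fun m => L * q ^ m) hw1 hw0 hr n k hk2
  have h4 := lam_dp w lam hl he L q hL hq hp hr n hc k
  have hk3 : ‖w (dp n k)‖ > 2 * (L * q ^ n) := by
    rcases hk2.lt_or_eq with hlt | heq
    · exact hc k hlt
    · have : dp n k = 1 := by
        unfold dp
        rw [heq]
        push_cast
        rw [div_self (by positivity)]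
      rw [this, hw1]
      have := hc 0 (by positivity)
      simpa [dp] using this
  have h5 : ∀ u ∈ Icc (dp n k) t, ‖w u - w (dp n k)‖ ≤ ‖w (dp n k)‖ / 2 := by
    intro u hu
    have := hr n u (dp n k) (by
      rw [abs_of_nonneg (by linarith [hu.1])]
      linarith [hu.2])
    linarith
  have h6 := log_inc w lam hl he h1 h5
  have h7 : ‖lam t - lam (dp n k)‖ ≤ 1 := by
    rw [h6]
    have h8 := half_slit hwk (h5 t (right_mem_Icc.mpr h1))
    refine (norm_log_le h8).trans ?_
    linarith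
  have e : (lam t - lam 0).im = (lam t - lam (dp n k)).im + (lam (dp n k) - lam 0).im := by
    rw [← Complex.add_im]
    congr 1
    ring
  rw [e, h4]
  refine (abs_add_le _ _).trans ?_
  have h9 := (Complex.abs_im_le_norm (lam t - lam (dp n k))).trans h7
  linarith

end lam

end Pool.Agent.Y283.TO
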