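import Mathlib
import Pool.Agent.Y283.TO.Dir
import Pool.Agent.Y283.TO.Wind

/-!
Solutions of Toeplitz systems with Hölder symbols.
-/

set_option autoImplicit false

noncomputable section

open MeasureTheory AddCircle Set Filter Topology Metric

namespace Pool.Agent.Y283.TO

/-- Dyadic Hölder condition on the real line. -/
def HD (w : ℝ → ℂ) (L q : ℝ) : Prop :=
  ∀ n : ℕ, ∀ s t : ℝ, |s - t| ≤ (1 / 2) ^ n → ‖w s - w t‖ ≤ L * q ^ n

/-- the real lift of a function on the circle -/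
def rl (f : CT) (t : ℝ) : ℂ := f (t : UnitAddCircle)

lemma rl_periodic (f : CT) : Function.Periodic (rl f) 1 := by
  intro t
  unfold rl
  congr 1
  exact AddCircle.coe_add_period 1 t

lemma rl_continuous (f : CT) : Continuous (rl f) := f.continuous.comp (AddCircle.continuous_mk' 1)

lemma sh_hj_apply (f : CT) (j : ℕ) (t : ℝ) :
    (sh (hj j) f - f : CT) (t : UnitAddCircle) = rl f (t + 1 / (3 * 2 ^ j)) - rl f t := by
  rw [ContinuousMap.sub_apply, sh_apply, hj, rl, rl, AddCircle.coe_add]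

lemma step_le (j : ℕ) (t : ℝ) : |t + 1 / (3 * 2 ^ j) - t| ≤ (1 / 2) ^ j := by
  rw [add_sub_cancel_left, abs_of_nonneg (by positivity), one_div, one_div, inv_pow]
  apply inv_anti₀ (by positivity)
  nlinarith [(by positivity : (0 : ℝ) < 2 ^ j)]

lemma exists_coe (t : UnitAddCircle) : ∃ x ∈ Icc (0 : ℝ) 1, (x : UnitAddCircle) = t := by
  obtain ⟨x, rfl⟩ := QuotientAddGroup.mk_surjective t
  refine ⟨Int.fract x, ⟨Int.fract_nonneg x, (Int.fract_lt_one x).le⟩, ?_⟩
  have h := AddCircle.coe_sub (p := (1 : ℝ)) x ((⌊x⌋ : ℤ) : ℝ)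
  have h2 : (((⌊x⌋ : ℤ) : ℝ) : AddCircle (1 : ℝ)) = 0 := by
    rw [AddCircle.coe_eq_zero_iff]
    exact ⟨⌊x⌋, by simp⟩
  rw [h2, sub_zero] at h
  exact h

/-- The basic quantitative statement. -/
lemma solve_exp (g : CT) (L q : ℝ) (hL : 0 < L) (hq : 0 < q) (hq2 : 2 * q ^ 2 < 1)
    (hs : Real.sqrt 2 * q < 1)
    (hr : HD (rl (cexp g)) L q) (n : ℕ) (hc : Clean (rl (cexp g)) (L * q ^ n) n)
    (M : ℝ) (hM : ∀ t, ‖g t‖ ≤ M) (j₀ : ℕ) (hj₀ : n + 2 ≤ j₀) (S : ℝ)
    (hS : M * (1 + j₀) + 2 / q ^ n * (Real.sqrt 2 * q) ^ j₀ / (1 - Real.sqrt 2 * q) ≤ S) :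
    ∃ E : ℕ → ℂ, (Summable fun n => ‖E n‖) ∧
      ∑' n, ‖E n‖ ≤ Real.exp S + L * Real.exp (2 * S + (M + S)) / (1 - Real.sqrt 2 * q) ∧
      E 0 = Complex.exp (-(ft 0 g)) ∧
      ∀ i : ℕ, HasSum (fun j : ℕ => E j * ft ((i : ℤ) - j) (cexp g)) (if i = 0 then 1 else 0) := by
  have hmod : ∀ j, j₀ ≤ j → ∀ t, ‖(sh (hj j) g - g : CT) t‖ ≤ 2 / q ^ n * q ^ j := by
    intro j hj t
    obtain ⟨x, -, rfl⟩ := exists_coe t
    rw [sh_hj_apply]
    have h1 := lam_mod (rl (cexp g)) (rl g) (rl_continuous g) (fun t => rfl) L q hL hq hq2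
      (rl_periodic _) hr n hc j (hj₀.trans hj) x (x + 1 / (3 * 2 ^ j)) (step_le j x)
    refine h1.trans (le_of_eq ?_)
    ring
  obtain ⟨h1, h2, h3⟩ := norm_ps_le g M hM j₀ (2 / q ^ n) q (by positivity) hq.le hs hmod
  have hψ : ∀ j t, ‖(sh (hj j) (cexp g) - cexp g : CT) t‖ ≤ L * q ^ j := by
    intro j t
    obtain ⟨x, -, rfl⟩ := exists_coe t
    rw [sh_hj_apply]
    exact hr j _ _ (step_le j x)
  have hS1 : ∀ t, ‖ps (cp g) t‖ ≤ S := fun t => (h3 t).trans hS
  have hS2 : ∀ t, ‖psm (cm g) t‖ ≤ M + S := by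
    intro t
    have h4 : psm (cm g) t = g t - ps (cp g) t := by
      have h5 := congrArg (fun f : CT => f t) (decomp g h1 h2)
      simp only [ContinuousMap.add_apply] at h5
      rw [h5]
      ring
    rw [h4]
    exact (norm_sub_le _ _).trans (add_le_add (hM t) (hS1 t))
  exact fac g q L hq.le hs hL.le hψ h1 h2 S (M + S) hS1 hS2

lemma sqrt2q_lt {q : ℝ} (_hq : 0 < q) (hq2 : 2 * q ^ 2 < 1) : Real.sqrt 2 * q < 1 := by
  have h1 : (Real.sqrt 2 * q) ^ 2 < 1 := by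
    rw [mul_pow, Real.sq_sqrt (by norm_num)]
    exact hq2
  nlinarith [(by positivity : 0 ≤ Real.sqrt 2 * q)]

/-- The exponent of the frequency cut-off. -/
lemma exists_kappa {q : ℝ} (hq : 0 < q) (hq2 : 2 * q ^ 2 < 1) :
    ∃ κ : ℕ, 2 ≤ κ ∧ ∀ n : ℕ,
      2 / q ^ n * (Real.sqrt 2 * q) ^ (κ * (n + 1)) / (1 - Real.sqrt 2 * q) ≤ 1 := by
  set s := Real.sqrt 2 * q with hsdef
  have hs1 : s < 1 := sqrt2q_lt hq hq2
  have hs0 : 0 ≤ s := by positivity
  have hq1 : q < 1 := by nlinarith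
  have hpos : 0 < q * (1 - s) / 2 := by
    have : 0 < 1 - s := by linarith
    positivity
  obtain ⟨κ₀, hκ₀⟩ := exists_pow_lt_of_lt_one hpos hs1
  refine ⟨κ₀ + 2, by omega, fun n => ?_⟩
  have h1 : s ^ (κ₀ + 2) ≤ q * (1 - s) / 2 :=
    (pow_le_pow_of_le_one hs0 hs1.le (Nat.le_add_right _ _)).trans hκ₀.le
  have h2 : s ^ ((κ₀ + 2) * (n + 1)) ≤ q ^ n * ((1 - s) / 2) := by
    rw [pow_mul]
    calc (s ^ (κ₀ + 2)) ^ (n + 1) ≤ (q * (1 - s) / 2) ^ (n + 1) :=
          pow_le_pow_left₀ (by positivity) h1 _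
      _ = q ^ (n + 1) * ((1 - s) / 2) ^ (n + 1) := by rw [mul_div_assoc, mul_pow]
      _ ≤ q ^ n * ((1 - s) / 2) := by
          apply mul_le_mul
          · exact pow_le_pow_of_le_one hq.le hq1.le (Nat.le_succ n)
          · have h3 : (1 - s) / 2 ≤ 1 := by linarith
            have h4 : 0 ≤ (1 - s) / 2 := by linarith
            calc ((1 - s) / 2) ^ (n + 1) = ((1 - s) / 2) ^ n * ((1 - s) / 2) := pow_succ _ _
              _ ≤ 1 * ((1 - s) / 2) := mul_le_mul_of_nonneg_right (pow_le_one₀ h4 h3) h4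
              _ = (1 - s) / 2 := one_mul _
          · have h4 : 0 ≤ (1 - s) / 2 := by linarith
            positivity
          · positivity
  have hqn : 0 < q ^ n := by positivity
  have h5 : 0 < 1 - s := by linarith
  rw [div_le_one h5]
  calc 2 / q ^ n * s ^ ((κ₀ + 2) * (n + 1)) ≤ 2 / q ^ n * (q ^ n * ((1 - s) / 2)) :=
        mul_le_mul_of_nonneg_left h2 (by positivity)
    _ = 1 - s := by field_simp

/-- Clean levels exist. -/
lemma exists_clean (w : ℝ → ℂ) (L q δ : ℝ) (hL : 0 < L) (_hq : 0 < q) (hq1 : q < 1) (hδ : 0 < δ)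
    (h : ∀ t, δ ≤ ‖w t‖) : ∃ n, Clean w (L * q ^ n) n := by
  obtain ⟨n, hn⟩ := exists_pow_lt_of_lt_one (by positivity : 0 < δ / (2 * L)) hq1
  refine ⟨n, fun k _ => lt_of_lt_of_le ?_ (h _)⟩
  rw [lt_div_iff₀ (by positivity)] at hn
  linarith

lemma exists_lower (f : CT) (h : ∀ t, f t ≠ 0) : ∃ δ, 0 < δ ∧ ∀ t, δ ≤ ‖f t‖ := by
  obtain ⟨t₀, -, ht₀⟩ := isCompact_univ.exists_isMinOn univ_nonempty
    (f := fun t => ‖f t‖) (by fun_prop)
  exact ⟨‖f t₀‖, norm_pos_iff.mpr (h t₀), fun t => ht₀ (mem_univ t)⟩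

/-- Qualitative version. -/
lemma solve_qual (g : CT) (L q : ℝ) (hL : 0 < L) (hq : 0 < q) (hq2 : 2 * q ^ 2 < 1)
    (hr : HD (rl (cexp g)) L q) :
    ∃ E : ℕ → ℂ, (Summable fun n => ‖E n‖) ∧ E 0 ≠ 0 ∧
      ∀ i : ℕ, HasSum (fun j : ℕ => E j * ft ((i : ℤ) - j) (cexp g)) (if i = 0 then 1 else 0) := by
  have hq1 : q < 1 := by nlinarith
  obtain ⟨δ, hδ, h1⟩ := exists_lower (cexp g) (fun t => Complex.exp_ne_zero _)
  obtain ⟨n, hn⟩ := exists_clean (rl (cexp g)) L q δ hL hq hq1 hδ (fun t => h1 _)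
  obtain ⟨E, h2, -, h3, h4⟩ := solve_exp g L q hL hq hq2 (sqrt2q_lt hq hq2) hr n hn ‖g‖
    (fun t => g.norm_coe_le_norm t) (n + 2) le_rfl _ le_rfl
  exact ⟨E, h2, by rw [h3]; exact Complex.exp_ne_zero _, h4⟩

/-- The symbol `(φ - z) e^{-2πikt}`. -/
def sy (φ : CT) (z : ℂ) (k : ℤ) : CT := (φ - algebraMap ℂ CT z) * fourier (-k)

lemma ft_algebraMap (n : ℤ) (z : ℂ) : ft n (algebraMap ℂ CT z) = if n = 0 then z else 0 := by
  rw [Algebra.algebraMap_eq_smul_one, map_smul, ft_one]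
  split_ifs <;> simp

lemma ft_sy (φ : CT) (z : ℂ) (k n : ℤ) :
    ft n (sy φ z k) = ft (n + k) φ - if n + k = 0 then z else 0 := by
  rw [sy, mul_comm, ft_fourier_mul, map_sub, ft_algebraMap, sub_neg_eq_add]

/-- Existence of the index and of the logarithm. -/
lemma exists_lift (φ : CT) (z : ℂ) (hz : ∀ t, φ t ≠ z) :
    ∃ (k : ℤ) (lam : ℝ → ℂ) (g : CT), Continuous lam ∧
      (∀ t : ℝ, Complex.exp (lam t) = φ (t : UnitAddCircle) - z) ∧ |(lam 0).im| ≤ Real.pi ∧
      (∀ t : ℝ, g (t : UnitAddCircle) = lam t - 2 * Real.pi * Complex.I * k * t) ∧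
      cexp g = sy φ z k := by
  let w : ℝ → ℂ := fun t => rl φ t - z
  have hw : Continuous w := (rl_continuous φ).sub continuous_const
  have hw0 : ∀ t, w t ≠ 0 := fun t => sub_ne_zero.mpr (hz _)
  obtain ⟨f, hf1, hf2⟩ := Complex.exists_continuousOn_eqOn_exp_comp (X := ℝ) (U := univ)
    (g := w) (by
      have : ContractibleSpace (univ : Set ℝ) :=
        (convex_univ (𝕜 := ℝ) (E := ℝ)).contractibleSpace univ_nonempty
      exact SimplyConnectedSpace.ofContractible _) isOpen_univ hw.continuousOn (by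
      rintro ⟨t, -, ht⟩
      exact hw0 t ht)
  have hfc : Continuous f := continuousOn_univ.mp hf1
  have hfe : ∀ t, Complex.exp (f t) = w t := fun t => hf2 (mem_univ t)
  let lam : ℝ → ℂ := fun t => f t - f 0 + Complex.log (w 0)
  have hlc : Continuous lam := (hfc.sub continuous_const).add continuous_const
  have hle : ∀ t, Complex.exp (lam t) = w t := by
    intro t
    simp only [lam]
    rw [Complex.exp_add, Complex.exp_sub, hfe, hfe, Complex.exp_log (hw0 0)]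
    field_simp [hw0 0]
  have hwp : Function.Periodic w 1 := fun t => by
    simp only [w]
    rw [rl_periodic φ t]
  have h01 : Complex.exp (lam 1) = Complex.exp (lam 0) := by
    rw [hle, hle]
    have := hwp 0
    rwa [zero_add] at this
  obtain ⟨k, hk⟩ := Complex.exp_eq_exp_iff_exists_int.mp h01
  have hper : ∀ t, lam (t + 1) = lam t + k * (2 * Real.pi * Complex.I) := by
    intro t
    have h1 := log_unique (S := univ) isPreconnected_univ (fun t => lam (t + 1)) lam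
      (hlc.comp (continuous_id.add continuous_const)).continuousOn hlc.continuousOn
      (fun t _ => by rw [hle, hle]; exact hwp t) (mem_univ t) (mem_univ 0)
    simp only [zero_add] at h1
    linear_combination h1 + hk
  have hgp : Function.Periodic (fun t : ℝ => lam t - 2 * Real.pi * Complex.I * k * t) 1 := by
    intro t
    simp only [hper]
    push_cast
    ring
  have hgc : Continuous (hgp.lift : UnitAddCircle → ℂ) := by
    refine (QuotientAddGroup.isQuotientMap_mk (G := ℝ)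
      (N := AddSubgroup.zmultiples (1 : ℝ))).continuous_iff.mpr ?_
    have : ((hgp.lift : UnitAddCircle → ℂ) ∘ (QuotientAddGroup.mk : ℝ → UnitAddCircle)) =
        fun t : ℝ => lam t - 2 * Real.pi * Complex.I * k * t := by
      funext t
      exact hgp.lift_coe t
    rw [this]
    fun_prop
  refine ⟨k, lam, ⟨_, hgc⟩, hlc, fun t => hle t, ?_, fun t => hgp.lift_coe t, ?_⟩
  · simp only [lam, sub_self, zero_add]
    rw [Complex.log_im]
    exact Complex.abs_arg_le_pi _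
  · ext t
    obtain ⟨x, -, rfl⟩ := exists_coe t
    rw [cexp_apply, sy, ContinuousMap.mul_apply, ContinuousMap.sub_apply]
    have h2 : (⟨_, hgc⟩ : CT) (x : UnitAddCircle) = lam x - 2 * Real.pi * Complex.I * k * x :=
      hgp.lift_coe x
    rw [h2, Complex.exp_sub, hle, fourier_coe_apply]
    have h3 : (algebraMap ℂ CT z) (x : UnitAddCircle) = z := rfl
    rw [h3]
    have h4 : Complex.exp (2 * Real.pi * Complex.I * ((-k : ℤ) : ℂ) * x / (1 : ℝ)) =
        (Complex.exp (2 * Real.pi * Complex.I * k * x))⁻¹ := by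
      rw [← Complex.exp_neg]
      congr 1
      push_cast
      ring
    rw [h4, div_eq_mul_inv]
    rfl

end Pool.Agent.Y283.TO
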