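import Mathlib
import Pool.Agent.Y283.TO.Solve

/-!
Toeplitz systems: eigenvectors for nonzero index, bounds for index zero.
-/

set_option autoImplicit false

noncomputable section

open MeasureTheory AddCircle Set Filter Topology Metric

namespace Pool.Agent.Y283.TO

/-- `z` is an eigenvalue with an absolutely summable eigenvector -/
def Eig (φ : CT) (z : ℂ) : Prop :=
  ∃ u : ℕ → ℂ, (Summable fun n => ‖u n‖) ∧ u 0 ≠ 0 ∧
    ∀ i : ℕ, HasSum (fun j : ℕ => ft ((i : ℤ) - j) φ * u j) (z * u i)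

/-- `u` is an absolutely summable solution of `z u - T u = e₀` -/
def Sol (φ : CT) (z : ℂ) (u : ℕ → ℂ) : Prop :=
  (Summable fun n => ‖u n‖) ∧
    ∀ i : ℕ, HasSum (fun j : ℕ => ft ((i : ℤ) - j) φ * u j) (z * u i - if i = 0 then 1 else 0)

lemma norm_fourier_sub (k : ℤ) (s t : ℝ) :
    ‖(fourier k : CT) (s : UnitAddCircle) - fourier k (t : UnitAddCircle)‖ ≤
      2 * Real.pi * |(k : ℝ)| * |s - t| := by
  have h1 : (fourier k : CT) (s : UnitAddCircle) - fourier k (t : UnitAddCircle) =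
      (fourier k : CT) (t : UnitAddCircle) *
        (Complex.exp (Complex.I * ((2 * Real.pi * k * (s - t) : ℝ) : ℂ)) - 1) := by
    rw [mul_sub, mul_one, fourier_coe_apply, fourier_coe_apply, ← Complex.exp_add]
    congr 2
    push_cast
    ring
  rw [h1, norm_mul, norm_fourier_apply, one_mul]
  refine (Real.norm_exp_I_mul_ofReal_sub_one_le).trans (le_of_eq ?_)
  rw [Real.norm_eq_abs, abs_mul, abs_mul, abs_of_pos (by positivity : 0 < 2 * Real.pi)]

lemma HD_sy (φ : CT) (z : ℂ) (k : ℤ) (L q : ℝ) (hq : 1 / 2 ≤ q) (h : HD (rl φ) L q) :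
    HD (rl (sy φ z k)) (L + (‖φ‖ + ‖z‖) * (2 * Real.pi * |(k : ℝ)|)) q := by
  intro n s t hst
  have h1 : rl (sy φ z k) s - rl (sy φ z k) t =
      (rl φ s - rl φ t) * (fourier (-k) : CT) (s : UnitAddCircle) +
      (rl φ t - z) * ((fourier (-k) : CT) (s : UnitAddCircle) - fourier (-k) (t : UnitAddCircle)) := by
    have e : ∀ x : ℝ, rl (sy φ z k) x = (rl φ x - z) * (fourier (-k) : CT) (x : UnitAddCircle) :=
      fun x => rfl
    rw [e, e]
    ring
  rw [h1]
  refine (norm_add_le _ _).trans ?_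
  rw [norm_mul, norm_mul, norm_fourier_apply, mul_one, add_mul]
  refine add_le_add (h n s t hst) ?_
  have h2 : ‖rl φ t - z‖ ≤ ‖φ‖ + ‖z‖ :=
    (norm_sub_le _ _).trans (add_le_add (φ.norm_coe_le_norm _) le_rfl)
  have h3 := norm_fourier_sub (-k) s t
  have h4 : |((-k : ℤ) : ℝ)| = |(k : ℝ)| := by push_cast; exact abs_neg _
  rw [h4] at h3
  have h5 : |s - t| ≤ q ^ n := hst.trans (pow_le_pow_left₀ (by norm_num) hq n)
  calc ‖rl φ t - z‖ * ‖(fourier (-k) : CT) (s : UnitAddCircle) - fourier (-k) (t : UnitAddCircle)‖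
      ≤ (‖φ‖ + ‖z‖) * (2 * Real.pi * |(k : ℝ)| * q ^ n) := by
        refine mul_le_mul h2 (h3.trans ?_) (norm_nonneg _) (by positivity)
        exact mul_le_mul_of_nonneg_left h5 (by positivity)
    _ = _ := by ring

lemma hasSum_single_mul (E : ℕ → ℂ) (z : ℂ) (i : ℕ) :
    HasSum (fun j : ℕ => E j * if (i : ℤ) - j = 0 then z else 0) (E i * z) := by
  have h := hasSum_single (f := fun j : ℕ => E j * if (i : ℤ) - j = 0 then z else 0) i (by
    intro j hj
    have : (i : ℤ) - j ≠ 0 := by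
      intro h
      apply hj
      omega
    simp only [if_neg this, mul_zero])
  simpa using h

lemma eig_of_neg (φ : CT) (z : ℂ) (L q : ℝ) (hL : 0 < L) (hq : 1 / 2 ≤ q) (hq2 : 2 * q ^ 2 < 1)
    (h : HD (rl φ) L q) (k : ℤ) (hk : k < 0) (g : CT) (hg : cexp g = sy φ z k) : Eig φ z := by
  have hq0 : 0 < q := by linarith
  have h1 := HD_sy φ z k L q hq h
  rw [← hg] at h1
  obtain ⟨E, h2, h3, h4⟩ := solve_qual g _ q (by positivity) hq0 hq2 h1
  refine ⟨E, h2, h3, fun i => ?_⟩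
  obtain ⟨m, hm⟩ : ∃ m : ℕ, k = -(m : ℤ) := ⟨k.natAbs, by omega⟩
  have h5 := h4 (i + m)
  have hne : i + m ≠ 0 := by omega
  rw [if_neg hne] at h5
  have h6 := h5.add (hasSum_single_mul E z i)
  rw [zero_add, mul_comm] at h6
  have h7 : (fun j : ℕ => E j * ft (((i + m : ℕ) : ℤ) - j) (cexp g) +
      E j * if (i : ℤ) - j = 0 then z else 0) = fun j : ℕ => ft ((i : ℤ) - j) φ * E j := by
    funext j
    have e : ((i + m : ℕ) : ℤ) - j + k = (i : ℤ) - j := by
      rw [hm]; push_cast; ring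
    rw [hg, ft_sy, e]
    ring
  rw [h7] at h6
  exact h6

lemma sol_of_zero (φ : CT) (z : ℂ) (g : CT) (hg : cexp g = sy φ z 0) (E : ℕ → ℂ)
    (h1 : Summable fun n => ‖E n‖)
    (h2 : ∀ i : ℕ, HasSum (fun j : ℕ => E j * ft ((i : ℤ) - j) (cexp g)) (if i = 0 then 1 else 0)) :
    Sol φ z (fun n => -E n) := by
  refine ⟨by simpa using h1, fun i => ?_⟩
  have h3 := ((h2 i).add (hasSum_single_mul E z i)).neg
  have h7 : (fun j : ℕ => -(E j * ft ((i : ℤ) - j) (cexp g) +
      E j * if (i : ℤ) - j = 0 then z else 0)) = fun j : ℕ => ft ((i : ℤ) - j) φ * -E j := by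
    funext j
    rw [hg, ft_sy, add_zero]
    ring
  rw [h7] at h3
  have e : -((if i = 0 then (1 : ℂ) else 0) + E i * z) = z * -E i - if i = 0 then 1 else 0 := by
    ring
  rw [e] at h3
  exact h3

lemma rf_mul (f g : CT) : rf (f * g) = rf f * rf g := rfl

lemma rf_fourier (k : ℤ) : rf (fourier k : CT) = fourier (-k) := by
  ext t
  rw [rf_apply, fourier_neg_arg]

lemma sy_rf (φ : CT) (z : ℂ) (k : ℤ) : rf (sy φ z k) = sy (rf φ) z (-k) := by
  rw [sy, rf_mul, rf_fourier, sy]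
  rfl

lemma HD_rf (φ : CT) (L q : ℝ) (h : HD (rl φ) L q) : HD (rl (rf φ)) L q := by
  intro n s t hst
  have e : ∀ x : ℝ, rl (rf φ) x = rl φ (-x) := fun x => by
    unfold rl
    rw [rf_apply, AddCircle.coe_neg]
  rw [e, e]
  exact h n _ _ (by rw [← abs_neg]; convert hst using 2; ring)

lemma log_q_ge {q : ℝ} (hq : 1 / 2 ≤ q) : -1 ≤ Real.log q := by
  have h1 : Real.log (1 / 2) ≤ Real.log q := Real.log_le_log (by norm_num) hq
  have h2 : Real.log (1 / 2) = -Real.log 2 := by rw [one_div, Real.log_inv]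
  have := Real.log_two_lt_d9
  linarith

/-- the count of bad dyadic points below level `n` -/
def bt (φ : CT) (z : ℂ) (L q : ℝ) (n : ℕ) : ℝ :=
  ∑ m ∈ Finset.range n, (bad (fun t => rl φ t - z) (L * q ^ m) m : ℝ)

lemma bt_nonneg (φ : CT) (z : ℂ) (L q : ℝ) (n : ℕ) : 0 ≤ bt φ z L q n :=
  Finset.sum_nonneg fun _ _ => Nat.cast_nonneg _

/-- Bound of the logarithm of the symbol. -/
lemma norm_g_le (φ : CT) (z : ℂ) (L q : ℝ) (hL : 0 < L) (hq : 1 / 2 ≤ q) (hq2 : 2 * q ^ 2 < 1)
    (h : HD (rl φ) L q) (n : ℕ) (hc : Clean (fun t => rl φ t - z) (L * q ^ n) n)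
    (lam : ℝ → ℂ) (g : CT) (hl : Continuous lam)
    (he : ∀ t : ℝ, Complex.exp (lam t) = φ (t : UnitAddCircle) - z) (h0 : |(lam 0).im| ≤ Real.pi)
    (hg : ∀ t : ℝ, g (t : UnitAddCircle) = lam t) (t : UnitAddCircle) :
    ‖g t‖ ≤ (Real.log (1 + ‖φ‖ + ‖z‖) + |Real.log L| + 20) * (1 + n + bt φ z L q n) := by
  have hq0 : 0 < q := by linarith
  have hq1 : q < 1 := by nlinarith
  obtain ⟨x, hx, rfl⟩ := exists_coe t
  set w : ℝ → ℂ := fun t => rl φ t - z with hw
  have hwp : Function.Periodic w 1 := fun t => by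
    simp only [hw]
    rw [rl_periodic φ t]
  have hr : ∀ n : ℕ, ∀ s t : ℝ, |s - t| ≤ (1 / 2) ^ n → ‖w s - w t‖ ≤ L * q ^ n := by
    intro n s t hst
    have := h n s t hst
    simpa [hw] using this
  have him := lam_im_bound w lam hl he L q hL hq0 hwp hr n hc x hx
  have hlow := clean_lower w (L * q ^ n) n hwp (hr n) hc x
  have hre : (lam x).re = Real.log ‖w x‖ := by
    have : w x = Complex.exp (lam x) := (he x).symm
    rw [this, Complex.norm_exp, Real.log_exp]
  have hup : ‖w x‖ ≤ 1 + ‖φ‖ + ‖z‖ := by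
    have h1 : ‖w x‖ ≤ ‖φ‖ + ‖z‖ :=
      (norm_sub_le _ _).trans (add_le_add (φ.norm_coe_le_norm _) le_rfl)
    linarith
  have hLq : 0 < L * q ^ n := by positivity
  have hpos : 0 < ‖w x‖ := hLq.trans hlow
  have hlogup : Real.log ‖w x‖ ≤ Real.log (1 + ‖φ‖ + ‖z‖) := Real.log_le_log hpos hup
  have hloglow : -|Real.log L| - n ≤ Real.log ‖w x‖ := by
    have h1 : Real.log (L * q ^ n) ≤ Real.log ‖w x‖ := Real.log_le_log hLq hlow.le
    rw [Real.log_mul hL.ne' (by positivity), Real.log_pow] at h1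
    have h2 := log_q_ge hq
    have h3 := neg_abs_le (Real.log L)
    have h4 : (0 : ℝ) ≤ n := Nat.cast_nonneg n
    nlinarith
  have hlog0 : 0 ≤ Real.log (1 + ‖φ‖ + ‖z‖) :=
    Real.log_nonneg (by linarith [norm_nonneg φ, norm_nonneg z])
  rw [hg]
  have h1 := Complex.norm_le_abs_re_add_abs_im (lam x)
  have h2 : |(lam x).re| ≤ Real.log (1 + ‖φ‖ + ‖z‖) + |Real.log L| + n := by
    rw [hre, abs_le]
    have := abs_nonneg (Real.log L)
    have h4 : (0 : ℝ) ≤ n := Nat.cast_nonneg n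
    constructor <;> linarith
  have h3 : |(lam x).im| ≤ Real.pi + (3 * Real.pi * bt φ z L q n + Real.pi * n + 1) := by
    have e : (lam x).im = (lam 0).im + (lam x - lam 0).im := by
      rw [Complex.sub_im]; ring
    rw [e]
    exact (abs_add_le _ _).trans (add_le_add h0 him)
  have hpi : Real.pi < 4 := Real.pi_lt_four
  have hb := bt_nonneg φ z L q n
  have hn : (0 : ℝ) ≤ n := Nat.cast_nonneg n
  have hl0 := abs_nonneg (Real.log L)
  nlinarith [mul_nonneg hlog0 hn, mul_nonneg hlog0 hb, mul_nonneg hl0 hn, mul_nonneg hl0 hb,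
    mul_nonneg hn (by linarith : 0 ≤ 4 - Real.pi), mul_nonneg hb (by linarith : 0 ≤ 4 - Real.pi)]

/-- the logarithmic potential of the symbol -/
def pot (φ : CT) (z : ℂ) : ℝ := ∫ t, Real.log ‖φ t - z‖ ∂haarAddCircle

lemma re_ft_zero (φ : CT) (z : ℂ) (g : CT) (hg : cexp g = sy φ z 0) :
    (ft 0 g).re = pot φ z := by
  have h1 : ft 0 g = ∫ t, g t ∂haarAddCircle := by
    rw [ft_apply, neg_zero, fourier_zero_eq, one_mul, mean_apply]
  rw [h1, pot]
  have h2 : (∫ t, g t ∂haarAddCircle).re = ∫ t, (g t).re ∂haarAddCircle := by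
    have := integral_re (𝕜 := ℂ) (integrable_CT g)
    exact this.symm
  rw [h2]
  refine integral_congr_ae (Eventually.of_forall fun t => ?_)
  have h3 : Complex.exp (g t) = φ t - z := by
    have h4 := congrArg (fun f : CT => f t) hg
    simp only [cexp_apply, sy, ContinuousMap.mul_apply, ContinuousMap.sub_apply, neg_zero,
      fourier_zero, mul_one] at h4
    rw [h4]
    rfl
  simp only
  rw [← h3, Complex.norm_exp, Real.log_exp]

/-- The trichotomy with the quantitative bound. -/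
theorem quant (φ : CT) (L q : ℝ) (hL : 0 < L) (hq : 1 / 2 ≤ q) (hq2 : 2 * q ^ 2 < 1)
    (h : HD (rl φ) L q) (R : ℝ) : ∃ C : ℝ, 0 ≤ C ∧ ∀ z : ℂ, ‖z‖ ≤ R → (∀ t, φ t ≠ z) →
      Eig φ z ∨ Eig (rf φ) z ∨ ∀ n, Clean (fun t => rl φ t - z) (L * q ^ n) n →
        ∃ u, Sol φ z u ∧ ‖u 0‖ = Real.exp (-pot φ z) ∧
          Real.posLog (∑' j, ‖u j‖) ≤ C * ((n + 1) * (1 + n + bt φ z L q n)) := by
  have hq0 : 0 < q := by linarith
  have hs := sqrt2q_lt hq0 hq2
  obtain ⟨κ, -, hκ⟩ := exists_kappa hq0 hq2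
  set s := Real.sqrt 2 * q with hsdef
  have hs1 : 0 < 1 - s := by linarith
  set c1 : ℝ := Real.log (1 + L / (1 - s)) with hc1
  have hc10 : 0 ≤ c1 := Real.log_nonneg (by
    have : 0 < L / (1 - s) := by positivity
    linarith)
  set c2 : ℝ := Real.log (1 + ‖φ‖ + |R|) + |Real.log L| + 20 with hc2
  have hlogR : 0 ≤ Real.log (1 + ‖φ‖ + |R|) :=
    Real.log_nonneg (by linarith [norm_nonneg φ, abs_nonneg R])
  have hc20 : 0 ≤ c2 := by
    have := abs_nonneg (Real.log L)
    linarith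
  refine ⟨c1 + 3 + (4 + 3 * (κ + 2)) * c2, by positivity, fun z hz hzφ => ?_⟩
  obtain ⟨k, lam, g, hl, he, h0, hg, hexp⟩ := exists_lift φ z hzφ
  rcases lt_trichotomy k 0 with hk | hk | hk
  · left
    exact eig_of_neg φ z L q hL hq hq2 h k hk g hexp
  · right; right
    intro n hc
    rw [hk] at hexp
    have hg0 : ∀ t : ℝ, g (t : UnitAddCircle) = lam t := by
      intro t
      rw [hg, hk]
      simp
    set b := bt φ z L q n with hb
    have hb0 : 0 ≤ b := bt_nonneg φ z L q n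
    have hn0 : (0 : ℝ) ≤ n := Nat.cast_nonneg n
    set M : ℝ := c2 * (1 + n + b) with hM
    have hM0 : 0 ≤ M := by positivity
    have hgM : ∀ t, ‖g t‖ ≤ M := by
      intro t
      refine (norm_g_le φ z L q hL hq hq2 h n hc lam g hl he h0 hg0 t).trans ?_
      refine mul_le_mul_of_nonneg_right ?_ (by positivity)
      have : Real.log (1 + ‖φ‖ + ‖z‖) ≤ Real.log (1 + ‖φ‖ + |R|) := by
        apply Real.log_le_log (by positivity)
        have := hz.trans (le_abs_self R)
        linarith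
      linarith
    have hr : HD (rl (cexp g)) L q := by
      intro m x y hxy
      have e : ∀ x : ℝ, rl (cexp g) x = rl φ x - z := fun x => by
        have : rl (cexp g) x = Complex.exp (g (x : UnitAddCircle)) := rfl
        rw [this, hg0, he]
        rfl
      rw [e, e]
      simpa using h m x y hxy
    have hcl : Clean (rl (cexp g)) (L * q ^ n) n := by
      intro k hk
      have e : rl (cexp g) (dp n k) = rl φ (dp n k) - z := by
        have : rl (cexp g) (dp n k) = Complex.exp (g ((dp n k : ℝ) : UnitAddCircle)) := rfl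
        rw [this, hg0, he]
        rfl
      rw [e]
      exact hc k hk
    set j₀ : ℕ := (κ + 2) * (n + 1) with hj₀
    have hj : n + 2 ≤ j₀ := by
      rw [hj₀]
      nlinarith
    have hκ' : 2 / q ^ n * s ^ j₀ / (1 - s) ≤ 1 := by
      refine le_trans ?_ (hκ n)
      refine div_le_div_of_nonneg_right ?_ hs1.le
      refine mul_le_mul_of_nonneg_left ?_ (by positivity)
      apply pow_le_pow_of_le_one (by positivity) hs.le
      rw [hj₀]
      nlinarith
    obtain ⟨E, h1, h2, h3, h4⟩ := solve_exp g L q hL hq0 hq2 hs hr n hcl M hgM j₀ hj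
      (M * (1 + j₀) + 1) (by linarith)
    refine ⟨fun n => -E n, sol_of_zero φ z g hexp E h1 h4, ?_, ?_⟩
    · rw [norm_neg, h3, Complex.norm_exp, Complex.neg_re, re_ft_zero φ z g hexp]
    · simp only [norm_neg]
      set S : ℝ := M * (1 + j₀) + 1 with hS
      have hj0 : (0 : ℝ) ≤ j₀ := Nat.cast_nonneg _
      have hS0 : 0 ≤ S := by positivity
      have h5 : ∑' n, ‖E n‖ ≤ (1 + L / (1 - s)) * Real.exp (3 * S + M) := by
        refine h2.trans ?_
        have e1 : Real.exp S ≤ Real.exp (3 * S + M) := Real.exp_le_exp.mpr (by linarith)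
        have e2 : Real.exp (2 * S + (M + S)) = Real.exp (3 * S + M) := by congr 1; ring
        rw [e2, add_mul, one_mul]
        have e3 : L * Real.exp (3 * S + M) / (1 - s) = L / (1 - s) * Real.exp (3 * S + M) := by
          ring
        rw [e3]
        linarith
      have h6 : Real.posLog (∑' n, ‖E n‖) ≤ c1 + (3 * S + M) := by
        have h7 : Real.posLog (∑' n, ‖E n‖) ≤
            Real.posLog ((1 + L / (1 - s)) * Real.exp (3 * S + M)) :=
          Real.posLog_le_posLog (tsum_nonneg fun _ => norm_nonneg _) h5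
        refine h7.trans ?_
        have h8 : 0 < 1 + L / (1 - s) := by positivity
        rw [Real.posLog, Real.log_mul h8.ne' (Real.exp_pos _).ne', Real.log_exp]
        exact max_le (by positivity) le_rfl
      refine h6.trans ?_
      have hj1 : (j₀ : ℝ) = (κ + 2) * (n + 1) := by rw [hj₀]; push_cast; ring
      have hκ0 : (0 : ℝ) ≤ κ := Nat.cast_nonneg κ
      rw [hS, hj1, hM]
      have hT : 1 ≤ 1 + (n : ℝ) + b := by linarith
      have hN : 1 ≤ (n : ℝ) + 1 := by linarith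
      have hNT : 1 ≤ ((n : ℝ) + 1) * (1 + n + b) := by nlinarith
      have k1 : c1 + 3 ≤ (c1 + 3) * (((n : ℝ) + 1) * (1 + n + b)) :=
        le_mul_of_one_le_right (by positivity) hNT
      have k2 : c2 * (1 + n + b) ≤ c2 * (1 + n + b) * (n + 1) :=
        le_mul_of_one_le_right (by positivity) hN
      nlinarith
  · right; left
    have h1 : cexp (rf g) = sy (rf φ) z (-k) := by
      rw [cexp_rf, hexp, sy_rf]
    exact eig_of_neg (rf φ) z L q hL hq hq2 (HD_rf φ L q h) (-k) (by omega) (rf g) h1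

end Pool.Agent.Y283.TO
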