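import Mathlib
import Pool.Agent.Y283.TO.Quant

/-!
Area estimates for the winding count.
-/

set_option autoImplicit false

noncomputable section

open MeasureTheory AddCircle Set Filter Topology Metric
open scoped ENNReal

namespace Pool.Agent.Y283.TO

/-- the number of dyadic points of level `n` close to `z`, as a function of `z` -/
def bE (φ : CT) (L q : ℝ) (n : ℕ) (z : ℂ) : ℝ≥0∞ :=
  ∑ k ∈ Finset.range (2 ^ n), (closedBall (rl φ (dp n k)) (2 * (L * q ^ n))).indicator 1 z

lemma bE_eq (φ : CT) (L q : ℝ) (n : ℕ) (z : ℂ) :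
    bE φ L q n z = (bad (fun t => rl φ t - z) (L * q ^ n) n : ℕ) := by
  unfold bE bad
  rw [Finset.card_filter, Nat.cast_sum]
  refine Finset.sum_congr rfl fun k _ => ?_
  have : (z ∈ closedBall (rl φ (dp n k)) (2 * (L * q ^ n))) ↔
      ‖rl φ (dp n k) - z‖ ≤ 2 * (L * q ^ n) := by
    rw [mem_closedBall, dist_comm, dist_eq_norm]
  by_cases hk : ‖rl φ (dp n k) - z‖ ≤ 2 * (L * q ^ n)
  · rw [indicator_of_mem (this.mpr hk), if_pos hk]
    simp
  · rw [indicator_of_notMem (fun h => hk (this.mp h)), if_neg hk]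
    simp

lemma measurable_bE (φ : CT) (L q : ℝ) (n : ℕ) : Measurable (bE φ L q n) := by
  unfold bE
  refine Finset.measurable_fun_sum _ fun k _ => ?_
  exact measurable_one.indicator measurableSet_closedBall

lemma bE_le (φ : CT) (L q : ℝ) (n : ℕ) (z : ℂ) : bE φ L q n z ≤ 2 ^ n := by
  rw [bE_eq]
  have h : bad (fun t => rl φ t - z) (L * q ^ n) n ≤ 2 ^ n := by
    unfold bad
    exact (Finset.card_filter_le _ _).trans (by rw [Finset.card_range])
  exact_mod_cast h

lemma lintegral_bE (φ : CT) (L q : ℝ) (hL : 0 < L) (hq : 0 < q) (n : ℕ) :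
    ∫⁻ z, bE φ L q n z = ENNReal.ofReal (4 * Real.pi * L ^ 2 * (2 * q ^ 2) ^ n) := by
  unfold bE
  rw [lintegral_finsetSum _ (fun k _ => measurable_one.indicator measurableSet_closedBall)]
  have h : ∀ k : ℕ, ∫⁻ z, (closedBall (rl φ (dp n k)) (2 * (L * q ^ n))).indicator
      (1 : ℂ → ℝ≥0∞) z = ENNReal.ofReal (4 * Real.pi * L ^ 2 * (q ^ 2) ^ n) := by
    intro k
    rw [lintegral_indicator_one measurableSet_closedBall, Complex.volume_closedBall,
      ← ENNReal.ofReal_pow (by positivity)]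
    have : (NNReal.pi : ℝ≥0∞) = ENNReal.ofReal Real.pi := by
      rw [← NNReal.coe_real_pi, ENNReal.ofReal_coe_nnreal]
    rw [this, ← ENNReal.ofReal_mul (by positivity)]
    congr 1
    rw [← pow_mul, mul_comm 2 n, pow_mul]
    ring
  simp only [h]
  rw [Finset.sum_const, Finset.card_range, nsmul_eq_mul, mul_pow]
  have h2 : ((2 ^ n : ℕ) : ℝ≥0∞) = ENNReal.ofReal (2 ^ n) := by
    rw [ENNReal.ofReal_pow (by norm_num)]
    simp
  rw [h2, ← ENNReal.ofReal_mul (by positivity)]
  congr 1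
  ring

/-- interpolation between the two bounds -/
lemma exists_rho {p : ℝ} (hp0 : 0 < p) (hp1 : p < 1) :
    ∃ ρ : ℝ, 0 < ρ ∧ ρ < 1 ∧ ∀ n m : ℕ, min (p ^ n) (2 ^ n * p ^ m) ≤ ρ ^ n * ρ ^ m := by
  obtain ⟨κ, hκ⟩ := exists_pow_lt_of_lt_one (by positivity : 0 < p / 2) hp1
  have hκ2 : 2 * p ^ κ ≤ p := by linarith
  set ρ : ℝ := p ^ ((1 : ℝ) / ((κ + 1 : ℕ) : ℝ)) with hρ
  have hρ0 : 0 < ρ := Real.rpow_pos_of_pos hp0 _
  have hρp : ρ ^ (κ + 1) = p := by
    rw [hρ, ← Real.rpow_natCast, ← Real.rpow_mul hp0.le]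
    rw [one_div, inv_mul_cancel₀ (by positivity), Real.rpow_one]
  have hρ1 : ρ < 1 := by
    by_contra hcon
    push Not at hcon
    have := one_le_pow₀ (n := κ + 1) hcon
    linarith
  refine ⟨ρ, hρ0, hρ1, fun n m => ?_⟩
  rw [← pow_add]
  rcases le_total m (κ * n) with h | h
  · refine (min_le_left _ _).trans ?_
    rw [← hρp, ← pow_mul]
    apply pow_le_pow_of_le_one hρ0.le hρ1.le
    nlinarith
  · refine (min_le_right _ _).trans ?_
    obtain ⟨i, rfl⟩ := Nat.exists_eq_add_of_le h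
    have h1 : 2 ^ n * p ^ (κ * n + i) = (2 * p ^ κ) ^ n * p ^ i := by
      rw [mul_pow, ← pow_mul, pow_add]
      ring
    have h2 : (2 * p ^ κ) ^ n * p ^ i ≤ p ^ n * p ^ i :=
      mul_le_mul_of_nonneg_right (pow_le_pow_left₀ (by positivity) hκ2 n) (by positivity)
    rw [h1]
    refine h2.trans ?_
    rw [← pow_add, ← hρp, ← pow_mul]
    apply pow_le_pow_of_le_one hρ0.le hρ1.le
    nlinarith [Nat.zero_le (κ * i)]

/-- the dominating function -/
def HH (φ : CT) (L q : ℝ) (z : ℂ) : ℝ≥0∞ :=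
  (1 + ∑' m, min (bE φ L q m z) 1) * (1 + 2 * ∑' n, bE φ L q n z)

lemma measurable_HH (φ : CT) (L q : ℝ) : Measurable (HH φ L q) := by
  unfold HH
  refine Measurable.mul ?_ ?_
  · exact measurable_const.add (Measurable.tsum fun m =>
      (measurable_bE φ L q m).min measurable_const)
  · exact measurable_const.add (measurable_const.mul
      (Measurable.tsum fun n => measurable_bE φ L q n))

lemma lintegral_HH (φ : CT) (L q : ℝ) (hL : 0 < L) (hq : 0 < q) (hq2 : 2 * q ^ 2 < 1) (R : ℝ) :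
    ∫⁻ z in ball 0 R, HH φ L q z ≠ ⊤ := by
  have hp0 : 0 < 2 * q ^ 2 := by positivity
  obtain ⟨ρ, hρ0, hρ1, hρ⟩ := exists_rho hp0 hq2
  set A : ℝ := 4 * Real.pi * L ^ 2 with hA
  have hA0 : 0 ≤ A := by positivity
  have hgeom : ∑' n : ℕ, ENNReal.ofReal (ρ ^ n) ≠ ⊤ := by
    have : ∀ n : ℕ, ENNReal.ofReal (ρ ^ n) = ENNReal.ofReal ρ ^ n := fun n =>
      ENNReal.ofReal_pow hρ0.le n
    simp only [this]
    rw [ENNReal.tsum_geometric]
    refine ENNReal.inv_ne_top.mpr ?_
    rw [Ne, tsub_eq_zero_iff_le, not_le, ENNReal.ofReal_lt_one]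
    exact hρ1
  have hb : ∀ n, ∫⁻ z, bE φ L q n z ≤ ENNReal.ofReal A * ENNReal.ofReal (ρ ^ n) := by
    intro n
    rw [lintegral_bE φ L q hL hq n, ← ENNReal.ofReal_mul hA0]
    apply ENNReal.ofReal_le_ofReal
    refine mul_le_mul_of_nonneg_left ?_ hA0
    have h1 := hρ n n
    have h2 : min ((2 * q ^ 2) ^ n) (2 ^ n * (2 * q ^ 2) ^ n) = (2 * q ^ 2) ^ n := by
      apply min_eq_left
      have : (1 : ℝ) ≤ 2 ^ n := one_le_pow₀ (by norm_num)
      nlinarith [pow_pos hp0 n]
    rw [h2] at h1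
    refine h1.trans ?_
    have : ρ ^ n ≤ 1 := pow_le_one₀ hρ0.le hρ1.le
    nlinarith [pow_pos hρ0 n]
  have hcb : ∀ m n, ∫⁻ z, min (bE φ L q m z) 1 * bE φ L q n z ≤
      ENNReal.ofReal A * (ENNReal.ofReal (ρ ^ m) * ENNReal.ofReal (ρ ^ n)) := by
    intro m n
    have h1 : ∫⁻ z, min (bE φ L q m z) 1 * bE φ L q n z ≤ ∫⁻ z, bE φ L q n z :=
      lintegral_mono fun z => by
        calc min (bE φ L q m z) 1 * bE φ L q n z ≤ 1 * bE φ L q n z := by
              gcongr
              exact min_le_right _ _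
          _ = _ := one_mul _
    have h2 : ∫⁻ z, min (bE φ L q m z) 1 * bE φ L q n z ≤ ∫⁻ z, 2 ^ n * bE φ L q m z :=
      lintegral_mono fun z => by
        calc min (bE φ L q m z) 1 * bE φ L q n z ≤ bE φ L q m z * 2 ^ n := by
              gcongr
              · exact min_le_left _ _
              · exact bE_le φ L q n z
          _ = _ := mul_comm _ _
    rw [lintegral_const_mul _ (measurable_bE φ L q m), lintegral_bE φ L q hL hq m] at h2
    rw [lintegral_bE φ L q hL hq n] at h1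
    have h3 : (2 : ℝ≥0∞) ^ n = ENNReal.ofReal (2 ^ n) := by
      rw [ENNReal.ofReal_pow (by norm_num)]
      simp
    rw [h3, ← ENNReal.ofReal_mul (by positivity)] at h2
    refine (le_min h1 h2).trans ?_
    rw [← ENNReal.ofReal_mul (by positivity), ← ENNReal.ofReal_mul hA0]
    rw [← ENNReal.ofReal_min]
    apply ENNReal.ofReal_le_ofReal
    have h4 := hρ n m
    have h5 : min (A * (2 * q ^ 2) ^ n) (2 ^ n * (A * (2 * q ^ 2) ^ m)) =
        A * min ((2 * q ^ 2) ^ n) (2 ^ n * (2 * q ^ 2) ^ m) := by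
      rw [mul_min_of_nonneg _ _ hA0]
      congr 1
      ring
    rw [h5]
    refine mul_le_mul_of_nonneg_left (h4.trans (le_of_eq (mul_comm _ _))) hA0
  have hmc : ∀ m, Measurable fun z => min (bE φ L q m z) 1 := fun m =>
    (measurable_bE φ L q m).min measurable_const
  have hB : ∫⁻ z, ∑' n, bE φ L q n z ≠ ⊤ := by
    rw [lintegral_tsum fun n => (measurable_bE φ L q n).aemeasurable]
    refine ne_top_of_le_ne_top ?_ (ENNReal.tsum_le_tsum hb)
    rw [ENNReal.tsum_mul_left]
    exact ENNReal.mul_ne_top ENNReal.ofReal_ne_top hgeom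
  have hC : ∫⁻ z, ∑' n, min (bE φ L q n z) 1 ≠ ⊤ :=
    ne_top_of_le_ne_top hB (lintegral_mono fun z => ENNReal.tsum_le_tsum fun n => min_le_left _ _)
  have hCB : ∫⁻ z, (∑' m, min (bE φ L q m z) 1) * ∑' n, bE φ L q n z ≠ ⊤ := by
    have e : ∀ z, (∑' m, min (bE φ L q m z) 1) * ∑' n, bE φ L q n z =
        ∑' m, ∑' n, min (bE φ L q m z) 1 * bE φ L q n z := by
      intro z
      rw [← ENNReal.tsum_mul_right]
      refine tsum_congr fun m => ?_
      rw [ENNReal.tsum_mul_left]
    simp only [e]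
    have hmcb : ∀ m n, Measurable fun z => min (bE φ L q m z) 1 * bE φ L q n z := fun m n =>
      (hmc m).mul (measurable_bE φ L q n)
    have hmcb2 : ∀ m, Measurable fun z => ∑' n, min (bE φ L q m z) 1 * bE φ L q n z := fun m =>
      Measurable.tsum fun n => hmcb m n
    rw [lintegral_tsum fun m => (hmcb2 m).aemeasurable]
    have h6 : ∀ m, ∫⁻ z, ∑' n, min (bE φ L q m z) 1 * bE φ L q n z ≤
        ENNReal.ofReal A * (ENNReal.ofReal (ρ ^ m) * ∑' n : ℕ, ENNReal.ofReal (ρ ^ n)) := by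
      intro m
      rw [lintegral_tsum fun n => (hmcb m n).aemeasurable]
      refine (ENNReal.tsum_le_tsum (hcb m)).trans (le_of_eq ?_)
      rw [ENNReal.tsum_mul_left, ENNReal.tsum_mul_left]
    refine ne_top_of_le_ne_top ?_ (ENNReal.tsum_le_tsum h6)
    rw [ENNReal.tsum_mul_left, ENNReal.tsum_mul_right]
    exact ENNReal.mul_ne_top ENNReal.ofReal_ne_top (ENNReal.mul_ne_top hgeom hgeom)
  have hHH : ∀ z, HH φ L q z = (1 + ∑' m, min (bE φ L q m z) 1) +
      (2 * ∑' n, bE φ L q n z + 2 * ((∑' m, min (bE φ L q m z) 1) * ∑' n, bE φ L q n z)) := by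
    intro z
    unfold HH
    ring
  simp only [hHH]
  have hmB : Measurable fun z => ∑' n, bE φ L q n z :=
    Measurable.tsum fun n => measurable_bE φ L q n
  have hmC : Measurable fun z => ∑' m, min (bE φ L q m z) 1 := Measurable.tsum hmc
  have hm1 : Measurable fun z => 1 + ∑' m, min (bE φ L q m z) 1 := measurable_const.add hmC
  have hm2 : Measurable fun z => 2 * ∑' n, bE φ L q n z := measurable_const.mul hmB
  have hm3 : Measurable fun z => (∑' m, min (bE φ L q m z) 1) * ∑' n, bE φ L q n z := hmC.mul hmB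
  rw [lintegral_add_left hm1, lintegral_add_left measurable_const,
    lintegral_add_left hm2, lintegral_const_mul _ hmB, lintegral_const_mul _ hm3]
  refine ENNReal.add_ne_top.mpr ⟨ENNReal.add_ne_top.mpr ⟨?_, ?_⟩, ENNReal.add_ne_top.mpr ⟨?_, ?_⟩⟩
  · simp only [lintegral_const, MeasurableSet.univ, Measure.restrict_apply, univ_inter, one_mul]
    exact measure_ball_lt_top.ne
  · exact ne_top_of_le_ne_top hC (setLIntegral_le_lintegral _ _)
  · exact ENNReal.mul_ne_top (by norm_num)
      (ne_top_of_le_ne_top hB (setLIntegral_le_lintegral _ _))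
  · exact ENNReal.mul_ne_top (by norm_num)
      (ne_top_of_le_ne_top hCB (setLIntegral_le_lintegral _ _))

/-- The range of the symbol has area zero. -/
lemma volume_range (φ : CT) (L q : ℝ) (hL : 0 < L) (hq : 0 < q) (hq2 : 2 * q ^ 2 < 1)
    (h : HD (rl φ) L q) : volume (range φ) = 0 := by
  have h1 : ∀ m : ℕ, volume (range φ) ≤ ENNReal.ofReal (4 * Real.pi * L ^ 2 * (2 * q ^ 2) ^ m) := by
    intro m
    rw [← lintegral_bE φ L q hL hq m]
    have hms : MeasurableSet (range φ) := (isCompact_range φ.continuous).isClosed.measurableSet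
    rw [← lintegral_indicator_one hms]
    refine lintegral_mono fun z => ?_
    by_cases hz : z ∈ range φ
    · rw [indicator_of_mem hz]
      obtain ⟨t, rfl⟩ := hz
      obtain ⟨x, hx, rfl⟩ := exists_coe t
      rw [bE_eq]
      have h2 : 1 ≤ bad (fun t => rl φ t - φ (x : UnitAddCircle)) (L * q ^ m) m := by
        unfold bad
        rw [Nat.one_le_iff_ne_zero, Finset.card_ne_zero]
        by_cases hx1 : x = 1
        · refine ⟨0, ?_⟩
          rw [Finset.mem_filter, Finset.mem_range]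
          refine ⟨by positivity, ?_⟩
          have e1 : rl φ (dp m 0) - φ (x : UnitAddCircle) = 0 := by
            have := rl_periodic φ 0
            rw [zero_add] at this
            rw [hx1]
            have e2 : dp m 0 = 0 := by simp [dp]
            rw [e2, ← this]
            exact sub_self _
          show ‖rl φ (dp m 0) - φ (x : UnitAddCircle)‖ ≤ _
          rw [e1, norm_zero]
          positivity
        · obtain ⟨h3, h4⟩ := floor_dp m x hx.1
          refine ⟨⌊x * 2 ^ m⌋₊, ?_⟩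
          rw [Finset.mem_filter, Finset.mem_range]
          refine ⟨?_, ?_⟩
          · rw [Nat.floor_lt (mul_nonneg hx.1 (by positivity))]
            push_cast
            have h5 : (0 : ℝ) < 2 ^ m := by positivity
            have h6 : x < 1 := lt_of_le_of_ne hx.2 hx1
            nlinarith
          · have h5 := h m (dp m ⌊x * 2 ^ m⌋₊) x (by rw [abs_le]; constructor <;> linarith)
            have h6 : 0 < L * q ^ m := by positivity
            have h7 : ‖rl φ (dp m ⌊x * 2 ^ m⌋₊) - φ (x : UnitAddCircle)‖ ≤ L * q ^ m := h5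
            linarith
      have : ((1 : ℕ) : ℝ≥0∞) ≤ (bad (fun t => rl φ t - φ (x : UnitAddCircle)) (L * q ^ m) m : ℕ) := by
        exact_mod_cast h2
      simpa using this
    · rw [indicator_of_notMem hz]
      exact zero_le
  have h2 : Tendsto (fun m : ℕ => ENNReal.ofReal (4 * Real.pi * L ^ 2 * (2 * q ^ 2) ^ m)) atTop
      (𝓝 0) := by
    rw [← ENNReal.ofReal_zero]
    refine (ENNReal.continuous_ofReal.tendsto 0).comp ?_
    have := (tendsto_pow_atTop_nhds_zero_of_lt_one (by positivity) hq2).const_mul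
      (4 * Real.pi * L ^ 2)
    rwa [mul_zero] at this
  exact le_antisymm (ge_of_tendsto' h2 h1) zero_le

end Pool.Agent.Y283.TO
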