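import Mathlib

/-!
Measurability of solutions of `z v - A v = w₀` lying in a separable closed subspace
(Lusin-Souslin).
-/

set_option autoImplicit false

noncomputable section

open MeasureTheory Set Filter Topology Metric

namespace Pool.Agent.Y283.TO

/-- Unique solutions in the closed span of a sequence depend measurably on the parameter. -/
theorem meas_sol {E : Type*} [NormedAddCommGroup E] [NormedSpace ℂ E] [CompleteSpace E]
    (b : ℕ → E) (A : E →L[ℂ] E) (w₀ : E) (D : Set ℂ) (hD : MeasurableSet D) (f : ℂ → E)
    (hf : ∀ z ∈ D, f z ∈ (Submodule.span ℂ (range b)).topologicalClosure)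
    (he : ∀ z ∈ D, z • f z - A (f z) = w₀)
    (hu : ∀ z ∈ D, ∀ v, A v = z • v → v = 0) (μ : Measure ℂ) :
    AEStronglyMeasurable f (μ.restrict D) := by
  classical
  set W : Submodule ℂ E := (Submodule.span ℂ (range b)).topologicalClosure with hW
  have hWc : IsClosed (W : Set E) := Submodule.isClosed_topologicalClosure _
  have : CompleteSpace W := hWc.completeSpace_coe
  have : TopologicalSpace.SeparableSpace W := by
    have h1 : TopologicalSpace.IsSeparable (W : Set E) := by
      rw [hW, Submodule.topologicalClosure_coe]
      exact (TopologicalSpace.IsSeparable.span (R := ℂ)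
        (countable_range b).isSeparable).closure
    exact h1.separableSpace
  have : SecondCountableTopology W := UniformSpace.secondCountable_of_separable W
  let _ : MeasurableSpace W := borel W
  have : BorelSpace W := ⟨rfl⟩
  have : PolishSpace W := inferInstance
  let f' : ℂ → W := fun z => if h : z ∈ D then ⟨f z, hf z h⟩ else 0
  let G : Set (ℂ × W) := {p | p.1 ∈ D ∧ p.1 • (p.2 : E) - A (p.2 : E) = w₀}
  have hG : MeasurableSet G := by
    have h1 : MeasurableSet {p : ℂ × W | p.1 ∈ D} := measurable_fst hD
    have h2 : IsClosed {p : ℂ × W | p.1 • (p.2 : E) - A (p.2 : E) = w₀} := by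
      refine isClosed_eq ?_ continuous_const
      fun_prop
    exact h1.inter h2.measurableSet
  have hinj : InjOn (Prod.fst : ℂ × W → ℂ) G := by
    rintro ⟨z, v⟩ ⟨hz, hv⟩ ⟨z', v'⟩ ⟨hz', hv'⟩ h
    simp only at h hz hv hz' hv'
    subst h
    have h3 : A ((v : E) - v') = z • ((v : E) - v') := by
      rw [map_sub, smul_sub]
      have := hv.trans hv'.symm
      rw [sub_eq_sub_iff_add_eq_add] at this ⊢
      rw [add_comm, ← this, add_comm]
    have h4 := hu z hz _ h3
    have h5 : v = v' := Subtype.ext (sub_eq_zero.mp h4)
    rw [h5]
  have hm : Measurable f' := by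
    intro B hB
    have h1 : f' ⁻¹' B = (Prod.fst '' (G ∩ {p | p.2 ∈ B})) ∪ (Dᶜ ∩ f' ⁻¹' B) := by
      ext z
      constructor
      · intro hz
        by_cases hzD : z ∈ D
        · left
          refine ⟨(z, f' z), ⟨⟨hzD, ?_⟩, hz⟩, rfl⟩
          simp only [f', dif_pos hzD]
          exact he z hzD
        · right
          exact ⟨hzD, hz⟩
      · rintro (⟨⟨z', v⟩, ⟨⟨hzD, hv⟩, hB'⟩, rfl⟩ | ⟨_, h⟩)
        · simp only at hzD hv hB'
          have h3 : A (f z' - (v : E)) = z' • (f z' - (v : E)) := by
            rw [map_sub, smul_sub]
            have := (he z' hzD).trans hv.symm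
            rw [sub_eq_sub_iff_add_eq_add] at this ⊢
            rw [add_comm, ← this, add_comm]
          have h4 := hu z' hzD _ h3
          have h5 : f' z' = v := by
            simp only [f', dif_pos hzD]
            exact Subtype.ext (sub_eq_zero.mp h4)
          simp only [mem_preimage, h5]
          exact hB'
        · exact h
    rw [h1]
    refine MeasurableSet.union ?_ ?_
    · exact (hG.inter (measurable_snd hB)).image_of_measurable_injOn measurable_fst
        (hinj.mono inter_subset_left)
    · by_cases h0 : (0 : W) ∈ B
      · have : Dᶜ ∩ f' ⁻¹' B = Dᶜ := by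
          ext z
          simp only [mem_inter_iff, mem_compl_iff, mem_preimage, and_iff_left_iff_imp]
          intro hz
          simp only [f', dif_neg hz]
          exact h0
        rw [this]
        exact hD.compl
      · have : Dᶜ ∩ f' ⁻¹' B = ∅ := by
          ext z
          simp only [mem_inter_iff, mem_compl_iff, mem_preimage, mem_empty_iff_false, iff_false,
            not_and]
          intro hz
          simp only [f', dif_neg hz]
          exact h0
        rw [this]
        exact MeasurableSet.empty
  refine ⟨fun z => (f' z : E), (continuous_subtype_val.comp_stronglyMeasurable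
    hm.stronglyMeasurable), ?_⟩
  filter_upwards [ae_restrict_mem hD] with z hz
  simp only [f', dif_pos hz]

end Pool.Agent.Y283.TO
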