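import Mathlib
import Pool.Agent.Y283.TO.Quant
import Pool.Agent.W15.HY.CIRC

/-!
The potential lemma: near a point of the curve the exponential of minus the logarithmic potential
is not the modulus of a holomorphic function.
-/

set_option autoImplicit false

noncomputable section

open MeasureTheory AddCircle Set Filter Topology Metric Real
open scoped ENNReal

namespace Pool.Agent.Y283.TO

/-- Jensen's inequality for a holomorphic function -/
lemma jensen_le (Φ : ℂ → ℂ) (p : ℂ) (δ : ℝ) (w : ℂ) (r : ℝ) (hr : 0 < r)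
    (hΦ : DifferentiableOn ℂ Φ (ball p δ)) (hsub : closedBall w r ⊆ ball p δ) (hw : Φ w ≠ 0) :
    Real.log ‖Φ w‖ ≤ circleAverage (fun z => Real.log ‖Φ z‖) w r := by
  have hra : |r| = r := abs_of_pos hr
  have ha : AnalyticOnNhd ℂ Φ (closedBall w |r|) := by
    rw [hra]
    exact (hΦ.analyticOnNhd isOpen_ball).mono hsub
  rw [ha.circleAverage_log_norm hr.ne' hw]
  have : 0 ≤ ∑ᶠ u, (MeromorphicOn.divisor Φ (closedBall w |r|) u : ℝ) *
      Real.log (r * ‖w - u‖⁻¹) := by
    refine finsum_nonneg fun u => ?_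
    by_cases hu : u ∈ closedBall w |r|
    · refine mul_nonneg (by exact_mod_cast MeromorphicOn.AnalyticOnNhd.divisor_nonneg ha u) ?_
      by_cases hwu : ‖w - u‖ = 0
      · rw [hwu]; simp
      · refine Real.log_nonneg ?_
        rw [hra, mem_closedBall, dist_comm, dist_eq_norm] at hu
        have h0 : 0 < ‖w - u‖ := lt_of_le_of_ne (norm_nonneg _) (Ne.symm hwu)
        rw [← div_eq_mul_inv, one_le_div h0]
        exact hu
    · rw [Function.locallyFinsuppWithin.apply_eq_zero_of_notMem _ hu]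
      simp
  linarith

lemma circle_int_analytic (Φ : ℂ → ℂ) (p : ℂ) (δ : ℝ) (w : ℂ) (r : ℝ) (hr : 0 < r)
    (hΦ : DifferentiableOn ℂ Φ (ball p δ)) (hsub : closedBall w r ⊆ ball p δ) :
    CircleIntegrable (fun z => Real.log ‖Φ z‖) w r := by
  have ha : AnalyticOnNhd ℂ Φ (sphere w |r|) := by
    rw [abs_of_pos hr]
    exact (hΦ.analyticOnNhd isOpen_ball).mono (sphere_subset_closedBall.trans hsub)
  exact ha.meromorphicOn.circleIntegrable_log_norm

/-- for a null set almost all circles meet it in a null set -/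
lemma ae_circle (S : Set ℂ) (hS : MeasurableSet S) (h0 : volume S = 0) (w : ℂ) :
    ∀ᵐ r ∂(volume.restrict (Ioi (0:ℝ))),
      ∀ᵐ θ ∂(volume.restrict (Ioc (0:ℝ) (2 * Real.pi))), circleMap w r θ ∉ S := by
  set m : ℂ → ℝ≥0∞ := S.indicator 1 with hm
  have hmm : Measurable m := measurable_one.indicator hS
  set g : ℂ → ℝ≥0∞ := fun z => m (w + z) with hg
  have hgm : Measurable g := hmm.comp (measurable_const_add w)
  have h1 : ∫⁻ z, g z = 0 := by
    rw [hg, lintegral_add_left_eq_self m w, hm, lintegral_indicator_one hS, h0]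
  have hcont : Continuous fun q : ℝ × ℝ => Complex.polarCoord.symm q := by
    simp only [Complex.polarCoord_symm_apply]
    fun_prop
  have hmeas : Measurable fun q : ℝ × ℝ => ENNReal.ofReal q.1 • g (Complex.polarCoord.symm q) := by
    simp only [smul_eq_mul]
    exact (ENNReal.measurable_ofReal.comp measurable_fst).mul (hgm.comp hcont.measurable)
  have h2 := Complex.lintegral_comp_polarCoord_symm g
  rw [polarCoord_target, Measure.volume_eq_prod, ← Measure.prod_restrict,
    lintegral_prod _ hmeas.aemeasurable, h1] at h2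
  rw [lintegral_eq_zero_iff (hmeas.lintegral_prod_right' (ν := volume.restrict (Ioo (-Real.pi) Real.pi)))] at h2
  filter_upwards [h2, ae_restrict_mem measurableSet_Ioi] with r hr hr0
  have h6 : ∀ y : ℝ, g (Complex.polarCoord.symm (r, y)) = m (circleMap w r y) := by
    intro y
    have e1 : Complex.polarCoord.symm (r, y) = r * Complex.exp (y * Complex.I) := by
      rw [Complex.polarCoord_symm_apply, Complex.exp_mul_I]
      simp
    rw [e1, hg]
    rfl
  have h7 : ∀ y : ℝ, ENNReal.ofReal r • g (Complex.polarCoord.symm (r, y)) =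
      ENNReal.ofReal r * m (circleMap w r y) := fun y => by rw [h6, smul_eq_mul]
  simp only [h7, Pi.zero_apply] at hr
  have hcm : Measurable fun y : ℝ => m (circleMap w r y) :=
    hmm.comp (continuous_circleMap w r).measurable
  rw [lintegral_const_mul _ hcm] at hr
  have hr1 : ∫⁻ y in Ioo (-Real.pi) Real.pi, m (circleMap w r y) = 0 := by
    rcases mul_eq_zero.mp hr with h | h
    · exact absurd h (ENNReal.ofReal_pos.mpr hr0).ne'
    · exact h
  rw [← Pool.Agent.W15.HY.CIRC.shift (fun θ => m (circleMap w r θ)) (fun θ => by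
    show m (circleMap w r (θ + 2 * Real.pi)) = _
    rw [periodic_circleMap w r θ]), lintegral_eq_zero_iff hcm] at hr1
  filter_upwards [hr1] with θ hθ
  intro hmem
  rw [hm] at hθ
  simp [indicator_of_mem hmem] at hθ

/-- the value of the circle average of the logarithm -/
def Mx (r : ℝ) (w a : ℂ) : ℝ := Real.log r + Real.posLog (r⁻¹ * ‖w - a‖)

lemma Mx_eq (r : ℝ) (hr : 0 < r) (w a : ℂ) :
    circleAverage (fun z => Real.log ‖z - a‖) w r = Mx r w a :=
  circleAverage_log_norm_sub_const_eq_log_radius_add_posLog hr.ne'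

lemma Mx_ge {r : ℝ} (hr : 0 < r) {w a : ℂ} (h : a ≠ w) : Real.log ‖a - w‖ ≤ Mx r w a := by
  have h0 : 0 < ‖w - a‖ := norm_pos_iff.mpr (sub_ne_zero.mpr h.symm)
  have e : Real.log ‖a - w‖ = Real.log r + Real.log (r⁻¹ * ‖w - a‖) := by
    rw [Real.log_mul (inv_pos.mpr hr).ne' h0.ne', Real.log_inv, norm_sub_rev]
    ring
  rw [e, Mx]
  have : Real.log (r⁻¹ * ‖w - a‖) ≤ Real.posLog (r⁻¹ * ‖w - a‖) := le_max_right _ _
  linarith

lemma Mx_gt {r : ℝ} {w a : ℂ} (h : a ≠ w) (h2 : ‖a - w‖ < r) :
    Real.log ‖a - w‖ < Mx r w a := by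
  have h0 : 0 < ‖a - w‖ := norm_pos_iff.mpr (sub_ne_zero.mpr h)
  have h1 : Real.log ‖a - w‖ < Real.log r := Real.log_lt_log h0 h2
  have h3 : 0 ≤ Real.posLog (r⁻¹ * ‖w - a‖) := Real.posLog_nonneg
  rw [Mx]
  linarith

lemma Mx_continuous (φ : CT) (r : ℝ) (w : ℂ) : Continuous fun t => Mx r w (φ t) := by
  unfold Mx
  refine continuous_const.add (Real.continuous_posLog.comp ?_)
  fun_prop

/-- the circle mean of the potential, by Tonelli -/
lemma tonelli (φ : CT) (w : ℂ) (r : ℝ) (hr : 0 < r) (Ψ : ℂ → ℝ) (hΨ : CircleIntegrable Ψ w r)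
    (h : ∀ᵐ θ ∂(volume.restrict (Ioc (0:ℝ) (2 * Real.pi))),
      (∀ t, φ t ≠ circleMap w r θ) ∧ Ψ (circleMap w r θ) = - pot φ (circleMap w r θ)) :
    circleAverage Ψ w r = - ∫ t, Mx r w (φ t) ∂haarAddCircle := by
  have hpi : (0:ℝ) < 2 * Real.pi := by positivity
  set R' : ℝ := 1 + ‖φ‖ + ‖w‖ + r with hR'
  have hR1 : 1 ≤ R' := by rw [hR']; linarith [norm_nonneg φ, norm_nonneg w]
  set L : ℝ := Real.log R' with hL
  have hL0 : 0 ≤ L := Real.log_nonneg hR1
  set F : ℝ → UnitAddCircle → ℝ := fun θ t => L - Real.log ‖φ t - circleMap w r θ‖ with hF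
  have hFnn : ∀ θ t, 0 ≤ F θ t := by
    intro θ t
    rw [hF]
    have hb : ‖φ t - circleMap w r θ‖ ≤ R' := by
      have h1 : ‖φ t‖ ≤ ‖φ‖ := φ.norm_coe_le_norm t
      have h2 : ‖circleMap w r θ‖ ≤ ‖w‖ + r := by
        rw [circleMap]
        refine (norm_add_le _ _).trans ?_
        rw [norm_mul, Complex.norm_exp_ofReal_mul_I, mul_one, Complex.norm_real,
          Real.norm_eq_abs, abs_of_pos hr]
      have h3 := norm_sub_le (φ t) (circleMap w r θ)
      rw [hR']; linarith
    have : Real.log ‖φ t - circleMap w r θ‖ ≤ L := by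
      rcases eq_or_lt_of_le (norm_nonneg (φ t - circleMap w r θ)) with h0 | h0
      · rw [← h0, Real.log_zero]; exact hL0
      · exact Real.log_le_log h0 hb
    linarith
  have hFm : Measurable (Function.uncurry F) := by
    rw [hF]
    refine measurable_const.sub (Real.measurable_log.comp ?_)
    have hc : Continuous fun q : ℝ × UnitAddCircle => ‖φ q.2 - circleMap w r q.1‖ := by
      fun_prop
    exact hc.measurable
  -- inner integral over the angle
  have hci : ∀ a : ℂ, CircleIntegrable (fun z => Real.log ‖z - a‖) w r := fun a =>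
    (MeromorphicOn.circleIntegrable_log_norm (f := fun z => z - a) (fun _ _ => by fun_prop))
  have hA : ∀ t, (∫⁻ θ in Ioc (0:ℝ) (2 * Real.pi), ENNReal.ofReal (F θ t)) =
      ENNReal.ofReal (2 * Real.pi * (L - Mx r w (φ t))) ∧ 0 ≤ 2 * Real.pi * (L - Mx r w (φ t)) := by
    intro t
    have hi : IntegrableOn (fun θ => Real.log ‖circleMap w r θ - φ t‖) (Ioc (0:ℝ) (2 * Real.pi)) := by
      have := hci (φ t)
      unfold CircleIntegrable at this
      rwa [intervalIntegrable_iff_integrableOn_Ioc_of_le hpi.le] at this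
    have he : ∀ θ, F θ t = L - Real.log ‖circleMap w r θ - φ t‖ := fun θ => by
      rw [hF]; simp only [norm_sub_rev]
    have hi2 : IntegrableOn (fun θ => F θ t) (Ioc (0:ℝ) (2 * Real.pi)) := by
      simp only [he]
      exact (integrable_const L).sub hi
    have hv : ∫ θ in Ioc (0:ℝ) (2 * Real.pi), F θ t = 2 * Real.pi * (L - Mx r w (φ t)) := by
      simp only [he]
      rw [integral_sub (integrable_const L) hi, ← Mx_eq r hr, circleAverage_def,
        intervalIntegral.integral_of_le hpi.le]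
      simp only [integral_const, smul_eq_mul, Real.volume_real_Ioc_of_le hpi.le,
        measureReal_restrict_apply_univ, sub_zero]
      field_simp
    constructor
    · rw [← hv, ofReal_integral_eq_lintegral_ofReal hi2 (ae_of_all _ fun θ => hFnn θ t)]
    · rw [← hv]
      exact integral_nonneg fun θ => hFnn θ t
  have hB : ∀ᵐ θ ∂(volume.restrict (Ioc (0:ℝ) (2 * Real.pi))),
      (∫⁻ t, ENNReal.ofReal (F θ t) ∂haarAddCircle) = ENNReal.ofReal (L + Ψ (circleMap w r θ)) ∧
        0 ≤ L + Ψ (circleMap w r θ) := by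
    filter_upwards [h] with θ hθ
    obtain ⟨h1, h2⟩ := hθ
    have hc : Continuous fun t => Real.log ‖φ t - circleMap w r θ‖ := by
      refine Continuous.log (by fun_prop) fun t => ?_
      exact norm_ne_zero_iff.mpr (sub_ne_zero.mpr (h1 t))
    have hi : Integrable (fun t => Real.log ‖φ t - circleMap w r θ‖) (haarAddCircle (T := (1:ℝ))) :=
      hc.integrable_of_hasCompactSupport (HasCompactSupport.of_compactSpace _)
    have hi2 : Integrable (fun t => F θ t) (haarAddCircle (T := (1:ℝ))) :=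
      (integrable_const L).sub hi
    have hv : ∫ t, F θ t ∂haarAddCircle = L + Ψ (circleMap w r θ) := by
      rw [hF]
      simp only []
      rw [integral_sub (integrable_const L) hi, h2, pot]
      simp
      ring
    constructor
    · rw [← hv, ofReal_integral_eq_lintegral_ofReal hi2 (ae_of_all _ fun t => hFnn θ t)]
    · rw [← hv]
      exact integral_nonneg fun t => hFnn θ t
  have hT : (∫⁻ θ in Ioc (0:ℝ) (2 * Real.pi), ∫⁻ t, ENNReal.ofReal (F θ t) ∂haarAddCircle) =
      ∫⁻ t, (∫⁻ θ in Ioc (0:ℝ) (2 * Real.pi), ENNReal.ofReal (F θ t)) ∂haarAddCircle :=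
    lintegral_lintegral_swap (ENNReal.measurable_ofReal.comp hFm).aemeasurable
  have hΨi : IntegrableOn (fun θ => Ψ (circleMap w r θ)) (Ioc (0:ℝ) (2 * Real.pi)) := by
    unfold CircleIntegrable at hΨ
    rwa [intervalIntegrable_iff_integrableOn_Ioc_of_le hpi.le] at hΨ
  have hC : (∫⁻ θ in Ioc (0:ℝ) (2 * Real.pi), ∫⁻ t, ENNReal.ofReal (F θ t) ∂haarAddCircle) =
      ENNReal.ofReal (2 * Real.pi * (L + circleAverage Ψ w r)) := by
    have hint : Integrable (fun θ => L + Ψ (circleMap w r θ))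
        (volume.restrict (Ioc (0:ℝ) (2 * Real.pi))) := (integrable_const L).add hΨi
    rw [lintegral_congr_ae (hB.mono fun θ hθ => hθ.1),
      ← ofReal_integral_eq_lintegral_ofReal hint (hB.mono fun θ hθ => hθ.2)]
    congr 1
    rw [integral_add (integrable_const L) hΨi, circleAverage_def,
      intervalIntegral.integral_of_le hpi.le]
    simp only [integral_const, smul_eq_mul, Real.volume_real_Ioc_of_le hpi.le,
        measureReal_restrict_apply_univ, sub_zero]
    field_simp
  have hC0 : 0 ≤ 2 * Real.pi * (L + circleAverage Ψ w r) := by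
    have h1 : 0 ≤ ∫ θ in Ioc (0:ℝ) (2 * Real.pi), (L + Ψ (circleMap w r θ)) :=
      integral_nonneg_of_ae (hB.mono fun θ hθ => hθ.2)
    rw [integral_add (integrable_const L) hΨi] at h1
    rw [circleAverage_def, intervalIntegral.integral_of_le hpi.le]
    simp only [integral_const, smul_eq_mul, Real.volume_real_Ioc_of_le hpi.le,
        measureReal_restrict_apply_univ, sub_zero] at h1 ⊢
    have e : 2 * Real.pi * (L + (2 * Real.pi)⁻¹ *
      ∫ θ in Ioc (0:ℝ) (2 * Real.pi), Ψ (circleMap w r θ)) = 2 * Real.pi * L +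
      ∫ θ in Ioc (0:ℝ) (2 * Real.pi), Ψ (circleMap w r θ) := by field_simp
    rw [e]
    exact h1
  have hMi : Integrable (fun t => Mx r w (φ t)) (haarAddCircle (T := (1:ℝ))) :=
    (Mx_continuous φ r w).integrable_of_hasCompactSupport (HasCompactSupport.of_compactSpace _)
  have hMi2 : Integrable (fun t => 2 * Real.pi * (L - Mx r w (φ t))) (haarAddCircle (T := (1:ℝ))) :=
    ((integrable_const L).sub hMi).const_mul _
  have hDv : ∫ t, 2 * Real.pi * (L - Mx r w (φ t)) ∂haarAddCircle =
      2 * Real.pi * (L - ∫ t, Mx r w (φ t) ∂haarAddCircle) := by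
    rw [integral_const_mul, integral_sub (integrable_const L) hMi]
    simp
  have hD : (∫⁻ t, (∫⁻ θ in Ioc (0:ℝ) (2 * Real.pi), ENNReal.ofReal (F θ t)) ∂haarAddCircle) =
      ENNReal.ofReal (2 * Real.pi * (L - ∫ t, Mx r w (φ t) ∂haarAddCircle)) := by
    rw [lintegral_congr fun t => (hA t).1, ← hDv,
      ofReal_integral_eq_lintegral_ofReal hMi2 (ae_of_all _ fun t => (hA t).2)]
  have hD0 : 0 ≤ 2 * Real.pi * (L - ∫ t, Mx r w (φ t) ∂haarAddCircle) := by
    rw [← hDv]
    exact integral_nonneg fun t => (hA t).2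
  rw [hC, hD, ENNReal.ofReal_eq_ofReal_iff hC0 hD0] at hT
  have := mul_left_cancel₀ hpi.ne' hT
  linarith

/-- the potential lemma -/
theorem pot_lemma (φ : CT) (hφ : volume (range φ) = 0) (p : ℂ) (hp : p ∈ range φ) (δ : ℝ)
    (hδ : 0 < δ) (Φ : ℂ → ℂ) (hΦ : DifferentiableOn ℂ Φ (ball p δ))
    (h : ∀ z ∈ ball p δ, (∀ t, φ t ≠ z) → ‖Φ z‖ = Real.exp (- pot φ z)) : False := by
  have hcr : IsCompact (range φ) := isCompact_range φ.continuous
  have hmr : MeasurableSet (range φ) := hcr.isClosed.measurableSet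
  have hdens : Dense ((range φ)ᶜ) := by
    have h1 : ∀ᵐ z ∂(volume : Measure ℂ), z ∈ (range φ)ᶜ := compl_mem_ae_iff.mpr hφ
    exact Measure.dense_of_ae h1
  obtain ⟨w, hw, hwb⟩ := hdens.exists_mem_open (isOpen_ball (x := p) (ε := δ / 4))
    ⟨p, mem_ball_self (by linarith)⟩
  rw [mem_ball, dist_eq_norm] at hwb
  have hae := ae_circle (range φ) hmr hφ w
  have hex : ∃ r ∈ Ioo (δ / 4) (δ / 2), ∀ᵐ θ ∂(volume.restrict (Ioc (0:ℝ) (2 * Real.pi))),
      circleMap w r θ ∉ range φ := by
    by_contra hcon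
    push Not at hcon
    rw [ae_restrict_iff' measurableSet_Ioi, ae_iff] at hae
    have h5 : volume (Ioo (δ / 4) (δ / 2)) = 0 := by
      refine measure_mono_null ?_ hae
      intro r hr
      simp only [mem_ofPred_eq, Classical.not_imp]
      refine ⟨lt_trans (by positivity) hr.1, ?_⟩
      exact hcon r hr
    rw [Real.volume_Ioo, ENNReal.ofReal_eq_zero] at h5
    linarith
  obtain ⟨r, hr, hrθ⟩ := hex
  have hr0 : 0 < r := lt_trans (by positivity) hr.1
  have hsub : closedBall w r ⊆ ball p δ := by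
    intro z hz
    rw [mem_closedBall] at hz
    rw [mem_ball]
    have h1 := dist_triangle z w p
    have h2 : dist w p < δ / 4 := by rw [dist_eq_norm]; exact hwb
    linarith [hr.2]
  have hwt : ∀ t, φ t ≠ w := fun t ht => hw ⟨t, ht⟩
  have hwn : ‖Φ w‖ = Real.exp (- pot φ w) :=
    h w (hsub (mem_closedBall_self hr0.le)) hwt
  have hw0 : Φ w ≠ 0 := by
    intro h0
    rw [h0, norm_zero] at hwn
    exact (Real.exp_pos _).ne hwn
  have hj := jensen_le Φ p δ w r hr0 hΦ hsub hw0
  have hT := tonelli φ w r hr0 (fun z => Real.log ‖Φ z‖)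
    (circle_int_analytic Φ p δ w r hr0 hΦ hsub) (by
      filter_upwards [hrθ] with θ hθ
      have h1 : ∀ t, φ t ≠ circleMap w r θ := fun t ht => hθ ⟨t, ht⟩
      refine ⟨h1, ?_⟩
      have h2 : circleMap w r θ ∈ ball p δ :=
        hsub (circleMap_mem_closedBall w hr0.le θ)
      rw [h _ h2 h1, Real.log_exp])
  rw [hT, hwn, Real.log_exp, pot] at hj
  have hc : Continuous fun t => Real.log ‖φ t - w‖ := by
    refine Continuous.log (by fun_prop) fun t => ?_
    exact norm_ne_zero_iff.mpr (sub_ne_zero.mpr (hwt t))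
  have hcM := Mx_continuous φ r w
  obtain ⟨t₀, ht₀⟩ := hp
  have hpos : 0 < ∫ t, (Mx r w (φ t) - Real.log ‖φ t - w‖) ∂haarAddCircle := by
    refine (hcM.sub hc).integral_pos_of_hasCompactSupport_nonneg_nonzero
      (HasCompactSupport.of_compactSpace _) (fun t => sub_nonneg.mpr (Mx_ge hr0 (hwt t)))
      (x := t₀) ?_
    refine (sub_pos.mpr (Mx_gt (hwt t₀) ?_)).ne'
    rw [ht₀, norm_sub_rev]
    exact hwb.trans hr.1
  rw [integral_sub (hcM.integrable_of_hasCompactSupport (HasCompactSupport.of_compactSpace _))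
    (hc.integrable_of_hasCompactSupport (HasCompactSupport.of_compactSpace _))] at hpos
  linarith

end Pool.Agent.Y283.TO
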