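import Mathlib
import Pool.Agent.Y283.TO.Pot
import Pool.Agent.Y283.TO.Area
import Pool.Agent.Y283.TO.Meas

/-!
Toeplitz operators with respect to a bounded biorthogonal system.
-/

set_option autoImplicit false

noncomputable section

open MeasureTheory AddCircle Set Filter Topology Metric
open scoped ENNReal

namespace Pool.Agent.Y283.TO

/-- the first clean level is dominated by `HH` -/
lemma exists_level (φ : CT) (L q : ℝ) (hL : 0 < L) (hq : 0 < q) (hq1 : q < 1) (z : ℂ)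
    (hz : ∀ t, φ t ≠ z) :
    ∃ n, Clean (fun t => rl φ t - z) (L * q ^ n) n ∧
      ENNReal.ofReal ((n + 1) * (1 + n + bt φ z L q n)) ≤ HH φ L q z := by
  classical
  have hex : ∃ n, Clean (fun t => rl φ t - z) (L * q ^ n) n := by
    obtain ⟨δ, hδ, h1⟩ := exists_lower (φ - algebraMap ℂ CT z) (fun t => sub_ne_zero.mpr (hz t))
    exact exists_clean (fun t => rl φ t - z) L q δ hL hq hq1 hδ (fun t => h1 _)
  refine ⟨Nat.find hex, Nat.find_spec hex, ?_⟩
  set n := Nat.find hex with hn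
  have hone : ∀ m ∈ Finset.range n, (1 : ℝ≥0∞) ≤ bE φ L q m z := by
    intro m hm
    rw [bE_eq]
    have h1 := Nat.find_min hex (Finset.mem_range.mp hm)
    rw [clean_iff] at h1
    exact_mod_cast Nat.one_le_iff_ne_zero.mpr h1
  have h1 : (n : ℝ≥0∞) ≤ ∑' m, min (bE φ L q m z) 1 := by
    calc (n : ℝ≥0∞) = ∑ m ∈ Finset.range n, (1:ℝ≥0∞) := by simp
      _ ≤ ∑ m ∈ Finset.range n, min (bE φ L q m z) 1 :=
        Finset.sum_le_sum fun m hm => le_min (hone m hm) le_rfl
      _ ≤ _ := ENNReal.sum_le_tsum _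
  have h2 : (n : ℝ≥0∞) ≤ ∑' m, bE φ L q m z :=
    h1.trans (ENNReal.tsum_le_tsum fun m => min_le_left _ _)
  have h3 : ENNReal.ofReal (bt φ z L q n) ≤ ∑' m, bE φ L q m z := by
    unfold bt
    rw [ENNReal.ofReal_sum_of_nonneg (fun _ _ => Nat.cast_nonneg _)]
    refine le_trans (le_of_eq ?_) (ENNReal.sum_le_tsum (Finset.range n))
    refine Finset.sum_congr rfl fun m _ => ?_
    rw [bE_eq, ENNReal.ofReal_natCast]
  have hbt := bt_nonneg φ z L q n
  have e : ENNReal.ofReal ((n + 1) * (1 + n + bt φ z L q n)) =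
      (1 + (n : ℝ≥0∞)) * (1 + n + ENNReal.ofReal (bt φ z L q n)) := by
    rw [ENNReal.ofReal_mul (by positivity), ENNReal.ofReal_add (by positivity) hbt,
      ENNReal.ofReal_add (by norm_num) (by positivity), ENNReal.ofReal_add (by positivity) (by norm_num),
      ENNReal.ofReal_one, ENNReal.ofReal_natCast, add_comm (n : ℝ≥0∞) 1]
  rw [e]
  unfold HH
  refine mul_le_mul' (add_le_add le_rfl h1) ?_
  rw [two_mul, add_assoc]
  exact add_le_add le_rfl (add_le_add h2 h3)

/-- A bounded biorthogonal system in which `A` has the Toeplitz matrix of `ψ`. -/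
structure Sys {E : Type*} [NormedAddCommGroup E] [NormedSpace ℂ E] (b : ℕ → E)
    (τ : ℕ → E →L[ℂ] ℂ) (A : E →L[ℂ] E) (ψ : CT) (K : ℝ) : Prop where
  bd : ∀ n, ‖b n‖ ≤ K
  bi : ∀ i j, τ i (b j) = if i = j then 1 else 0
  tot : ∀ v, (∀ i, τ i v = 0) → v = 0
  mat : ∀ i j : ℕ, τ i (A (b j)) = ft ((i : ℤ) - j) ψ

variable {E : Type*} [NormedAddCommGroup E] [NormedSpace ℂ E] [CompleteSpace E]

/-- the vector with given absolutely summable coordinates -/
def sv (b : ℕ → E) (u : ℕ → ℂ) : E := ∑' j, u j • b j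

variable {b : ℕ → E} {τ : ℕ → E →L[ℂ] ℂ} {A : E →L[ℂ] E} {ψ : CT} {K : ℝ}

lemma sv_norm_le (hS : Sys b τ A ψ K) (u : ℕ → ℂ) (j : ℕ) : ‖u j • b j‖ ≤ K * ‖u j‖ := by
  rw [norm_smul, mul_comm]
  exact mul_le_mul_of_nonneg_right (hS.bd j) (norm_nonneg _)

lemma sv_hasSum (hS : Sys b τ A ψ K) (u : ℕ → ℂ) (hu : Summable fun j => ‖u j‖) :
    HasSum (fun j => u j • b j) (sv b u) :=
  (Summable.of_norm_bounded (hu.mul_left K) (sv_norm_le hS u)).hasSum

lemma sv_norm (hS : Sys b τ A ψ K) (u : ℕ → ℂ) (hu : Summable fun j => ‖u j‖) :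
    ‖sv b u‖ ≤ K * ∑' j, ‖u j‖ := by
  rw [← tsum_mul_left]
  exact tsum_of_norm_bounded (hu.mul_left K).hasSum (sv_norm_le hS u)

lemma sv_mem (hS : Sys b τ A ψ K) (u : ℕ → ℂ) (hu : Summable fun j => ‖u j‖) :
    sv b u ∈ (Submodule.span ℂ (range b)).topologicalClosure := by
  refine (Submodule.isClosed_topologicalClosure _).mem_of_tendsto (sv_hasSum hS u hu)
    (Eventually.of_forall fun s => ?_)
  refine Submodule.le_topologicalClosure _ ?_
  exact Submodule.sum_mem _ fun j _ =>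
    Submodule.smul_mem _ _ (Submodule.subset_span (mem_range_self j))

lemma sv_coord (hS : Sys b τ A ψ K) (u : ℕ → ℂ) (hu : Summable fun j => ‖u j‖) (i : ℕ) :
    τ i (sv b u) = u i := by
  have h1 := (τ i).hasSum (sv_hasSum hS u hu)
  refine h1.unique ?_
  have h2 : (fun j => (τ i) (u j • b j)) = fun j => if j = i then u i else 0 := by
    funext j
    rw [map_smul, hS.bi, smul_eq_mul]
    by_cases hij : j = i
    · rw [if_pos hij.symm, if_pos hij, hij, mul_one]
    · rw [if_neg (Ne.symm hij), if_neg hij, mul_zero]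
  rw [h2]
  exact hasSum_ite_eq i (u i)

lemma sv_A (hS : Sys b τ A ψ K) (u : ℕ → ℂ) (hu : Summable fun j => ‖u j‖) (i : ℕ) :
    HasSum (fun j : ℕ => ft ((i : ℤ) - j) ψ * u j) (τ i (A (sv b u))) := by
  have h1 := ((τ i).comp A).hasSum (sv_hasSum hS u hu)
  have h2 : (fun j => ((τ i).comp A) (u j • b j)) = fun j : ℕ => ft ((i : ℤ) - j) ψ * u j := by
    funext j
    rw [map_smul, ContinuousLinearMap.comp_apply, hS.mat, smul_eq_mul, mul_comm]
  rw [h2] at h1
  exact h1

lemma sys_eig (hS : Sys b τ A ψ K) (z : ℂ) (h : Eig ψ z) : ∃ v, v ≠ 0 ∧ A v = z • v := by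
  obtain ⟨u, hu, hu0, he⟩ := h
  refine ⟨sv b u, ?_, ?_⟩
  · intro h0
    have := sv_coord hS u hu 0
    rw [h0, map_zero] at this
    exact hu0 this.symm
  · rw [← sub_eq_zero]
    refine hS.tot _ fun i => ?_
    rw [map_sub, map_smul, sv_coord hS u hu i, (sv_A hS u hu i).unique (he i), smul_eq_mul,
      sub_self]

lemma sys_sol (hS : Sys b τ A ψ K) (z : ℂ) (u : ℕ → ℂ) (h : Sol ψ z u) :
    z • sv b u - A (sv b u) = b 0 := by
  obtain ⟨hu, he⟩ := h
  rw [← sub_eq_zero]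
  refine hS.tot _ fun i => ?_
  rw [map_sub, map_sub, map_smul, sv_coord hS u hu i, (sv_A hS u hu i).unique (he i), hS.bi,
    smul_eq_mul]
  ring

/-- One side of the argument: a measurable local resolvent with integrable logarithm, whose local
spectrum contains the range of the symbol. -/
theorem side (hS : Sys b τ A ψ K) (L q : ℝ) (hL : 0 < L) (hq : 1 / 2 ≤ q) (hq2 : 2 * q ^ 2 < 1)
    (hψ : HD (rl ψ) L q) (hinj : ∀ (z : ℂ) (v : E), A v = z • v → v = 0)
    (hne : ∀ z, ¬ Eig (rf ψ) z) (R : ℝ) :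
    ∃ f : ℂ → E, AEStronglyMeasurable f (volume.restrict (ball 0 R)) ∧
      (∀ᵐ z ∂(volume.restrict (ball (0:ℂ) R)), z • f z - A (f z) = b 0) ∧
      IntegrableOn (fun z : ℂ => Real.posLog ‖f z‖) (ball 0 R) ∧
      ∀ p ∈ range ψ, ¬ ∃ (δ : ℝ) (F : ℂ → E), 0 < δ ∧ DifferentiableOn ℂ F (ball p δ) ∧
        ∀ z ∈ ball p δ, z • F z - A (F z) = b 0 := by
  classical
  have hq0 : 0 < q := by linarith
  have hq1 : q < 1 := by nlinarith
  have hvol := volume_range ψ L q hL hq0 hq2 hψ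
  have hmr : MeasurableSet (range ψ) := (isCompact_range ψ.continuous).isClosed.measurableSet
  -- solutions for every point off the curve
  have hsolR : ∀ R : ℝ, ∃ C : ℝ, 0 ≤ C ∧ ∀ z : ℂ, ‖z‖ ≤ R → (∀ t, ψ t ≠ z) →
      ∃ u, Sol ψ z u ∧ ‖u 0‖ = Real.exp (-pot ψ z) ∧
        ENNReal.ofReal (Real.posLog (∑' j, ‖u j‖)) ≤ ENNReal.ofReal C * HH ψ L q z := by
    intro R
    obtain ⟨C, hC, hQ⟩ := quant ψ L q hL hq hq2 hψ R
    refine ⟨C, hC, fun z hz hzψ => ?_⟩
    rcases hQ z hz hzψ with h | h | h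
    · obtain ⟨v, hv, hAv⟩ := sys_eig hS z h
      exact absurd (hinj z v hAv) hv
    · exact absurd h (hne z)
    · obtain ⟨n, hn, hnH⟩ := exists_level ψ L q hL hq0 hq1 z hzψ
      obtain ⟨u, h1, h2, h3⟩ := h n hn
      refine ⟨u, h1, h2, ?_⟩
      refine (ENNReal.ofReal_le_ofReal h3).trans ?_
      rw [ENNReal.ofReal_mul hC]
      exact mul_le_mul' le_rfl hnH
  obtain ⟨C, hC, hsol⟩ := hsolR R
  have huniq : ∀ (z : ℂ) (v w : E), z • v - A v = b 0 → z • w - A w = b 0 → v = w := by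
    intro z v w hv hw
    have h3 : A (v - w) = z • (v - w) := by
      rw [map_sub, smul_sub]
      have h4 := hv.trans hw.symm
      rw [sub_eq_sub_iff_add_eq_add] at h4 ⊢
      rw [add_comm, ← h4, add_comm]
    exact sub_eq_zero.mp (hinj z _ h3)
  set D : Set ℂ := ball 0 R \ range ψ with hD
  have hDm : MeasurableSet D := measurableSet_ball.diff hmr
  have hDsol : ∀ z ∈ D, ∃ u, Sol ψ z u ∧ ‖u 0‖ = Real.exp (-pot ψ z) ∧
        ENNReal.ofReal (Real.posLog (∑' j, ‖u j‖)) ≤ ENNReal.ofReal C * HH ψ L q z := by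
    intro z hz
    refine hsol z ?_ fun t ht => hz.2 ⟨t, ht⟩
    have := hz.1
    rw [mem_ball, dist_zero_right] at this
    exact this.le
  choose! u hu1 hu2 hu3 using hDsol
  set f : ℂ → E := fun z => if z ∈ D then sv b (u z) else 0 with hf
  have hfD : ∀ z ∈ D, f z = sv b (u z) := fun z hz => by rw [hf]; simp only [if_pos hz]
  have hfm : AEStronglyMeasurable f (volume.restrict D) := by
    refine meas_sol b A (b 0) D hDm f ?_ ?_ ?_ volume
    · intro z hz
      rw [hfD z hz]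
      exact sv_mem hS _ (hu1 z hz).1
    · intro z hz
      rw [hfD z hz]
      exact sys_sol hS z _ (hu1 z hz)
    · intro z _ v hv
      exact hinj z v hv
  have hrest : volume.restrict D = volume.restrict (ball (0:ℂ) R) :=
    Measure.restrict_congr_set (sdiff_null_ae_eq_self hvol)
  have hKpos : 0 ≤ K := (norm_nonneg _).trans (hS.bd 0)
  refine ⟨f, ?_, ?_, ?_, ?_⟩
  · rw [← hrest]
    exact hfm
  · rw [← hrest]
    filter_upwards [ae_restrict_mem hDm] with z hz
    rw [hfD z hz]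
    exact sys_sol hS z _ (hu1 z hz)
  · unfold IntegrableOn
    rw [← hrest]
    refine ⟨Real.continuous_posLog.comp_aestronglyMeasurable hfm.norm, ?_⟩
    rw [hasFiniteIntegral_iff_norm]
    have hbound : ∀ z ∈ D, ENNReal.ofReal ‖Real.posLog ‖f z‖‖ ≤
        ENNReal.ofReal (Real.posLog K) + ENNReal.ofReal C * HH ψ L q z := by
      intro z hz
      rw [Real.norm_eq_abs, abs_of_nonneg Real.posLog_nonneg, hfD z hz]
      have h1 : Real.posLog ‖sv b (u z)‖ ≤ Real.posLog K + Real.posLog (∑' j, ‖u z j‖) := by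
        refine (Real.posLog_le_posLog (norm_nonneg _) (sv_norm hS _ (hu1 z hz).1)).trans ?_
        exact Real.posLog_mul
      refine (ENNReal.ofReal_le_ofReal h1).trans ?_
      rw [ENNReal.ofReal_add Real.posLog_nonneg Real.posLog_nonneg]
      exact add_le_add le_rfl (hu3 z hz)
    refine lt_of_le_of_lt (setLIntegral_mono' hDm hbound) ?_
    rw [lintegral_add_left measurable_const, lintegral_const_mul _ (measurable_HH ψ L q), hrest]
    refine ENNReal.add_lt_top.mpr ⟨?_, ?_⟩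
    · rw [lintegral_const, Measure.restrict_apply_univ]
      exact ENNReal.mul_lt_top ENNReal.ofReal_lt_top measure_ball_lt_top
    · exact ENNReal.mul_lt_top ENNReal.ofReal_lt_top
        (lt_top_iff_ne_top.mpr (lintegral_HH ψ L q hL hq0 hq2 R))
  · rintro p hp ⟨δ, F, hδ, hF, hFe⟩
    obtain ⟨C', hC', hsol'⟩ := hsolR (‖p‖ + δ)
    refine pot_lemma ψ hvol p hp δ hδ (fun z => τ 0 (F z)) ?_ ?_
    · exact (τ 0).differentiable.comp_differentiableOn hF
    · intro z hz hzψ
      have hzn : ‖z‖ ≤ ‖p‖ + δ := by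
        rw [mem_ball, dist_eq_norm] at hz
        have h5 : ‖z‖ ≤ ‖z - p‖ + ‖p‖ := by
          have := norm_add_le (z - p) p
          rwa [sub_add_cancel] at this
        linarith
      obtain ⟨u', h1, h2, -⟩ := hsol' z hzn hzψ
      have h3 : F z = sv b u' := huniq z _ _ (hFe z hz) (sys_sol hS z _ h1)
      rw [h3, sv_coord hS u' h1.1, h2]

end Pool.Agent.Y283.TO
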