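import Mathlib
import Pool.Agent.Y283.TO.Sys
import Pool.Agent.W610.HY.Fin
import Pool.Agent.W22.HY.NZ2

/-!
Hyperinvariant subspaces of Toeplitz operators.
-/

set_option autoImplicit false

noncomputable section

open MeasureTheory AddCircle Set Filter Topology Metric
open scoped ENNReal NNReal

namespace Pool.Agent.Y283.TO

theorem mloc : Pool.Agent.W610.HY.MLOC :=
  Pool.Agent.W610.HY.Two.area Pool.Agent.W15.HY.CIRC.main
    (Pool.Agent.W610.HY.Two.main Pool.Agent.W610.HY.Fin.hGOOD2 Pool.Agent.W22.HY.NZ2.main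
      Pool.Agent.W389.HY.ABM.main)

/-- a Hölder function of exponent greater than one half -/
lemma HD_of_holder (φ : CT) (C r : ℝ≥0) (hr : 1 / 2 < r) (h : HolderWith C r φ) :
    ∃ L q : ℝ, 0 < L ∧ 1 / 2 ≤ q ∧ 2 * q ^ 2 < 1 ∧ HD (rl φ) L q := by
  have hr' : (1:ℝ) / 2 < r := by exact_mod_cast hr
  refine ⟨C + 1, max (1 / 2) ((1 / 2) ^ (r : ℝ)), by positivity, le_max_left _ _, ?_, ?_⟩
  · rcases max_choice (1 / 2 : ℝ) ((1 / 2) ^ (r : ℝ)) with h1 | h1
    · rw [h1]; norm_num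
    · rw [h1]
      have h2 : ((1 / 2 : ℝ) ^ (r : ℝ)) ^ 2 = (1 / 2 : ℝ) ^ (2 * (r : ℝ)) := by
        rw [← Real.rpow_natCast, ← Real.rpow_mul (by norm_num)]
        congr 1
        push_cast
        ring
      have h3 : (1 / 2 : ℝ) ^ (2 * (r : ℝ)) < (1 / 2 : ℝ) ^ (1 : ℝ) :=
        Real.rpow_lt_rpow_of_exponent_gt (by norm_num) (by norm_num) (by linarith)
      rw [Real.rpow_one] at h3
      rw [h2]
      linarith
  · intro n s t hst
    have h1 := h.dist_le (s : UnitAddCircle) (t : UnitAddCircle)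
    have h2 : dist (s : UnitAddCircle) (t : UnitAddCircle) ≤ (1 / 2) ^ n := by
      rw [dist_eq_norm, ← AddCircle.coe_sub]
      refine le_trans ?_ hst
      have := AddCircle.norm_eq (p := 1) (x := s - t)
      rw [this]
      have h3 := round_le (s - t) 0
      simpa using h3
    have h3 : ((1 / 2 : ℝ) ^ n) ^ (r : ℝ) = ((1 / 2 : ℝ) ^ (r : ℝ)) ^ n := by
      rw [← Real.rpow_natCast, ← Real.rpow_mul (by norm_num), ← Real.rpow_natCast,
        ← Real.rpow_mul (by norm_num), mul_comm]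
    change ‖φ s - φ t‖ ≤ _
    rw [← dist_eq_norm]
    refine h1.trans ?_
    have h4 : dist (s : UnitAddCircle) (t : UnitAddCircle) ^ (r : ℝ) ≤
        (max (1 / 2) ((1 / 2) ^ (r : ℝ))) ^ n := by
      refine (Real.rpow_le_rpow dist_nonneg h2 r.coe_nonneg).trans ?_
      rw [h3]
      exact pow_le_pow_left₀ (by positivity) (le_max_right _ _) n
    have h5 : (0:ℝ) ≤ (max (1 / 2) ((1 / 2) ^ (r : ℝ))) ^ n := by positivity
    calc (C : ℝ) * dist (s : UnitAddCircle) (t : UnitAddCircle) ^ (r : ℝ)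
        ≤ C * (max (1 / 2) ((1 / 2) ^ (r : ℝ))) ^ n :=
          mul_le_mul_of_nonneg_left h4 C.coe_nonneg
      _ ≤ (C + 1) * (max (1 / 2) ((1 / 2) ^ (r : ℝ))) ^ n :=
          mul_le_mul_of_nonneg_right (by linarith) h5

variable {X : Type} [NormedAddCommGroup X] [NormedSpace ℂ X] [CompleteSpace X]

/-- nontrivial closed hyperinvariant subspace -/
def HasHyp (T : X →L[ℂ] X) : Prop :=
  ∃ V : Submodule ℂ X, IsClosed (V : Set X) ∧ V ≠ ⊥ ∧ V ≠ ⊤ ∧
    ∀ Q : X →L[ℂ] X, Q * T = T * Q → ∀ v ∈ V, Q v ∈ V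

lemma hyp_of_eig (T : X →L[ℂ] X) (hT : ∀ c : ℂ, T ≠ c • 1) (z : ℂ) (v : X) (hv : v ≠ 0)
    (h : T v = z • v) : HasHyp T := by
  refine ⟨(T - z • (1 : X →L[ℂ] X)).ker, (T - z • (1 : X →L[ℂ] X)).isClosed_ker, ?_, ?_, ?_⟩
  · intro h0
    apply hv
    have : v ∈ (T - z • (1 : X →L[ℂ] X)).ker := by
      rw [LinearMap.mem_ker]
      simp [h]
    rw [h0] at this
    exact (Submodule.mem_bot ℂ).mp this
  · intro h0
    apply hT z
    ext x
    have : x ∈ (T - z • (1 : X →L[ℂ] X)).ker := by rw [h0]; trivial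
    rw [LinearMap.mem_ker] at this
    simpa [sub_eq_zero] using this
  · intro Q hQ x hx
    rw [LinearMap.mem_ker] at hx ⊢
    have h1 : Q (T x) = T (Q x) := congrArg (fun S : X →L[ℂ] X => S x) hQ
    have h2 : T x = z • x := by simpa [sub_eq_zero] using hx
    have h3 : T (Q x) - z • Q x = 0 := by rw [← h1, h2, map_smul, sub_self]
    simpa using h3

lemma hyp_of_coeig (T : X →L[ℂ] X) (hT : ∀ c : ℂ, T ≠ c • 1) (z : ℂ) (y : X →L[ℂ] ℂ)
    (hy : y ≠ 0) (h : y.comp T = z • y) : HasHyp T := by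
  set S : X →L[ℂ] X := T - z • (1 : X →L[ℂ] X) with hS
  refine ⟨S.range.topologicalClosure, Submodule.isClosed_topologicalClosure _, ?_, ?_, ?_⟩
  · intro h0
    apply hT z
    ext x
    have h1 : S x ∈ S.range.topologicalClosure :=
      Submodule.le_topologicalClosure _ (LinearMap.mem_range_self _ x)
    rw [h0, Submodule.mem_bot] at h1
    rw [hS] at h1
    simpa [sub_eq_zero] using h1
  · intro h0
    apply hy
    have h1 : ∀ x, y (S x) = 0 := by
      intro x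
      have h2 : y (T x) = z * y x := congrArg (fun g : X →L[ℂ] ℂ => g x) h
      rw [hS]
      simp [h2]
    ext x
    have h3 : x ∈ S.range.topologicalClosure := by rw [h0]; trivial
    have h4 : S.range.topologicalClosure ≤ y.ker := by
      refine Submodule.topologicalClosure_minimal _ ?_ y.isClosed_ker
      rintro _ ⟨w, rfl⟩
      exact h1 w
    exact h4 h3
  · intro Q hQ x hx
    have hQS : ∀ w, Q (S w) = S (Q w) := by
      intro w
      have h1 : Q (T w) = T (Q w) := congrArg (fun S : X →L[ℂ] X => S w) hQ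
      rw [hS]
      simp [h1]
    have h5 : S.range.topologicalClosure ≤ S.range.topologicalClosure.comap (Q : X →ₗ[ℂ] X) := by
      refine Submodule.topologicalClosure_minimal _ ?_ ?_
      · rintro _ ⟨w, rfl⟩
        change Q (S w) ∈ S.range.topologicalClosure
        rw [hQS]
        exact Submodule.le_topologicalClosure _ (LinearMap.mem_range_self _ _)
      · exact (Submodule.isClosed_topologicalClosure _).preimage Q.continuous
    exact h5 hx

/-- The main theorem. -/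
theorem toeplitz_hyp (e : ℕ → X) (ε : ℕ → X →L[ℂ] ℂ) (K : ℝ)
    (he : ∀ n, ‖e n‖ ≤ K) (hε : ∀ n, ‖ε n‖ ≤ K)
    (hbi : ∀ i j, ε i (e j) = if i = j then 1 else 0)
    (hspan : Dense (Submodule.span ℂ (range e) : Set X))
    (htot : ∀ x, (∀ n, ε n x = 0) → x = 0)
    (φ : CT) (L q : ℝ) (hL : 0 < L) (hq : 1 / 2 ≤ q) (hq2 : 2 * q ^ 2 < 1)
    (hφ : HD (rl φ) L q) (T : X →L[ℂ] X)
    (hmat : ∀ i j : ℕ, ε i (T (e j)) = ft ((i : ℤ) - j) φ) (hT : ∀ c : ℂ, T ≠ c • 1) :
    HasHyp T := by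
  by_cases h1 : ∃ (z : ℂ) (v : X), v ≠ 0 ∧ T v = z • v
  · obtain ⟨z, v, hv, hvz⟩ := h1
    exact hyp_of_eig T hT z v hv hvz
  by_cases h2 : ∃ (z : ℂ) (y : X →L[ℂ] ℂ), y ≠ 0 ∧ y.comp T = z • y
  · obtain ⟨z, y, hy, hyz⟩ := h2
    exact hyp_of_coeig T hT z y hy hyz
  push Not at h1 h2
  have hext : ∀ y y' : X →L[ℂ] ℂ, (∀ i, y (e i) = y' (e i)) → y = y' := by
    intro y y' hyy
    refine ContinuousLinearMap.ext_on hspan ?_
    rintro _ ⟨i, rfl⟩
    exact hyy i
  have hS1 : Sys e ε T φ K := ⟨he, hbi, htot, hmat⟩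
  have hS2 : Sys ε (fun i => ContinuousLinearMap.apply ℂ ℂ (e i))
      (Pool.Agent.W610.HY.Masm.adj T) (rf φ) K := by
    refine ⟨hε, ?_, ?_, ?_⟩
    · intro i j
      change ε j (e i) = _
      rw [hbi]
      by_cases hij : i = j
      · rw [if_pos hij, if_pos hij.symm]
      · rw [if_neg hij, if_neg (Ne.symm hij)]
    · intro y hy
      exact hext y 0 (fun i => hy i)
    · intro i j
      change (ε j) (T (e i)) = _
      rw [hmat, ft_rf]
      congr 1
      ring_nf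
  have hE1 : ∀ z, ¬ Eig φ z := by
    intro z h
    obtain ⟨v, hv, hvz⟩ := sys_eig hS1 z h
    exact h1 z v hv hvz
  have hE2 : ∀ z, ¬ Eig (rf φ) z := by
    intro z h
    obtain ⟨v, hv, hvz⟩ := sys_eig hS2 z h
    exact h2 z v hv hvz
  have hE3 : ∀ z, ¬ Eig (rf (rf φ)) z := by
    rw [rf_rf]
    exact hE1
  -- two different values
  have hval : ∃ t₁ t₂, φ t₁ ≠ φ t₂ := by
    by_contra hcon
    push Not at hcon
    apply hT (φ 0)
    have hφc : φ = algebraMap ℂ CT (φ 0) := by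
      ext t
      exact hcon t 0
    have h3 : ∀ j, T (e j) = φ 0 • e j := by
      intro j
      rw [← sub_eq_zero]
      refine htot _ fun i => ?_
      rw [map_sub, map_smul, hmat, hbi, hφc, ft_algebraMap]
      by_cases hij : i = j
      · rw [if_pos hij, if_pos (by omega)]
        simp
      · rw [if_neg hij, if_neg (by omega)]
        simp
    refine ContinuousLinearMap.ext_on hspan ?_
    rintro _ ⟨j, rfl⟩
    rw [h3]
    simp
  obtain ⟨t₁, t₂, ht⟩ := hval
  set R : ℝ := ‖φ‖ + 1 with hR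
  have hmem : ∀ t, φ t ∈ ball (0:ℂ) R := by
    intro t
    rw [mem_ball, dist_zero_right, hR]
    exact (φ.norm_coe_le_norm t).trans_lt (lt_add_one _)
  obtain ⟨f, hf1, hf2, hf3, hf4⟩ := side hS1 L q hL hq hq2 hφ
    (fun z v hv => by by_contra h0; exact h1 z v h0 hv) hE2 R
  obtain ⟨g, hg1, hg2, hg3, hg4⟩ := side hS2 L q hL hq hq2 (HD_rf φ L q hφ)
    (fun z v hv => by by_contra h0; exact h2 z v h0 hv) hE3 R
  exact mloc X T (e 0) (ε 0) (φ t₁) (φ t₂) (ball 0 R) (ball 0 R) f g ht isOpen_ball isOpen_ball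
    (hmem t₁) (hmem t₂) hf1 hg1 hf2 hg2 hf3 hg3 (hf4 _ ⟨t₁, rfl⟩)
    (hg4 _ ⟨-t₂, by rw [rf_apply, neg_neg]⟩)

end Pool.Agent.Y283.TO
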